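import Pool.Agent.MP_3b4e7c_co.Gen4.Defs

/-! The circular model with one label through the hub that stays wide. -/

namespace Pool.Agent.MP_3b4e7c_co.Gen4

open Finset Gen Hub

variable {X : Type} [DecidableEq X] {n : ℕ}

/-- The label `j` faces the closed arc of length `f` that starts at `p`; the tight sets `U` and `V`
meet it on the first and on the last ray only.  All other labels through `a` face half circles. -/
structure Jmp (P : Finset X) (H G : Fin n → Finset X) (a : X) (E : Finset X) (ang : X → ℝ)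
    (lo : Fin n → ℝ) (j : Fin n) (p f : ℝ) (U V : Finset X) : Prop where
  mem : a ∈ P
  sub : ∀ y, G y ⊆ (H y).erase a
  arc : ∀ y, a ∈ H y → y ≠ j → ∀ x ∈ P.erase a, x ∈ G y ↔ Arc (lo y) (1 / 2) (ang x)
  gen : ∀ y, a ∈ H y → y ≠ j → ∀ x ∈ P.erase a, Int.fract (ang x - lo y) ≠ 0
  out : ∀ y, a ∉ H y → G y = H y
  sur : Sur G (P.erase a)
  hs : E ⊆ P.erase a
  hull : ∀ y, a ∈ H y → y ≠ j → (G y).Nonempty → ∃ h ∈ E, h ∈ G y
  thr : a ∈ H j
  wide : 1 / 2 ≤ f ∧ f < 1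
  jarc : ∀ x ∈ P.erase a, Int.fract (ang x - p) ≤ f → x ∈ G j
  tU : U ⊆ P.erase a ∧ (Nb G U).card ≤ U.card + 1 ∧ j ∈ Nb G U ∧
    ∀ x ∈ U, x ∈ G j → Int.fract (ang x - p) = 0
  tV : V ⊆ P.erase a ∧ (Nb G V).card ≤ V.card + 1 ∧ j ∈ Nb G V ∧
    ∀ x ∈ V, x ∈ G j → Int.fract (ang x - p) = f

/-- the statement of the closing theorem for one wide label -/
def JumperS : Prop :=
  ∀ (X : Type) [DecidableEq X] (n : ℕ) (P : Finset X) (H G : Fin n → Finset X) (a : X)
    (E : Finset X) (ang : X → ℝ) (lo : Fin n → ℝ) (j : Fin n) (p f : ℝ) (U V : Finset X),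
    Base P H → Jmp P H G a E ang lo j p f U V → Goal H a E

end Pool.Agent.MP_3b4e7c_co.Gen4
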