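import Pool.Agent.MP_3b4e7c_co.Gen4.Defs

/-! The circular model in which every label through the hub faces a half circle. -/

namespace Pool.Agent.MP_3b4e7c_co.Gen4

open Finset Gen Hub

variable {X : Type} [DecidableEq X] {n : ℕ}

/-- The narrow model: a label through `a` faces the points of a half circle, whose ends carry no
point and which has a point of `E`; any other label lies in an open half circle. -/
structure Nar (P : Finset X) (H G : Fin n → Finset X) (a : X) (E : Finset X) (ang : X → ℝ)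
    (lo : Fin n → ℝ) : Prop where
  mem : a ∈ P
  sub : ∀ y, G y ⊆ (H y).erase a
  arc : ∀ y, a ∈ H y → ∀ x ∈ P.erase a, x ∈ G y ↔ Arc (lo y) (1 / 2) (ang x)
  gen : ∀ y, a ∈ H y → ∀ x ∈ P.erase a, ∀ k : ℤ, 2 * (ang x - lo y) ≠ k
  out : ∀ y, a ∉ H y → G y = H y ∧ ∀ x ∈ H y, Arc (lo y) (1 / 2) (ang x)
  sur : Sur G (P.erase a)
  hs : E ⊆ P.erase a
  hull : ∀ y, a ∈ H y → ∃ h ∈ E, h ∈ G y

/-- the statement of the closing theorem in the narrow model -/
def NarrowS : Prop :=
  ∀ (X : Type) [DecidableEq X] (n : ℕ) (P : Finset X) (H G : Fin n → Finset X) (a : X)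
    (E : Finset X) (ang : X → ℝ) (lo : Fin n → ℝ),
    Base P H → Nar P H G a E ang lo → Goal H a E

end Pool.Agent.MP_3b4e7c_co.Gen4
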