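import Pool.Agent.MP_3b4e7c_co.Gen4.Shrink
import Pool.Agent.MP_3b4e7c_co.Gen4.JumpDefs
import Pool.Agent.MP_3b4e7c_co.Gen4.NarDefs

/-! The closing theorem follows from the narrow case and the case of one wide label. -/

namespace Pool.Agent.MP_3b4e7c_co.Gen4

open Finset Gen Int

theorem two_ne {s : ℝ} (h0 : fract s ≠ 0) (h1 : fract s ≠ 1 / 2) (k : ℤ) : 2 * s ≠ k := by
  intro h
  have a1 := fract_nonneg s
  have a2 := fract_lt_one s
  have e : 2 * fract s = ((k - 2 * ⌊s⌋ : ℤ) : ℝ) := by rw [fract]; push_cast; linarith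
  have b1 : (0 : ℤ) ≤ k - 2 * ⌊s⌋ := by exact_mod_cast (by linarith : (0 : ℝ) ≤ (k - 2 * ⌊s⌋ : ℤ))
  have b2 : k - 2 * ⌊s⌋ < 2 := by exact_mod_cast (by linarith : ((k - 2 * ⌊s⌋ : ℤ) : ℝ) < 2)
  rcases (by omega : k - 2 * ⌊s⌋ = 0 ∨ k - 2 * ⌊s⌋ = 1) with c | c <;> rw [c] at e
  · exact h0 (by simpa using e)
  · exact h1 (by push_cast at e; linarith)

theorem closing_of (hn : NarrowS) (hj : JumperS) : ClosingS := by
  intro X _ n P H G a E ang lo len Bad hB hC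
  obtain ⟨Γ, θ, h1, h2, h3, h4⟩ := shrink hB hC
  by_cases w : ∃ c, a ∈ H c ∧ ∃ u φ Xf Xl, Wd (P.erase a) Γ ang c u φ Xf Xl
  · obtain ⟨c, ac, u, φ, Xf, Xl, hW⟩ := w
    have nw : ∀ y, a ∈ H y → y ≠ c → Nw (P.erase a) Γ ang y (θ y) := fun y hy k =>
      (h4 y hy).2.resolve_right fun ⟨_, _, _, _, q⟩ => k (q.uniq h3 hW)
    have p0 := hW.pos
    have p1 := hW.half
    have cc := fun x => cut' (ang x) u φ p0.le (by linarith)
    refine hj X n P H Γ a E ang θ c (u + φ) (1 - φ) Xf Xl hB ⟨hC.mem, h1,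
      fun y hy k => (nw y hy k).1, fun y hy k x hx => ((nw y hy k).2 x hx).1,
      fun y hy => (h2 y hy).1, h3, hC.hs, fun y hy _ _ => (h4 y hy).1, ac,
      ⟨by linarith, by linarith⟩, fun x hx k => by_contra fun q => ?_,
      ⟨hW.tf.sub, hW.tf.card.le, hW.cf, fun x x1 x2 => ?_⟩,
      hW.tl.sub, hW.tl.card.le, hW.cl, fun x x1 x2 => ?_⟩
    · obtain ⟨q1, q2⟩ := (hW.arc x hx).1 q
      rcases cc x with r | r <;> linarith [r.1, r.2]
    · have := hW.ef x x1 x2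
      rcases cc x with r | r <;> linarith [r.1, r.2]
    · have := hW.el x x1 x2
      rcases cc x with r | r <;> linarith [r.1, r.2]
  · have nw : ∀ y, a ∈ H y → Nw (P.erase a) Γ ang y (θ y) := fun y hy =>
      (h4 y hy).2.resolve_right fun q => w ⟨y, hy, q⟩
    exact hn X n P H Γ a E ang θ hB ⟨hC.mem, h1, fun y hy => (nw y hy).1,
      fun y hy x hx => two_ne ((nw y hy).2 x hx).1 ((nw y hy).2 x hx).2, h2, h3, hC.hs,
      fun y hy => (h4 y hy).1⟩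

end Pool.Agent.MP_3b4e7c_co.Gen4
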