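import Pool.Agent.MP_3b4e7c_co.Gen4.Fin
import Pool.Agent.MP_3b4e7c_co.Gen4.NarDefs

/-! What the window at the best root gives in the narrow model, without angles. -/

namespace Pool.Agent.MP_3b4e7c_co.Gen4

open Finset Gen Hub

variable {X : Type} [DecidableEq X] {n : ℕ}

/-- the narrow model in which the outside labels may have lost points -/
structure Nar0 (P : Finset X) (H G : Fin n → Finset X) (a : X) (ang : X → ℝ) (lo : Fin n → ℝ) :
    Prop where
  mem : a ∈ P
  sub : ∀ y, G y ⊆ (H y).erase a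
  arc : ∀ y, a ∈ H y → ∀ x ∈ P.erase a, x ∈ G y ↔ Arc (lo y) (1 / 2) (ang x)
  gen : ∀ y, a ∈ H y → ∀ x ∈ P.erase a, ∀ k : ℤ, 2 * (ang x - lo y) ≠ k
  out : ∀ y, a ∉ H y → ∀ x ∈ H y, Arc (lo y) (1 / 2) (ang x)
  sur : Sur G (P.erase a)

/-- `K` is `G` without the wrap parts of the short labels; `LR y p` says that `y` is a long label
that uses the slot at the free point when its tail is `p`; `pos` is the position in the window. -/
structure Core (P : Finset X) (H G K : Fin n → Finset X) (a : X) (E : Finset X) (A B g : Fin n)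
    (e : X) (LR : Fin n → X → Prop) (pos : X → ℝ) : Prop where
  AB : A ≠ B
  aA : a ∈ H A
  aB : a ∈ H B
  ag : a ∈ H g
  eg : e ∈ G g
  sub : ∀ y, K y ⊆ G y
  out : ∀ y, a ∉ H y → K y = G y
  ex : ∃ t, Mt K (Om A B) ((P.erase a).erase e) t
  root : ∃ t, Mt K (univ.erase A) (P.erase a) t
  fin : ∀ x r, x ∈ G g → Mt K (Om A B) ((P.erase a).erase x) r →
    (∀ y, Src H a A B g y → LR y (r y) → x ∈ G y) → Alt0 H a E A B x r → Goal H a E
  auto : ∀ r, Mt K (Om A B) ((P.erase a).erase e) r → ∀ y, Src H a A B g y → LR y (r y) → e ∈ G y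
  long : ∀ y p, LR y p → K y = G y ∧ (p ∈ G y → p ∈ G g)
  ord : ∀ y p z q, LR y p → LR z q → p ∈ G y → q ∈ G z → pos p ≤ pos q → q ∈ G y
  short : ∀ z, a ∈ H z → z ≠ A → z ≠ B → ∀ x ∈ G z, x ∉ K z → x ∈ G A ∧ K z ⊆ G B

/-- the statement of the core -/
def CoreS : Prop :=
  ∀ (X : Type) [DecidableEq X] (n : ℕ) (P : Finset X) (H G : Fin n → Finset X) (a : X)
    (E : Finset X) (ang : X → ℝ) (lo : Fin n → ℝ), Base P H → Nar0 P H G a ang lo →
    E ⊆ P.erase a → E.Nonempty → ∃ K A B g e LR pos, Core P H G K a E A B g e LR pos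

end Pool.Agent.MP_3b4e7c_co.Gen4
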