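import Pool.Agent.MP_3b4e7c_co.Hub.Frame
import Mathlib.Algebra.Order.Floor.Ring

/-! The circular model at a hub and the state in which the frame closes. -/

namespace Pool.Agent.MP_3b4e7c_co.Gen4

open Finset Gen Hub

variable {X : Type} [DecidableEq X] {n : ℕ}

/-- labels that meet `Z` -/
def Nb (Γ : Fin n → Finset X) (Z : Finset X) : Finset (Fin n) :=
  univ.filter fun y => ∃ x ∈ Z, x ∈ Γ y

/-- surplus one for all nonempty subsets of `Q` -/
def Sur (Γ : Fin n → Finset X) (Q : Finset X) : Prop :=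
  ∀ Z ⊆ Q, Z.Nonempty → Z.card + 1 ≤ (Nb Γ Z).card

/-- the labels through the hub -/
def Thru (H : Fin n → Finset X) (a : X) : Finset (Fin n) := univ.filter fun y => a ∈ H y

/-- the direction `u` lies in the open arc of length `w` that starts at `l` (full turn = 1) -/
def Arc (l w u : ℝ) : Prop := 0 < Int.fract (u - l) ∧ Int.fract (u - l) < w

/-- a point of `E` is the free point or the tail of a label through the hub, or a set `S` of other
labels is closed, owns a point of `E` and misses a point of `E` -/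
def Alt (H : Fin n → Finset X) (a : X) (E : Finset X) (e : X) (t : Fin n → X) : Prop :=
  (∃ τ ∈ E, τ = e ∨ ∃ z ∈ Thru H a, t z = τ) ∨
    ∃ S : Finset (Fin n), (∀ y ∈ S, a ∉ H y) ∧ (∀ y ∈ S, ∀ z, a ∉ H z → t z ∈ H y → z ∈ S) ∧
      (∃ y ∈ S, t y ∈ E) ∧ ∃ h ∈ E, ∀ y ∈ S, h ∉ H y

/-- the hypotheses of the frame with all labels through `a` as sources -/
def Goal (H : Fin n → Finset X) (a : X) (E : Finset X) : Prop :=
  ∃ (A B g : Fin n) (e : X) (t : Fin n → X), A ≠ B ∧ a ∈ H g ∧ e ∈ H g ∧ t A = a ∧ t B = a ∧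
    (∀ y, t y ∈ H y ∧ t y ≠ e) ∧ (∀ y z, y ≠ B → z ≠ B → t y = t z → y = z) ∧
    Clo H (Thru H a) A B g e t ∧ Alt H a E e t

/-- The circular model: `ang x` is the direction of `x` seen from `a`; a label through `a` faces
the points of an arc longer than a half turn, any other label lies in an open half circle; a half
circle with a point has a point of `E`. -/
structure Circ (P : Finset X) (H G : Fin n → Finset X) (a : X) (E : Finset X) (ang : X → ℝ)
    (lo len : Fin n → ℝ) (Bad : Set ℝ) : Prop where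
  mem : a ∈ P
  sub : ∀ y, G y ⊆ (H y).erase a
  wide : ∀ y, a ∈ H y → 1 / 2 < len y ∧ len y ≤ 1
  arc : ∀ y, a ∈ H y → ∀ x ∈ P.erase a, x ∈ G y ↔ Arc (lo y) (len y) (ang x)
  out : ∀ y, a ∉ H y → G y = H y ∧ ∀ x ∈ H y, Arc (lo y) (1 / 2) (ang x)
  sur : Sur G (P.erase a)
  hs : E ⊆ P.erase a
  bad : Bad.Countable
  hull : ∀ θ, θ ∉ Bad → (∃ x ∈ P.erase a, Arc θ (1 / 2) (ang x)) → ∃ h ∈ E, Arc θ (1 / 2) (ang h)

/-- the statement of the closing theorem -/
def ClosingS : Prop :=
  ∀ (X : Type) [DecidableEq X] (n : ℕ) (P : Finset X) (H G : Fin n → Finset X) (a : X)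
    (E : Finset X) (ang : X → ℝ) (lo len : Fin n → ℝ) (Bad : Set ℝ),
    Base P H → Circ P H G a E ang lo len Bad → Goal H a E

end Pool.Agent.MP_3b4e7c_co.Gen4
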