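import Pool.Agent.MP_3b4e7c_co.Gen4.Tight

/-! From a matching with classes to the state of the frame; the points of `E`. -/

namespace Pool.Agent.MP_3b4e7c_co.Gen4

open Finset Function Gen Hub Up

variable {X : Type} [DecidableEq X] {n : ℕ} {P E : Finset X} {H Γ : Fin n → Finset X} {a e : X}
  {A B g : Fin n} {t : Fin n → X}

/-- all labels but two -/
def Om (A B : Fin n) : Finset (Fin n) := (univ.erase A).erase B

theorem mOm {y : Fin n} : y ∈ Om A B ↔ y ≠ A ∧ y ≠ B := by simp [Om, and_comm]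

/-- `Γ` is a part of the incidences without the hub -/
structure Ctx (P : Finset X) (H Γ : Fin n → Finset X) (a : X) (E : Finset X) : Prop where
  base : Base P H
  mem : a ∈ P
  sub : ∀ y, Γ y ⊆ (H y).erase a
  out : ∀ y, a ∉ H y → Γ y = H y
  hs : E ⊆ P.erase a
  ne : E.Nonempty

theorem Ctx.real (hC : Ctx P H Γ a E) {y : Fin n} {x : X} (h : x ∈ Γ y) : x ∈ H y :=
  mem_of_mem_erase (hC.sub y h)

theorem Ctx.inQ (hC : Ctx P H Γ a E) {y : Fin n} {x : X} (h : x ∈ Γ y) : x ∈ P.erase a :=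
  erase_subset_erase _ (hC.base.sub y) (hC.sub y h)

theorem Ctx.card (hC : Ctx P H Γ a E) : (P.erase a).card + 1 = n := by
  rw [card_erase_add_one hC.mem, hC.base.card]

theorem Ctx.neQ (hC : Ctx P H Γ a E) : (P.erase a).Nonempty := hC.ne.mono hC.hs

/-- `Alt` for a matching of the labels other than `A`, `B` -/
def Alt0 (H : Fin n → Finset X) (a : X) (E : Finset X) (A B : Fin n) (e : X) (t : Fin n → X) :
    Prop :=
  (∃ τ ∈ E, τ = e ∨ ∃ z ∈ Om A B, a ∈ H z ∧ t z = τ) ∨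
    ∃ S : Finset (Fin n), (∀ y ∈ S, a ∉ H y) ∧ (∀ y ∈ S, ∀ z, a ∉ H z → t z ∈ H y → z ∈ S) ∧
      (∃ y ∈ S, t y ∈ E) ∧ ∃ h ∈ E, ∀ y ∈ S, h ∉ H y

/-- a label through the hub that needs a slot -/
def Src (H : Fin n → Finset X) (a : X) (A B g z : Fin n) : Prop :=
  a ∈ H z ∧ z ≠ A ∧ z ≠ B ∧ z ≠ g

/-- any two labels of the class `p` are joined by an arc -/
def Ch (H : Fin n → Finset X) (t : Fin n → X) (s p : Fin n → Prop) : Prop :=
  ∀ u v, s u → s v → p u → p v → u ≠ v → t u ∈ H v ∨ t v ∈ H u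

theorem fin (hC : Ctx P H Γ a E) (AB : A ≠ B) (aA : a ∈ H A) (aB : a ∈ H B) (ag : a ∈ H g)
    (eg : e ∈ H g) (eQ : e ∈ P.erase a) (hm : Mt Γ (Om A B) ((P.erase a).erase e) t)
    (alt : Alt0 H a E A B e t) (p0 p1 p2 p3 : Fin n → Prop)
    (h : ∀ z, Src H a A B g z → (p0 z ∨ p1 z ∨ p2 z ∨ p3 z) ∧ (p0 z → t z ∈ H A) ∧
      (p1 z → t z ∈ H B) ∧ (p2 z → t z ∈ H g ∧ t g ∈ H z ∧ g ≠ A ∧ g ≠ B) ∧
      (p3 z → t z ∈ H g ∧ e ∈ H z))
    (c0 : Ch H t (Src H a A B g) p0) (c1 : Ch H t (Src H a A B g) p1)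
    (c2 : Ch H t (Src H a A B g) p2) (c3 : Ch H t (Src H a A B g) p3) : Goal H a E := by
  classical
  obtain ⟨r, r1, r2, r3⟩ : ∃ r : Fin n → X, r A = a ∧ r B = a ∧ ∀ y, y ≠ A → y ≠ B → r y = t y :=
    ⟨fun y => if y = A ∨ y = B then a else t y, by simp, by simp, fun y k1 k2 => by simp [k1, k2]⟩
  have r4 : ∀ y, a ∉ H y → r y = t y := fun y hy =>
    r3 y (fun c => hy (c ▸ aA)) fun c => hy (c ▸ aB)
  have tQ : ∀ y, y ≠ A → y ≠ B → t y ≠ e ∧ t y ≠ a := fun y k1 k2 =>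
    ⟨(mem_erase.1 (hm.into y (mOm.2 ⟨k1, k2⟩))).1,
      (mem_erase.1 (mem_erase.1 (hm.into y (mOm.2 ⟨k1, k2⟩))).2).1⟩
  have tm : ∀ y, r y ∈ H y ∧ r y ≠ e := fun y => by
    by_cases k1 : y = A
    · rw [k1, r1]; exact ⟨aA, (mem_erase.1 eQ).1.symm⟩
    by_cases k2 : y = B
    · rw [k2, r2]; exact ⟨aB, (mem_erase.1 eQ).1.symm⟩
    · rw [r3 y k1 k2]; exact ⟨hC.real (hm.mem y (mOm.2 ⟨k1, k2⟩)), (tQ y k1 k2).1⟩
  have mT : ∀ {y}, y ∈ Thru H a ↔ a ∈ H y := by simp [Thru]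
  obtain ⟨cl, hcl⟩ : ∃ cl : Fin n → Option (Fin n), ∀ z, Src H a A B g z →
      cl z = some A ∧ p0 z ∨ cl z = some B ∧ p1 z ∨ cl z = some g ∧ p2 z ∨ cl z = none ∧ p3 z := by
    refine ⟨fun z => if p0 z then some A else if p1 z then some B else if p2 z then some g
      else none, fun z hz => ?_⟩
    have := (h z hz).1
    dsimp only
    split_ifs with q0 q1 q2
    exacts [Or.inl ⟨rfl, q0⟩, Or.inr (Or.inl ⟨rfl, q1⟩), Or.inr (Or.inr (Or.inl ⟨rfl, q2⟩)),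
      Or.inr (Or.inr (Or.inr ⟨rfl, ((this.resolve_left q0).resolve_left q1).resolve_left q2⟩))]
  refine ⟨A, B, g, e, r, AB, ag, eg, r1, r2, tm, fun y z y1 z1 c => ?_,
    clo_of_cls (mT.2 aA) (mT.2 aB) (mT.2 ag) eg (fun y => (tm y).1) cl
      (fun z z0 z1 z2 z3 => ?_) fun u u0 u1 u2 u3 v v0 v1 v2 v3 c uv => ?_, ?_⟩
  · by_cases k1 : y = A <;> by_cases k2 : z = A
    · rw [k1, k2]
    · rw [k1, r1, r3 z k2 z1] at c; exact absurd c.symm (tQ z k2 z1).2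
    · rw [k2, r1, r3 y k1 y1] at c; exact absurd c (tQ y k1 y1).2
    · rw [r3 y k1 y1, r3 z k2 z1] at c; exact hm.inj y (mOm.2 ⟨k1, y1⟩) z (mOm.2 ⟨k2, z1⟩) c
  · obtain ⟨-, k0, k1, k2, k3⟩ := h z ⟨mT.1 z0, z1, z2, z3⟩
    rw [r3 z z1 z2]
    rcases hcl z ⟨mT.1 z0, z1, z2, z3⟩ with ⟨c, q⟩ | ⟨c, q⟩ | ⟨c, q⟩ | ⟨c, q⟩ <;> rw [c]
    · exact ⟨by simp, k0 q, show r A ∈ H z from r1.symm ▸ mT.1 z0⟩
    · exact ⟨by simp, k1 q, show r B ∈ H z from r2.symm ▸ mT.1 z0⟩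
    · exact ⟨by simp, (k2 q).1,
        show r g ∈ H z from (r3 g (k2 q).2.2.1 (k2 q).2.2.2).symm ▸ (k2 q).2.1⟩
    · exact ⟨by simp, k3 q⟩
  · have su : Src H a A B g u := ⟨mT.1 u0, u1, u2, u3⟩
    have sv : Src H a A B g v := ⟨mT.1 v0, v1, v2, v3⟩
    have gu : p2 u → g ≠ A ∧ g ≠ B := fun q => ((h u su).2.2.2.1 q).2.2
    have gv : p2 v → g ≠ A ∧ g ≠ B := fun q => ((h v sv).2.2.2.1 q).2.2
    rw [r3 u u1 u2, r3 v v1 v2]
    rcases hcl u su with ⟨k, q⟩ | ⟨k, q⟩ | ⟨k, q⟩ | ⟨k, q⟩ <;>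
      rcases hcl v sv with ⟨k', q'⟩ | ⟨k', q'⟩ | ⟨k', q'⟩ | ⟨k', q'⟩ <;> rw [k, k'] at c
    exacts [c0 u v su sv q q' uv, absurd (Option.some.inj c) AB,
      absurd (Option.some.inj c).symm (gv q').1, (nomatch c),
      absurd (Option.some.inj c).symm AB, c1 u v su sv q q' uv,
      absurd (Option.some.inj c).symm (gv q').2, (nomatch c),
      absurd (Option.some.inj c) (gu q).1, absurd (Option.some.inj c) (gu q).2,
      c2 u v su sv q q' uv, (nomatch c), (nomatch c), (nomatch c), (nomatch c), c3 u v su sv q q' uv]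
  · rcases alt with ⟨τ, k1, k2 | ⟨z, z1, z2, z3⟩⟩ | ⟨S, s1, s2, ⟨y, s3, s4⟩, s5⟩
    · exact Or.inl ⟨τ, k1, Or.inl k2⟩
    · exact Or.inl ⟨τ, k1, Or.inr ⟨z, mT.2 z2, (r3 z (mOm.1 z1).1 (mOm.1 z1).2).trans z3⟩⟩
    · exact Or.inr ⟨S, s1, fun y hy z z1 z2 => s2 y hy z z1 (r4 z z1 ▸ z2),
        ⟨y, s3, (r4 y (s1 y s3)).symm ▸ s4⟩, s5⟩

/-- the set of labels that is reached from the owners of the points of `E` -/
structure Reach (P : Finset X) (H Γ : Fin n → Finset X) (a : X) (E : Finset X) (A B : Fin n)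
    (e : X) (t : Fin n → X) (R : Finset (Fin n)) : Prop where
  sub : R ⊆ Om A B
  own : ∀ h ∈ E, ∃ o ∈ R, t o = h
  no : ∀ z ∈ R, a ∈ H z → ∀ h ∈ E, h ∉ Γ z
  rot : ∀ h ∈ E, ∀ z ∈ R, ∃ r, Mt Γ ((Om A B).erase z) (((P.erase a).erase e).erase h) r ∧
    ∀ y ∈ Om A B, y ∉ R → r y = t y
  low : ∀ I, Cls Γ (Om A B) t I → ∀ o ∈ I, o ∈ R → t o ∈ E → R ⊆ I
  alt : ((∃ y ∈ R, e ∈ Γ y) ∧ ∀ h ∈ E, ∃ r, Mt Γ (Om A B) ((P.erase a).erase h) r ∧
    ∀ y ∈ Om A B, y ∉ R → r y = t y) ∨ (∀ y ∈ R, Γ y ⊆ R.image t) ∧ ∃ z ∈ R, a ∈ H z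

theorem reach (hC : Ctx P H Γ a E) (aA : a ∈ H A) (aB : a ∈ H B) (eQ : e ∈ P.erase a)
    (hm : Mt Γ (Om A B) ((P.erase a).erase e) t) :
    (∃ r, Mt Γ (Om A B) ((P.erase a).erase e) r ∧ Alt0 H a E A B e r) ∨
      ∃ R, Reach P H Γ a E A B e t R := by
  classical
  by_contra hn
  rw [not_or, not_exists, not_exists] at hn
  obtain ⟨n1, n2⟩ := hn
  have n0 : ¬ Alt0 H a E A B e t := fun c => n1 t ⟨hm, c⟩
  have hW : ∀ h ∈ E, h ∈ (P.erase a).erase e := fun h hh =>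
    mem_erase.2 ⟨fun c => n0 (Or.inl ⟨h, hh, Or.inl c⟩), hC.hs hh⟩
  have : Nonempty (Fin n) := ⟨A⟩
  choose! o o1 o2 using fun h hh => hm.surj (hW h hh)
  have o3 : ∀ h ∈ E, a ∉ H (o h) := fun h hh c =>
    n0 (Or.inl ⟨h, hh, Or.inr ⟨o h, o1 h hh, c, o2 h hh⟩⟩)
  choose! R R1 R2 R3 R4 using fun h hh => hull_of (Γ := Γ) (t := t) (o h) (o1 h hh)
  have om : ∀ z, a ∉ H z → z ∈ Om A B := fun z hz =>
    mOm.2 ⟨fun c => hz (c ▸ aA), fun c => hz (c ▸ aB)⟩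
  have all : ∀ τ ∈ E, ∀ h ∈ E, o h ∈ R τ := fun τ k h hh => by
    by_contra c
    refine n0 (Or.inr ⟨(R τ).filter fun y => a ∉ H y, fun y hy => (mem_filter.1 hy).2,
      fun y hy z z1 z2 => mem_filter.2 ⟨R3 τ k y (mem_filter.1 hy).1 z (om z z1)
        (hC.out y (mem_filter.1 hy).2 ▸ z2), z1⟩,
      ⟨o τ, mem_filter.2 ⟨R2 τ k, o3 τ k⟩, (o2 τ k).symm ▸ k⟩, h, hh, fun y hy q => c ?_⟩)
    exact R3 τ k y (mem_filter.1 hy).1 _ (o1 h hh)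
      (by rw [o2 h hh, hC.out y (mem_filter.1 hy).2]; exact q)
  obtain ⟨τ, k⟩ := hC.ne
  have low : ∀ h ∈ E, ∀ I, o h ∈ I → Cls Γ (Om A B) t I → R τ ⊆ I := fun h hh I i1 i2 =>
    R4 τ k I (R4 h hh I i1 i2 (all h hh τ k)) i2
  have rot : ∀ h ∈ E, ∀ z ∈ R τ, ∃ r, Mt Γ ((Om A B).erase z) (((P.erase a).erase e).erase h) r ∧
      ∀ y ∈ Om A B, y ∉ R τ → r y = t y := fun h hh z hz => by
    have := hm.rot (R1 τ k) (all τ k h hh) (R3 τ k) (low h hh) hz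
    rwa [o2 h hh] at this
  refine n2 (R τ) ⟨R1 τ k, fun h hh => ⟨o h, all τ k h hh, o2 h hh⟩, fun z hz az h hh c => ?_, rot,
    fun I i1 y i2 y1 y2 => low _ y2 I (hm.inj y (R1 τ k y1) _ (o1 _ y2) (o2 _ y2).symm ▸ i2) i1,
    ?_⟩
  · obtain ⟨r, r1, -⟩ := rot h hh z hz
    have := r1.add (notMem_erase z _) (notMem_erase h _) c
    rw [insert_erase (R1 τ k hz), insert_erase (hW h hh)] at this
    exact n1 _ ⟨this, Or.inl ⟨h, hh, Or.inr ⟨z, R1 τ k hz, az, update_self ..⟩⟩⟩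
  by_cases c : ∃ y ∈ R τ, e ∈ Γ y
  · refine Or.inl ⟨c, fun h hh => ?_⟩
    obtain ⟨y, y1, y2⟩ := c
    obtain ⟨r, r1, r2⟩ := rot h hh y y1
    have := r1.add (notMem_erase y _) (fun q => notMem_erase e _ (mem_of_mem_erase q)) y2
    rw [insert_erase (R1 τ k y1), erase_right_comm,
      insert_erase (mem_erase.2 ⟨(mem_erase.1 (hW h hh)).1.symm, eQ⟩)] at this
    exact ⟨_, this, fun w w1 w2 => (update_of_ne (fun q : w = y => w2 (q ▸ y1)) ..).trans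
      (r2 w w1 w2)⟩
  · have ins : ∀ y ∈ R τ, Γ y ⊆ (R τ).image t := fun y hy x hx => by
      obtain ⟨z, z1, z2⟩ := hm.surj (mem_erase.2 ⟨fun q : x = e => c ⟨y, hy, q ▸ hx⟩, hC.inQ hx⟩)
      exact mem_image.2 ⟨z, R3 τ k y hy z z1 (z2.symm ▸ hx), z2⟩
    refine Or.inr ⟨ins, by_contra fun q => ?_⟩
    have s1 : (R τ).image t ⊆ P.erase a := image_subset_iff.2 fun y hy =>
      mem_of_mem_erase (hm.into y (R1 τ k hy))
    have c1 := hC.base.dh.inside hC.base.card ((R τ).image t) (s1.trans (erase_subset _ _))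
      ⟨_, mem_image_of_mem t (R2 τ k)⟩ fun w => notMem_erase a P (s1 (w.symm ▸ hC.mem))
    have c2 : (R τ).card ≤ (univ.filter fun y => H y ⊆ (R τ).image t).card :=
      card_le_card fun y hy => mem_filter.2 ⟨mem_univ _,
        hC.out y (fun w => q ⟨y, hy, w⟩) ▸ ins y hy⟩
    have := card_image_le (s := R τ) (f := t)
    omega

/-- every label through the hub has a point of `E` -/
def Full (H Γ : Fin n → Finset X) (a : X) (E : Finset X) : Prop :=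
  ∀ z, a ∈ H z → ∃ h ∈ E, h ∈ Γ z

theorem reach2 (hC : Ctx P H Γ a E) (full : Full H Γ a E) (aA : a ∈ H A) (aB : a ∈ H B)
    (eQ : e ∈ P.erase a) (hm : Mt Γ (Om A B) ((P.erase a).erase e) t) :
    (∃ r, Mt Γ (Om A B) ((P.erase a).erase e) r ∧ Alt0 H a E A B e r) ∨
      ∀ h ∈ E, ∃ r, Mt Γ (Om A B) ((P.erase a).erase h) r ∧ ∀ y ∈ Om A B, a ∈ H y → r y = t y := by
  refine (reach hC aA aB eQ hm).imp id fun ⟨R, hR⟩ h hh => ?_
  have no : ∀ z ∈ R, a ∉ H z := fun z hz c => (full z c).elim fun h k => hR.no z hz c h k.1 k.2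
  rcases hR.alt with k | ⟨-, z, z1, z2⟩
  · exact (k.2 h hh).imp fun r k => ⟨k.1, fun y y1 y2 => k.2 y y1 fun c => no y c y2⟩
  · exact absurd z2 (no z z1)

/-- states in which any matching works and the slot at the free point is not used -/
theorem flow (hC : Ctx P H Γ a E) (full : Full H Γ a E) (aA : a ∈ H A) (aB : a ∈ H B)
    (ag : a ∈ H g) (eg : e ∈ H g) (eQ : e ∈ P.erase a)
    (hm : Mt Γ (Om A B) ((P.erase a).erase e) t) (Pr : Fin n → X → Prop)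
    (h1 : ∀ r, Mt Γ (Om A B) ((P.erase a).erase e) r → ∀ y ∈ Om A B, a ∈ H y → Pr y (r y))
    (h2 : ∀ x r, x ∈ P.erase a → x ∈ H g → Mt Γ (Om A B) ((P.erase a).erase x) r →
      (∀ y ∈ Om A B, a ∈ H y → Pr y (r y)) → Alt0 H a E A B x r → Goal H a E) : Goal H a E := by
  rcases reach2 hC full aA aB eQ hm with ⟨r, r1, r2⟩ | k
  · exact h2 e r eQ eg r1 (h1 r r1) r2
  · obtain ⟨h, h3, h4⟩ := full g ag
    obtain ⟨r, r1, r2⟩ := k h h3
    exact h2 h r (hC.hs h3) (hC.real h4) r1 (fun y y1 y2 => (r2 y y1 y2).symm ▸ h1 t hm y y1 y2)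
      (Or.inl ⟨h, h3, Or.inl rfl⟩)

/-- a matching without `A`, `B` for a point of their least tight set -/
theorem pairM (hC : Ctx P H Γ a E) (hs : Sur Γ (P.erase a)) (AB : A ≠ B) {M : Finset X}
    (hM : Least Γ (P.erase a) A B M) (he : e ∈ M) :
    ∃ t, Mt Γ (Om A B) ((P.erase a).erase e) t := by
  have all := hs.all hC.card hC.neQ
  have := hM.pair hs AB (Z := P.erase a) ⟨Subset.rfl, hC.neQ, by rw [all]; simp [hC.card]⟩
    (by simp [all]) (by simp [all]) he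
  rwa [all] at this

end Pool.Agent.MP_3b4e7c_co.Gen4
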