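import Pool.Agent.MP_3b4e7c_co.Gen4.H3Defs
import Mathlib.Algebra.Order.BigOperators.Group.Finset
import Mathlib.Algebra.Order.Archimedean.Real.Basic

/-! The core of the narrow closing: a matching of largest weight. -/

namespace Pool.Agent.MP_3b4e7c_co.Gen4.H3

open Finset Gen Hub Function

variable {X : Type} [DecidableEq X] {n : ℕ} {P : Finset X} {H G K : Fin n → Finset X} {a e : X}
  {A B g : Fin n} {s t : Fin n → X} {p : X → ℝ} {β : Fin n → ℝ} {c : Fin n → X → ℝ}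

theorem fr (u l m : ℝ) : (Int.fract (l - m) ≤ Int.fract (u - m) ∧
    Int.fract (u - l) = Int.fract (u - m) - Int.fract (l - m)) ∨
    (Int.fract (u - m) < Int.fract (l - m) ∧
      Int.fract (u - l) = Int.fract (u - m) - Int.fract (l - m) + 1) := by
  have a1 := Int.fract_nonneg (l - m)
  have a2 := Int.fract_lt_one (l - m)
  have a3 := Int.fract_nonneg (u - m)
  have a4 := Int.fract_lt_one (u - m)
  have a5 := Int.floor_add_fract (l - m)
  have a6 := Int.floor_add_fract (u - m)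
  refine (le_or_gt _ _).imp (fun h => ⟨h, Int.fract_eq_iff.2 ⟨by linarith, by linarith,
    ⌊u - m⌋ - ⌊l - m⌋, ?_⟩⟩) fun h => ⟨h, Int.fract_eq_iff.2 ⟨by linarith, by linarith,
    ⌊u - m⌋ - ⌊l - m⌋ - 1, ?_⟩⟩ <;> push_cast <;> linarith

theorem Mt.sum {S : Finset (Fin n)} {W : Finset X} (h : Mt G S W t) (ψ : X → ℝ) :
    ∑ y ∈ S, ψ (t y) = ∑ x ∈ W, ψ x := by
  rw [← h.img, sum_image fun y hy z hz => h.inj y hy z hz]

/-- coordinates in which `A` faces the second half turn; `s` is a matching of largest weight -/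
structure Nm (P : Finset X) (H G K : Fin n → Finset X) (a : X) (A : Fin n) (s : Fin n → X)
    (p : X → ℝ) (β : Fin n → ℝ) (c : Fin n → X → ℝ) : Prop where
  base : Base P H
  mem : a ∈ P
  sub : ∀ y, G y ⊆ (H y).erase a
  sur : Sur G (P.erase a)
  aA : a ∈ H A
  bA : β A = 1 / 2
  rp : ∀ x, 0 ≤ p x ∧ p x < 1
  rb : ∀ y, 0 ≤ β y ∧ β y < 1
  out : ∀ y, ∀ x ∈ G y, (β y < p x ∧ p x < β y + 1 / 2 ∧ c y x = p x - β y) ∨
    (p x + 1 / 2 < β y ∧ c y x = p x - β y + 1)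
  into : ∀ y, a ∈ H y → ∀ x ∈ P.erase a,
    (β y < p x ∧ p x < β y + 1 / 2) ∨ p x + 1 / 2 < β y → x ∈ G y
  gen : ∀ y, a ∈ H y → ∀ x ∈ P.erase a, p x ≠ β y ∧ p x ≠ β y + 1 / 2
  hK : ∀ y x, x ∈ K y ↔ x ∈ G y ∧ (a ∈ H y → 1 / 2 < β y → p x < 1 / 2)
  first : Mt G (univ.erase A) (P.erase a) s
  top : ∀ z, a ∈ H z → ∀ r, Mt G (univ.erase z) (P.erase a) r →
    ∑ y ∈ univ.erase z, c y (r y) ≤ ∑ y ∈ univ.erase A, c y (s y)

theorem neQ (hB : Base P H) (aP : a ∈ P) : (P.erase a).Nonempty := card_pos.1 (by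
  have := card_erase_add_one aP
  have := hB.card
  have := hB.two
  omega)

theorem tiQ (hB : Base P H) (aP : a ∈ P) (hs : Sur G (P.erase a)) :
    Nb G (P.erase a) = univ ∧ Ti G (P.erase a) (P.erase a) := by
  have c1 : (P.erase a).card + 1 = n := by rw [card_erase_add_one aP, hB.card]
  have all := hs.all c1 (neQ hB aP)
  exact ⟨all, Subset.rfl, neQ hB aP, by rw [all]; simp [c1]⟩

theorem exists_nm {ang : X → ℝ} {lo : Fin n → ℝ} (hB : Base P H) (h : Nar0 P H G a ang lo) :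
    ∃ K A s p β c, Nm P H G K a A s p β c := by
  classical
  have key : ∀ z r, Mt G (univ.erase z) (P.erase a) r → Mt G (univ.erase z) (P.erase a)
      (update r z a) ∧ (update r z a ∈ Fintype.piFinset fun _ : Fin n => P) ∧
      ∀ y ∈ univ.erase z, update r z a y = r y := fun z r m => by
    have k : ∀ y ∈ univ.erase z, update r z a y = r y := fun y hy =>
      update_of_ne (mem_erase.1 hy).1 ..
    refine ⟨⟨fun y hy => (k y hy).symm ▸ m.mem y hy, fun y hy => (k y hy).symm ▸ m.into y hy,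
      fun y hy w hw q => m.inj y hy w hw (by rwa [k y hy, k w hw] at q), m.card⟩,
      Fintype.mem_piFinset.2 fun y => ?_, k⟩
    by_cases q : y = z
    · rw [q, update_self]; exact h.mem
    · rw [update_of_ne q]; exact mem_of_mem_erase (m.into y (mem_erase.2 ⟨q, mem_univ _⟩))
  obtain ⟨all, ti⟩ := tiQ hB h.mem h.sur
  obtain ⟨b, hb⟩ := neQ hB h.mem
  obtain ⟨u, -, -, ⟨au, -⟩, -⟩ := hB.dh.pair h.mem (mem_of_mem_erase hb) (mem_erase.1 hb).1.symm
  obtain ⟨r0, hr0⟩ := ti.root h.sur (u := u) (by rw [all]; exact mem_univ _)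
  rw [all] at hr0
  obtain ⟨⟨A, s⟩, h1, h2⟩ := exists_max_image
    ((univ ×ˢ Fintype.piFinset fun _ : Fin n => P).filter fun q : Fin n × (Fin n → X) =>
      a ∈ H q.1 ∧ Mt G (univ.erase q.1) (P.erase a) q.2)
    (fun q => ∑ y ∈ univ.erase q.1, Int.fract (ang (q.2 y) - lo y))
    ⟨(u, update r0 u a), mem_filter.2 ⟨mem_product.2 ⟨mem_univ _, (key u r0 hr0).2.1⟩, au,
      (key u r0 hr0).1⟩⟩
  obtain ⟨aA, hs⟩ := (mem_filter.1 h1).2
  have arc : ∀ y, ∀ x ∈ G y, Arc (lo y) (1 / 2) (ang x) := fun y x hx => by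
    by_cases k : a ∈ H y
    · exact (h.arc y k x (erase_subset_erase _ (hB.sub y) (h.sub y hx))).1 hx
    · exact h.out y k x hx
  refine ⟨fun y => (G y).filter fun x => a ∈ H y → 1 / 2 < Int.fract (lo y - (lo A + 1 / 2)) →
      Int.fract (ang x - (lo A + 1 / 2)) < 1 / 2, A, s,
    fun x => Int.fract (ang x - (lo A + 1 / 2)), fun y => Int.fract (lo y - (lo A + 1 / 2)),
    fun y x => Int.fract (ang x - lo y), hB, h.mem, h.sub, h.sur, aA,
    Int.fract_eq_iff.2 ⟨by norm_num, by norm_num, -1, by push_cast; ring⟩,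
    fun x => ⟨Int.fract_nonneg _, Int.fract_lt_one _⟩,
    fun y => ⟨Int.fract_nonneg _, Int.fract_lt_one _⟩, fun y x hx => ?_, fun y ay x hx k => ?_,
    fun y ay x hx => ?_, fun y x => mem_filter, hs, fun z az r m => ?_⟩
  · obtain ⟨k1, k2⟩ := arc y x hx
    exact (fr (ang x) (lo y) (lo A + 1 / 2)).imp (fun q => ⟨by linarith [q.2], by linarith [q.2],
      q.2⟩) fun q => ⟨by linarith [q.2], q.2⟩
  · refine (h.arc y ay x hx).2 ?_
    have a1 := Int.fract_lt_one (lo y - (lo A + 1 / 2))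
    have a2 := Int.fract_nonneg (ang x - (lo A + 1 / 2))
    rcases fr (ang x) (lo y) (lo A + 1 / 2) with q | q <;> rcases k with k | k <;>
      constructor <;> linarith [q.1, q.2, k]
  · have a5 := Int.floor_add_fract (lo y - (lo A + 1 / 2))
    have a6 := Int.floor_add_fract (ang x - (lo A + 1 / 2))
    exact ⟨fun k => h.gen y ay x hx (2 * (⌊ang x - (lo A + 1 / 2)⌋ - ⌊lo y - (lo A + 1 / 2)⌋))
        (by push_cast; linarith),
      fun k => h.gen y ay x hx (2 * (⌊ang x - (lo A + 1 / 2)⌋ - ⌊lo y - (lo A + 1 / 2)⌋) + 1)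
        (by push_cast; linarith)⟩
  · obtain ⟨k1, k2, k3⟩ := key z r m
    have := h2 (z, update r z a) (mem_filter.2 ⟨mem_product.2 ⟨mem_univ _, k2⟩, az, k1⟩)
    exact le_trans (le_of_eq (sum_congr rfl fun y hy => by dsimp only; rw [k3 y hy])) this

theorem Nm.inQ (h : Nm P H G K a A s p β c) {y : Fin n} {x : X} (k : x ∈ G y) : x ∈ P.erase a :=
  erase_subset_erase _ (h.base.sub y) (h.sub y k)

theorem Nm.real (h : Nm P H G K a A s p β c) {y : Fin n} {x : X} (k : x ∈ G y) : x ∈ H y :=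
  mem_of_mem_erase (h.sub y k)

theorem Nm.kg (h : Nm P H G K a A s p β c) {y : Fin n} {x : X} (k : x ∈ K y) : x ∈ G y :=
  ((h.hK y x).1 k).1

theorem Nm.long (h : Nm P H G K a A s p β c) {y : Fin n} (k : β y ≤ 1 / 2) : K y = G y :=
  Finset.ext fun x => (h.hK y x).trans ⟨fun q => q.1, fun q => ⟨q, fun _ w => absurd k (not_le.2 w)⟩⟩

theorem Nm.side (h : Nm P H G K a A s p β c) {x : X} (k : x ∈ P.erase a) :
    p x < 1 / 2 ∨ (1 / 2 < p x ∧ x ∈ G A) := by
  have a1 := (h.gen A h.aA x k).1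
  rw [h.bA] at a1
  exact (lt_or_gt_of_ne a1).imp_right fun q => ⟨q, h.into A h.aA x k (Or.inl
    ⟨h.bA ▸ q, by rw [h.bA]; linarith [(h.rp x).2]⟩)⟩

/-- the first matching uses no left point of a short label -/
theorem Nm.sK (h : Nm P H G K a A s p β c) : Mt K (univ.erase A) (P.erase a) s := by
  refine h.first.mono fun z hz => (h.hK z _).2 ⟨h.first.mem z hz, fun az sh => ?_⟩
  refine (h.side (h.first.into z hz)).resolve_right fun ⟨k1, k2⟩ => ?_
  have zA := (mem_erase.1 hz).1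
  have nA : A ∉ (univ.erase A).erase z := fun q => notMem_erase A _ (mem_of_mem_erase q)
  have m := (h.first.del hz).add nA (notMem_erase _ _) k2
  have e1 : insert A ((univ.erase A).erase z) = univ.erase z := by
    rw [erase_right_comm, insert_erase (mem_erase.2 ⟨zA.symm, mem_univ _⟩)]
  rw [insert_erase (h.first.into z hz)] at m
  have t1 := h.top z az _ (e1 ▸ m)
  rw [← e1, sum_insert nA, update_self, ← add_sum_erase _ _ hz,
    sum_congr rfl fun y hy => by rw [update_of_ne fun q : y = A => nA (q ▸ hy)]] at t1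
  have b1 := h.bA
  have b2 := h.rb z
  rcases h.out A _ k2 with q | q <;> rcases h.out z _ (h.first.mem z hz) with w | w <;>
    linarith [q.1, q.2, w.1, w.2]

theorem Nm.surK (h : Nm P H G K a A s p β c) : Sur K (P.erase a) := fun Z z1 z2 => by
  by_cases k : ∃ x ∈ Z, 1 / 2 < p x
  · obtain ⟨x, x1, x2⟩ := k
    have aZ : A ∈ Nb K Z := nb_of x1 (h.long h.bA.le ▸
      ((h.side (z1 x1)).resolve_left (not_lt.2 x2.le)).2)
    have m := h.sK.own z1
    rw [← m.card, ← card_insert_of_notMem (a := A) fun q =>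
      notMem_erase A _ (mem_filter.1 q).1]
    exact card_le_card (insert_subset aZ fun y hy => nb_of (m.into y hy) (m.mem y hy))
  · refine (h.sur Z z1 z2).trans (card_le_card fun y hy => ?_)
    obtain ⟨x, x1, x2⟩ := mNb.1 hy
    exact nb_of x1 ((h.hK y x).2 ⟨x2, fun _ _ => (h.side (z1 x1)).resolve_right
      fun q => k ⟨x, x1, q.1⟩⟩)

/-- a tight set that meets `A` and a short label meets every long label -/
theorem Nm.meets (h : Nm P H G K a A s p β c) (aB : a ∈ H B) (sh : 1 / 2 < β B) {Z : Finset X}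
    (ti : Ti K (P.erase a) Z) (z1 : A ∈ Nb K Z) (z2 : B ∈ Nb K Z) {w : Fin n} (aw : a ∈ H w)
    (lw : β w ≤ 1 / 2) : w ∈ Nb K Z := by
  by_contra no
  have c1 := card_erase_add_one z1
  have c2 := ti.card
  have own := h.sK.cnt ti.sub (I := (Nb K Z).erase A) (fun y hy k =>
    mem_erase.2 ⟨(mem_erase.1 hy).1, nb_of k (h.sK.mem y hy)⟩) (by omega)
  have m1 : Mt K ((Nb K Z).erase A) Z s := ⟨fun y hy => h.sK.mem y (own y hy).1,
    fun y hy => (own y hy).2, fun y hy z hz => h.sK.inj y (own y hy).1 z (own z hz).1, by omega⟩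
  obtain ⟨r, m2⟩ := ti.root h.surK z2
  have m3 := h.sK.own (Z := P.erase a \ Z) sdiff_subset
  obtain ⟨S, hS⟩ : ∃ S, S = (univ.erase A).filter fun y => s y ∈ P.erase a \ Z := ⟨_, rfl⟩
  rw [← hS] at m3
  have mS : ∀ y, y ∈ S ↔ y ∉ Nb K Z := fun y => by
    rw [hS, mem_filter, mem_sdiff]
    refine ⟨fun q k => q.2.2 (own y (mem_erase.2 ⟨(mem_erase.1 q.1).1, k⟩)).2, fun q => ?_⟩
    have k : y ∈ univ.erase A := mem_erase.2 ⟨fun k => q (k ▸ z1), mem_univ _⟩
    exact ⟨k, h.sK.into y k, fun w => q (nb_of w (h.sK.mem y k))⟩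
  have d : ∀ u, Disjoint S ((Nb K Z).erase u) := fun u =>
    disjoint_left.2 fun y hy k => (mS y).1 hy (mem_of_mem_erase k)
  have un : ∀ u ∈ Nb K Z, univ.erase u = S ∪ (Nb K Z).erase u := fun u hu => by
    ext y
    rw [mem_union, mS, mem_erase, mem_erase]
    refine ⟨fun q => (em (y ∈ Nb K Z)).symm.imp_right fun k => ⟨q.1, k⟩, fun q => ⟨?_, mem_univ _⟩⟩
    exact q.elim (fun q k => q (k ▸ hu)) fun q => q.1
  obtain ⟨r', m4, e1, e2⟩ := m3.glue m2 (d B) sdiff_disjoint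
  rw [sdiff_union_of_subset ti.sub, ← un B z2] at m4
  have t1 := h.top B aB r' (m4.mono fun y hy => h.kg (m4.mem y hy))
  rw [un B z2, un A z1, sum_union (d B), sum_union (d A),
    sum_congr rfl fun y hy => by rw [e1 y hy],
    sum_congr (s₁ := (Nb K Z).erase B) rfl fun y hy => by rw [e2 y hy]] at t1
  obtain ⟨ψ, hψ⟩ : ∃ ψ : X → ℝ, ∀ x, (β w < p x ∧ ψ x = p x - β w - 1 / 2) ∨
      (p x ≤ β w ∧ ψ x = p x - β w + 1 / 2) :=
    ⟨fun x => if β w < p x then p x - β w - 1 / 2 else p x - β w + 1 / 2, fun x =>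
      (lt_or_ge (β w) (p x)).imp (fun q => ⟨q, if_pos q⟩) fun q => ⟨q, if_neg (not_lt.2 q)⟩⟩
  obtain ⟨γ, hγ⟩ : ∃ γ : Fin n → ℝ, ∀ y, (β w ≤ β y ∧ γ y = β y - β w - 1 / 2) ∨
      (β y < β w ∧ γ y = β y - β w + 1 / 2) :=
    ⟨fun y => if β w ≤ β y then β y - β w - 1 / 2 else β y - β w + 1 / 2, fun y =>
      (le_or_gt (β w) (β y)).imp (fun q => ⟨q, if_pos q⟩) fun q => ⟨q, if_neg (not_le.2 q)⟩⟩
  have cc : ∀ y, ∀ x ∈ Z, x ∈ K y → c y x = ψ x - γ y := fun y x x1 x2 => by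
    obtain ⟨g1, g2⟩ := h.gen w aw x (ti.sub x1)
    have g3 : p x < β w ∨ β w + 1 / 2 < p x := by
      by_contra q
      rw [not_or, not_lt, not_lt] at q
      exact no (nb_of x1 (h.long lw ▸ h.into w aw x (ti.sub x1)
        (Or.inl ⟨lt_of_le_of_ne q.1 g1.symm, lt_of_le_of_ne q.2 g2⟩)))
    have b1 := h.rb y
    have b2 := h.rp x
    have b3 := (h.rb w).1
    rcases h.out y x (h.kg x2) with q | q <;> rcases g3 with g3 | g3 <;>
      rcases hψ x with u | u <;> rcases hγ y with v | v <;>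
      linarith [q.1, q.2, u.1, u.2, v.1, v.2, b1.1, b1.2, b2.1, b2.2]
  rw [sum_congr (s₁ := (Nb K Z).erase B) rfl fun y hy => cc y _ (m2.into y hy) (m2.mem y hy),
    sum_congr (s₁ := (Nb K Z).erase A) rfl fun y hy => cc y _ (m1.into y hy) (m1.mem y hy),
    sum_sub_distrib, sum_sub_distrib, Mt.sum m1, Mt.sum m2] at t1
  have s1 := sum_erase_add _ γ z1
  have s2 := sum_erase_add _ γ z2
  have b1 := h.bA
  rcases hγ A with u | u <;> rcases hγ B with v | v <;> linarith [u.1, u.2, v.1, v.2]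

theorem Nm.adj (h : Nm P H G K a A s p β c) {u v : Fin n} {x y : X} (au : a ∈ H u) (av : a ∈ H v)
    (hx : x ∈ K u) (hy : y ∈ K v) (le : p x ≤ p y) (k : (1 / 2 < p x ∧ 1 / 2 < p y) ∨
      (p x < 1 / 2 ∧ p y < 1 / 2 ∧ (β u ≤ 1 / 2 ↔ β v ≤ 1 / 2))) : x ∈ H v ∨ y ∈ H u := by
  obtain ⟨x1, x2⟩ := (h.hK u x).1 hx
  obtain ⟨y1, y2⟩ := (h.hK v y).1 hy
  have b1 := h.rp x
  have b2 := h.rp y
  have b3 := h.rb u
  refine Or.imp h.real h.real ?_
  rcases k with ⟨k1, k2⟩ | ⟨k1, k2, k3⟩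
  · have : β v ≤ 1 / 2 := not_lt.1 fun q => by linarith [y2 av q]
    refine Or.inl (h.into v av x (h.inQ x1) (Or.inl ?_))
    rcases h.out v y y1 with q | q <;> constructor <;> linarith [q.1, q.2]
  by_cases l : β u ≤ 1 / 2
  · refine Or.inr (h.into u au y (h.inQ y1) (Or.inl ?_))
    rcases h.out u x x1 with q | q <;> constructor <;> linarith [q.1, q.2]
  · have := not_le.1 fun q => l (k3.2 q)
    refine Or.inl (h.into v av x (h.inQ x1) (Or.inr ?_))
    rcases h.out v y y1 with q | q <;> linarith [q.1, q.2]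

/-- a right point of a long label lies in every long label that starts earlier -/
theorem Nm.right (h : Nm P H G K a A s p β c) {w : Fin n} {x y : X} (ag : a ∈ H g) (hx : x ∈ G w)
    (lw : β w ≤ 1 / 2) (le : β g ≤ β w) (hy : y ∈ P.erase a) (xy : p x ≤ p y)
    (ry : p y < β g + 1 / 2) : y ∈ G g := by
  have b1 := h.rp x
  refine h.into g ag y hy (Or.inl ⟨?_, ry⟩)
  rcases h.out w x hx with q | q <;> linarith [q.1, q.2]

theorem Nm.clo (h : Nm P H G K a A s p β c) (AB : A ≠ B) (aB : a ∈ H B) (ag : a ∈ H g)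
    (hB : ∀ z, a ∈ H z → 1 / 2 < β z → β z ≤ β B)
    (hg : ∀ w, a ∈ H w → w ≠ A → β w ≤ 1 / 2 → β g ≤ β w) (eg : e ∈ G g)
    (m : Hull.Mt K a A B e t) (hR : g = B ∨ ∀ w, a ∈ H w → w ≠ A → w ≠ B → w ≠ g → β w ≤ 1 / 2 →
      p (t w) < 1 / 2 → e ∈ G w) : Clo H (Thru H a) A B g e t := by
  classical
  have sd : ∀ z, z ≠ A → z ≠ B → ¬ 1 / 2 < p (t z) → p (t z) < 1 / 2 := fun z z1 z2 k =>
    (h.side (h.inQ (h.kg (m.tm z z1 z2)))).resolve_right fun q => k q.1
  have lg : ∀ z, a ∈ H z → z ≠ A → z ≠ B → β z ≤ 1 / 2 → p (t z) < 1 / 2 → t z ∈ H g :=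
    fun z az z1 z2 l r => h.real (h.right ag (h.kg (m.tm z z1 z2)) l (hg z az z1 l)
      (h.inQ (h.kg (m.tm z z1 z2))) le_rfl (by linarith [(h.rb g).1]))
  refine clo_of_cls (Hull.mem_thru.2 h.aA) (Hull.mem_thru.2 aB) (Hull.mem_thru.2 ag) (h.real eg)
    (fun y => ?_) (fun z => if 1 / 2 < p (t z) then some A else
      if β z ≤ 1 / 2 ∧ g ≠ B then none else some B) (fun z z0 z1 z2 z3 => ?_)
    fun u u0 u1 u2 u3 v v0 v1 v2 v3 k _ => ?_
  · by_cases k : y = A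
    · rw [k, m.tA]; exact h.aA
    by_cases k' : y = B
    · rw [k', m.tB]; exact aB
    · exact h.real (h.kg (m.tm y k k'))
  · have az := Hull.mem_thru.1 z0
    have zG := h.kg (m.tm z z1 z2)
    split_ifs with q1 q2
    · exact ⟨by simp, h.real ((h.side (h.inQ zG)).resolve_left (not_lt.2 q1.le)).2,
        show t A ∈ H z from m.tA.symm ▸ az⟩
    · exact ⟨by simp, lg z az z1 z2 q2.1 (sd z z1 z2 q1),
        h.real (hR.resolve_left q2.2 z az z1 z2 z3 q2.1 (sd z z1 z2 q1))⟩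
    · refine ⟨by simp, show t z ∈ H B from ?_, show t B ∈ H z from m.tB.symm ▸ az⟩
      have r := sd z z1 z2 q1
      by_cases l : β z ≤ 1 / 2
      · exact (not_not.1 fun q => q2 ⟨l, q⟩ : g = B) ▸ lg z az z1 z2 l r
      · have := hB z az (not_le.1 l)
        refine h.real (h.into B aB _ (h.inQ zG) (Or.inr ?_))
        rcases h.out z _ zG with q | q <;> linarith [q.1, q.2, not_le.1 l]
  · have au := Hull.mem_thru.1 u0
    have av := Hull.mem_thru.1 v0
    have key : (1 / 2 < p (t u) ∧ 1 / 2 < p (t v)) ∨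
        (p (t u) < 1 / 2 ∧ p (t v) < 1 / 2 ∧ (β u ≤ 1 / 2 ↔ β v ≤ 1 / 2)) := by
      have same : g = B → ∀ y z, a ∈ H y → a ∈ H z → y ≠ A → β y ≤ 1 / 2 → β z ≤ 1 / 2 :=
        fun q y z ay az y1 l => not_lt.1 fun w => by
          have := hB z az w
          have := hg y ay y1 l
          rw [q] at this
          linarith
      by_cases q1 : 1 / 2 < p (t u) <;> by_cases q2 : 1 / 2 < p (t v)
      · exact Or.inl ⟨q1, q2⟩
      · rw [if_pos q1, if_neg q2] at k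
        split_ifs at k
        exact absurd (Option.some.inj k) AB
      · rw [if_neg q1, if_pos q2] at k
        split_ifs at k
        exact absurd (Option.some.inj k).symm AB
      refine Or.inr ⟨sd u u1 u2 q1, sd v v1 v2 q2, ?_⟩
      by_cases q : g = B
      · exact ⟨same q u v au av u1, same q v u av au v1⟩
      rw [if_neg q1, if_neg q2] at k
      by_cases l1 : β u ≤ 1 / 2 <;> by_cases l2 : β v ≤ 1 / 2
      · exact iff_of_true l1 l2
      · rw [if_pos ⟨l1, q⟩, if_neg fun w => l2 w.1] at k; cases k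
      · rw [if_neg fun w => l1 w.1, if_pos ⟨l2, q⟩] at k; cases k
      · exact iff_of_false l1 l2
    rcases le_total (p (t u)) (p (t v)) with le | le
    · exact h.adj au av (m.tm u u1 u2) (m.tm v v1 v2) le key
    · exact (h.adj av au (m.tm v v1 v2) (m.tm u u1 u2) le (key.imp And.symm fun q =>
        ⟨q.2.1, q.1, q.2.2.symm⟩)).symm

theorem toHull (eQ : e ∈ P.erase a)
    (m : Mt K ((univ.erase A).erase B) ((P.erase a).erase e) t) : ∃ u, Hull.Mt K a A B e u := by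
  obtain ⟨r, r1, r2, r3⟩ : ∃ r : Fin n → X, r A = a ∧ r B = a ∧ ∀ y, y ≠ A → y ≠ B → r y = t y :=
    ⟨fun y => if y = A ∨ y = B then a else t y, by simp, by simp, fun y k1 k2 => by simp [k1, k2]⟩
  have o : ∀ y, y ≠ A → y ≠ B → y ∈ (univ.erase A).erase B := fun y k1 k2 => by simp [k1, k2]
  have na : ∀ y, y ≠ A → y ≠ B → t y ≠ a := fun y k1 k2 =>
    (mem_erase.1 (mem_erase.1 (m.into y (o y k1 k2))).2).1
  refine ⟨r, r1, r2, fun y k1 k2 => (r3 y k1 k2).symm ▸ m.mem y (o y k1 k2), fun y => ?_,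
    fun y z y1 z1 q => ?_⟩
  · by_cases k1 : y = A
    · rw [k1, r1]; exact (mem_erase.1 eQ).1.symm
    by_cases k2 : y = B
    · rw [k2, r2]; exact (mem_erase.1 eQ).1.symm
    · rw [r3 y k1 k2]; exact (mem_erase.1 (m.into y (o y k1 k2))).1
  · by_cases k1 : y = A <;> by_cases k2 : z = A
    · rw [k1, k2]
    · rw [k1, r1, r3 z k2 z1] at q; exact absurd q.symm (na z k2 z1)
    · rw [k2, r1, r3 y k1 y1] at q; exact absurd q (na y k1 y1)
    · rw [r3 y k1 y1, r3 z k2 z1] at q; exact m.inj y (o y k1 y1) z (o z k2 z1) q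

theorem Nm.ofHull (h : Nm P H G K a A s p β c) (AB : A ≠ B) (eQ : e ∈ P.erase a)
    (m : Hull.Mt K a A B e t) : Mt K ((univ.erase A).erase B) ((P.erase a).erase e) t := by
  have o : ∀ y ∈ (univ.erase A).erase B, y ≠ A ∧ y ≠ B := fun y hy =>
    ⟨(mem_erase.1 (mem_erase.1 hy).2).1, (mem_erase.1 hy).1⟩
  refine ⟨fun y hy => m.tm y (o y hy).1 (o y hy).2, fun y hy => mem_erase.2 ⟨m.te y,
    h.inQ (h.kg (m.tm y (o y hy).1 (o y hy).2))⟩,
    fun y hy z hz => m.ti y z (o y hy).2 (o z hz).2, ?_⟩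
  rw [card_erase_of_mem eQ, card_erase_of_mem (mem_erase.2 ⟨AB.symm, mem_univ _⟩), h.first.card]

theorem Nm.core (h : Nm P H G K a A s p β c) (AB : A ≠ B) (aB : a ∈ H B) (ag : a ∈ H g)
    (hB : ∀ z, a ∈ H z → 1 / 2 < β z → β z ≤ β B)
    (hg : ∀ w, a ∈ H w → w ≠ A → β w ≤ 1 / 2 → β g ≤ β w) (eg : e ∈ G g)
    (ex : ∃ t, Mt K ((univ.erase A).erase B) ((P.erase a).erase e) t)
    (hR : ∀ t, Hull.Mt K a A B e t → g = B ∨ ∀ w, a ∈ H w → w ≠ A → w ≠ B → w ≠ g →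
      β w ≤ 1 / 2 → p (t w) < 1 / 2 → e ∈ G w) : Core P H G K a A B g e s := by
  classical
  refine ⟨AB, h.aA, aB, ag, eg, fun y x => h.kg, fun y hy => Finset.ext fun x => (h.hK y x).trans
    ⟨fun q => q.1, fun q => ⟨q, fun k => absurd k hy⟩⟩, h.first, fun z x az x1 x2 => ?_,
    ex.elim fun t m => toHull (h.inQ eg) m,
    fun t m => h.clo AB aB ag hB hg eg m (hR t m), fun t m => ?_⟩
  · have sh : 1 / 2 < β z := not_le.1 fun q => x2 (h.long q ▸ x1)
    have zA : z ≠ A := fun q => by rw [q, h.bA] at sh; exact lt_irrefl _ sh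
    have z1 := (h.hK z _).1 (h.sK.mem z (mem_erase.2 ⟨zA, mem_univ _⟩))
    have z2 := z1.2 az sh
    have z3 := hB z az sh
    refine ⟨zA, ((h.side (h.inQ x1)).resolve_left fun q => x2 ((h.hK z x).2 ⟨x1, fun _ _ => q⟩)).2,
      h.into B aB _ (h.inQ z1.1) (Or.inr ?_)⟩
    rcases h.out z _ z1.1 with q | q <;> linarith [q.1, q.2]
  rcases (univ.filter fun w => a ∈ H w ∧ w ≠ A ∧ w ≠ B ∧ w ≠ g ∧ β w ≤ 1 / 2 ∧
    p (t w) < 1 / 2).eq_empty_or_nonempty with k | k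
  · refine Or.inl fun x hx u mu e1 => h.clo AB aB ag hB hg hx mu (Or.inr fun w aw w1 w2 w3 l r => ?_)
    exact absurd ⟨aw, w1, w2, w3, l, e1 w aw ▸ r⟩ (filter_eq_empty_iff.1 k (mem_univ w))
  · obtain ⟨y, y0, top⟩ := exists_max_image _ (fun w => p (t w)) k
    obtain ⟨ay, y1, y2, y3, l, r⟩ := (mem_filter.1 y0).2
    have yG := h.kg (m.tm y y1 y2)
    have gy : t y ∈ G g := h.right ag yG l (hg y ay y1 l) (h.inQ yG) le_rfl
      (by linarith [(h.rb g).1])
    refine Or.inr ⟨y, ay, y1, y2, h.long l, gy, fun u mu e1 => h.clo AB aB ag hB hg gy mu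
      (Or.inr fun w aw w1 w2 w3 lw rw' => ?_)⟩
    by_cases q : w = y
    · rwa [q]
    · rw [e1 w aw q] at rw'
      exact h.right aw (h.kg (m.tm w w1 w2)) lw le_rfl (h.inQ yG)
        (top w (mem_filter.2 ⟨mem_univ _, aw, w1, w2, w3, lw, rw'⟩)) (by linarith [(h.rb w).1])

theorem core : CoreS := by
  intro X _ n P H G a ang lo hB hN
  classical
  obtain ⟨K, A, s, p, β, c, h⟩ := exists_nm hB hN
  obtain ⟨b, hb⟩ := neQ hB h.mem
  have ne : (univ.filter fun y => a ∈ H y ∧ y ≠ A).Nonempty := by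
    obtain ⟨u, v, uv, ⟨au, -⟩, av, -⟩ :=
      hB.dh.pair h.mem (mem_of_mem_erase hb) (mem_erase.1 hb).1.symm
    by_cases k : u = A
    exacts [⟨v, mem_filter.2 ⟨mem_univ _, av, fun q => uv (k.trans q.symm)⟩⟩,
      ⟨u, mem_filter.2 ⟨mem_univ _, au, k⟩⟩]
  obtain ⟨B, B0, hi⟩ := exists_max_image _ β ne
  obtain ⟨g, g0, low⟩ := exists_min_image _ β ne
  obtain ⟨aB, BA⟩ := (mem_filter.1 B0).2
  obtain ⟨ag, gA⟩ := (mem_filter.1 g0).2
  have b1 : ∀ z, a ∈ H z → 1 / 2 < β z → β z ≤ β B := fun z az sh =>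
    hi z (mem_filter.2 ⟨mem_univ _, az, fun q => by rw [q, h.bA] at sh; exact lt_irrefl _ sh⟩)
  have g1 : ∀ w, a ∈ H w → w ≠ A → β g ≤ β w := fun w aw k =>
    low w (mem_filter.2 ⟨mem_univ _, aw, k⟩)
  have easy : ∀ z, a ∈ H z → z ≠ A → (∀ y, a ∈ H y → 1 / 2 < β y → β y ≤ β z) →
      (∀ w, a ∈ H w → w ≠ A → β w ≤ 1 / 2 → β z ≤ β w) → Core P H G K a A z z (s z) s :=
    fun z az zA k1 k2 => h.core zA.symm az az k1 k2
      (h.first.mem z (mem_erase.2 ⟨zA, mem_univ _⟩))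
      ⟨s, h.sK.del (mem_erase.2 ⟨zA, mem_univ _⟩)⟩ fun _ _ => Or.inl rfl
  by_cases sh : 1 / 2 < β B
  swap
  · exact ⟨K, A, g, g, _, s, easy g ag gA (fun y ay k => absurd (k.trans_le (b1 y ay k)) sh)
      fun w aw k _ => g1 w aw k⟩
  by_cases lg : β g ≤ 1 / 2
  swap
  · exact ⟨K, A, B, B, _, s, easy B aB BA b1 fun w aw k l => absurd ((g1 w aw k).trans l) lg⟩
  obtain ⟨all, ti⟩ := tiQ hB h.mem h.surK
  obtain ⟨M, hM⟩ := least h.surK (by rw [card_erase_add_one h.mem, hB.card]) (neQ hB h.mem) BA.symm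
  obtain ⟨x, x1, x2⟩ := mNb.1 (h.meets aB sh hM.ti hM.l hM.r ag lg)
  have x3 : p x < β g + 1 / 2 := by
    have := h.rp x
    rcases h.out g x (h.kg x2) with q | q <;> linarith [q.1, q.2]
  obtain ⟨e, e0, top⟩ := exists_max_image (M.filter fun x => p x < β g + 1 / 2) p
    ⟨x, mem_filter.2 ⟨x1, x3⟩⟩
  obtain ⟨e1, e2⟩ := mem_filter.1 e0
  have eQ := hM.ti.sub e1
  have ex := hM.pair h.surK BA.symm ti (by simp [all]) (by simp [all]) e1
  rw [all] at ex
  refine ⟨K, A, B, g, e, s, h.core BA.symm aB ag b1 (fun w aw k _ => g1 w aw k)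
    (h.right ag (h.kg x2) lg le_rfl eQ (top x (mem_filter.2 ⟨x1, x3⟩)) e2) ex
    fun t m => Or.inr fun w aw w1 w2 _ l r => ?_⟩
  have m1 := h.ofHull BA.symm eQ m
  have c1 := card_erase_add_one hM.l
  have c2 := card_erase_add_one (mem_erase.2 ⟨BA, hM.r⟩)
  have c3 := card_erase_add_one e1
  have c4 := hM.ti.card
  have own := (m1.cnt (erase_subset_erase e hM.ti.sub) (I := ((Nb K M).erase A).erase B)
    (fun y hy k => mem_erase.2 ⟨(mem_erase.1 hy).1, mem_erase.2 ⟨(mem_erase.1 (mem_erase.1 hy).2).1,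
      nb_of (mem_of_mem_erase k) (m1.mem y hy)⟩⟩) (by omega) w (mem_erase.2 ⟨w2, mem_erase.2
      ⟨w1, h.meets aB sh hM.ti hM.l hM.r aw l⟩⟩)).2
  exact h.right aw (h.kg (m.tm w w1 w2)) l le_rfl eQ (top _ (mem_filter.2
    ⟨mem_of_mem_erase own, by linarith [(h.rb g).1]⟩)) (by linarith [g1 w aw w1])

end Pool.Agent.MP_3b4e7c_co.Gen4.H3
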