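import Pool.Agent.MP_3b4e7c_co.Gen4.Defs

/-! Tight sets and matchings in a graph with surplus one. -/

namespace Pool.Agent.MP_3b4e7c_co.Gen4

open Finset Function

variable {X : Type} [DecidableEq X] {n : ℕ} {Γ : Fin n → Finset X} {Q Z W M : Finset X}
  {S I : Finset (Fin n)} {t : Fin n → X} {u v : Fin n}

theorem mNb {y : Fin n} : y ∈ Nb Γ Z ↔ ∃ x ∈ Z, x ∈ Γ y := by simp [Nb]

theorem nb_of {y : Fin n} {x : X} (h : x ∈ Z) (k : x ∈ Γ y) : y ∈ Nb Γ Z := mNb.2 ⟨x, h, k⟩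

theorem Nb_union : Nb Γ (Z ∪ W) = Nb Γ Z ∪ Nb Γ W := by
  ext y
  simp only [mNb, mem_union]
  exact ⟨fun ⟨x, h, k⟩ => h.imp (fun h => ⟨x, h, k⟩) fun h => ⟨x, h, k⟩,
    fun h => h.elim (fun ⟨x, h, k⟩ => ⟨x, Or.inl h, k⟩) fun ⟨x, h, k⟩ => ⟨x, Or.inr h, k⟩⟩

theorem Nb_mono (h : Z ⊆ W) : Nb Γ Z ⊆ Nb Γ W := fun _ hy =>
  (mNb.1 hy).elim fun _ k => nb_of (h k.1) k.2

/-- a tight set -/
structure Ti (Γ : Fin n → Finset X) (Q Z : Finset X) : Prop where
  sub : Z ⊆ Q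
  ne : Z.Nonempty
  card : (Nb Γ Z).card = Z.card + 1

theorem Ti.inter (hs : Sur Γ Q) (h : Ti Γ Q Z) (k : Ti Γ Q W) (ne : (Z ∩ W).Nonempty) :
    Ti Γ Q (Z ∩ W) ∧ Ti Γ Q (Z ∪ W) ∧ ∀ y ∈ Nb Γ Z, y ∈ Nb Γ W → y ∈ Nb Γ (Z ∩ W) := by
  have s1 : Nb Γ (Z ∩ W) ⊆ Nb Γ Z ∩ Nb Γ W :=
    subset_inter (Nb_mono inter_subset_left) (Nb_mono inter_subset_right)
  have c1 := card_le_card s1
  have c2 := card_union_add_card_inter (Nb Γ Z) (Nb Γ W)
  have c3 := card_union_add_card_inter Z W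
  have c4 := hs _ (inter_subset_left.trans h.sub) ne
  have c5 := hs _ (union_subset h.sub k.sub) (h.ne.mono subset_union_left)
  have c6 := h.card
  have c7 := k.card
  rw [← Nb_union] at c2
  refine ⟨⟨inter_subset_left.trans h.sub, ne, by omega⟩,
    ⟨union_subset h.sub k.sub, h.ne.mono subset_union_left, by omega⟩, fun y y1 y2 => ?_⟩
  rw [eq_of_subset_of_card_le s1 (by omega)]
  exact mem_inter.2 ⟨y1, y2⟩

theorem Ti.disj (hs : Sur Γ Q) (h : Ti Γ Q Z) (k : Ti Γ Q W) (d : Disjoint Z W)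
    (u1 : u ∈ Nb Γ Z) (u2 : u ∈ Nb Γ W) :
    Ti Γ Q (Z ∪ W) ∧ ∀ v ∈ Nb Γ Z, v ∈ Nb Γ W → v = u := by
  have c2 := card_union_add_card_inter (Nb Γ Z) (Nb Γ W)
  have c3 := card_union_of_disjoint d
  have c5 := hs _ (union_subset h.sub k.sub) (h.ne.mono subset_union_left)
  have c6 := h.card
  have c7 := k.card
  have c8 : 0 < (Nb Γ Z ∩ Nb Γ W).card := card_pos.2 ⟨u, mem_inter.2 ⟨u1, u2⟩⟩
  rw [← Nb_union] at c2
  exact ⟨⟨union_subset h.sub k.sub, h.ne.mono subset_union_left, by omega⟩, fun v v1 v2 =>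
    card_le_one.1 (by omega : (Nb Γ Z ∩ Nb Γ W).card ≤ 1) _ (mem_inter.2 ⟨v1, v2⟩) _
      (mem_inter.2 ⟨u1, u2⟩)⟩

theorem Ti.union (hs : Sur Γ Q) (h : Ti Γ Q Z) (k : Ti Γ Q W) (u1 : u ∈ Nb Γ Z)
    (u2 : u ∈ Nb Γ W) : Ti Γ Q (Z ∪ W) := by
  by_cases d : Disjoint Z W
  · exact (h.disj hs k d u1 u2).1
  · exact (h.inter hs k (not_disjoint_iff_nonempty_inter.1 d)).2.1

theorem Ti.meet (hs : Sur Γ Q) (h : Ti Γ Q Z) (k : Ti Γ Q W) (uv : u ≠ v) (u1 : u ∈ Nb Γ Z)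
    (u2 : u ∈ Nb Γ W) (v1 : v ∈ Nb Γ Z) (v2 : v ∈ Nb Γ W) : (Z ∩ W).Nonempty := by
  by_contra d
  exact uv ((h.disj hs k (disjoint_iff_inter_eq_empty.2 (not_nonempty_iff_eq_empty.1 d)) v1
    v2).2 u u1 u2)

/-- two tight sets that share `u` and no point of `u` are disjoint and share only `u` -/
theorem Ti.sep (hs : Sur Γ Q) (h : Ti Γ Q Z) (k : Ti Γ Q W) (u1 : u ∈ Nb Γ Z) (u2 : u ∈ Nb Γ W)
    (no : ∀ x ∈ Z, x ∈ W → x ∉ Γ u) : Disjoint Z W ∧ ∀ v ∈ Nb Γ Z, v ∈ Nb Γ W → v = u := by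
  have d : Disjoint Z W := by
    by_contra d
    obtain ⟨x, x1, x2⟩ := mNb.1 ((h.inter hs k (not_disjoint_iff_nonempty_inter.1 d)).2.2 u u1 u2)
    exact no x (mem_inter.1 x1).1 (mem_inter.1 x1).2 x2
  exact ⟨d, (h.disj hs k d u1 u2).2⟩

/-- the least tight set that meets `u` and `v` -/
structure Least (Γ : Fin n → Finset X) (Q : Finset X) (u v : Fin n) (M : Finset X) : Prop where
  ti : Ti Γ Q M
  l : u ∈ Nb Γ M
  r : v ∈ Nb Γ M
  min : ∀ Z, Ti Γ Q Z → u ∈ Nb Γ Z → v ∈ Nb Γ Z → M ⊆ Z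

theorem Sur.all (hs : Sur Γ Q) (hQ : Q.card + 1 = n) (ne : Q.Nonempty) : Nb Γ Q = univ :=
  eq_univ_of_card _ (le_antisymm (card_le_univ _) (by have := hs Q Subset.rfl ne; simp; omega))

theorem least (hs : Sur Γ Q) (hQ : Q.card + 1 = n) (ne : Q.Nonempty) (uv : u ≠ v) :
    ∃ M, Least Γ Q u v M := by
  classical
  have all := hs.all hQ ne
  obtain ⟨M, hM, low⟩ := exists_min_image (Q.powerset.filter fun Z => Ti Γ Q Z ∧ u ∈ Nb Γ Z ∧
    v ∈ Nb Γ Z) card ⟨Q, mem_filter.2 ⟨mem_powerset_self _,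
      ⟨Subset.rfl, ne, by rw [all]; simp [hQ]⟩, by simp [all], by simp [all]⟩⟩
  obtain ⟨m1, m2, m3⟩ := (mem_filter.1 hM).2
  refine ⟨M, m1, m2, m3, fun Z z1 z2 z3 => ?_⟩
  obtain ⟨k1, -, k3⟩ := m1.inter hs z1 (m1.meet hs z1 uv m2 z2 m3 z3)
  have := low _ (mem_filter.2 ⟨mem_powerset.2 k1.sub, k1, k3 u m2 z2, k3 v m3 z3⟩)
  rw [← eq_of_subset_of_card_le (inter_subset_left : M ∩ Z ⊆ M) this]
  exact inter_subset_right

/-- the least tight set of two labels in two arms at `c` meets `c` in each arm -/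
theorem Least.mid (hs : Sur Γ Q) {c : Fin n} (h : Ti Γ Q Z) (k : Ti Γ Q W) (d : Disjoint Z W)
    (c1 : c ∈ Nb Γ Z) (c2 : c ∈ Nb Γ W) (u1 : u ∈ Nb Γ Z) (v1 : v ∈ Nb Γ W) (uc : u ≠ c)
    (vc : v ≠ c) (hM : Least Γ Q u v M) :
    M ⊆ Z ∪ W ∧ Ti Γ Q (M ∩ Z) ∧ c ∈ Nb Γ (M ∩ Z) ∧ u ∈ Nb Γ (M ∩ Z) := by
  obtain ⟨e1, e2⟩ := h.disj hs k d c1 c2
  have sub := hM.min _ e1 (Nb_mono subset_union_left u1) (Nb_mono subset_union_right v1)
  obtain ⟨x, x1, x2⟩ := mNb.1 hM.l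
  obtain ⟨y, y1, y2⟩ := mNb.1 hM.r
  have x3 : x ∈ Z := (mem_union.1 (sub x1)).resolve_right fun c => uc (e2 u u1 (nb_of c x2))
  have y3 : y ∈ W := (mem_union.1 (sub y1)).resolve_left fun c => vc (e2 v (nb_of c y2) v1)
  have a1 := (hM.ti.inter hs h ⟨x, mem_inter.2 ⟨x1, x3⟩⟩).1
  have a2 := (hM.ti.inter hs k ⟨y, mem_inter.2 ⟨y1, y3⟩⟩).1
  have e : M ∩ Z ∪ M ∩ W = M := by rw [← inter_union_distrib_left, inter_eq_left.2 sub]
  have c3 := card_union_add_card_inter (Nb Γ (M ∩ Z)) (Nb Γ (M ∩ W))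
  have c4 := card_union_of_disjoint (d.mono (inter_subset_right : M ∩ Z ⊆ Z)
    (inter_subset_right : M ∩ W ⊆ W))
  rw [← Nb_union, e, hM.ti.card, a1.card, a2.card] at c3
  rw [e] at c4
  obtain ⟨w, hw⟩ := card_pos.1 (by omega : 0 < (Nb Γ (M ∩ Z) ∩ Nb Γ (M ∩ W)).card)
  obtain ⟨w1, w2⟩ := mem_inter.1 hw
  exact ⟨sub, a1, e2 w (Nb_mono inter_subset_right w1) (Nb_mono inter_subset_right w2) ▸ w1,
    nb_of (mem_inter.2 ⟨x1, x3⟩) x2⟩

/-- `t` matches the labels `S` with the points `W` -/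
structure Mt (Γ : Fin n → Finset X) (S : Finset (Fin n)) (W : Finset X) (t : Fin n → X) :
    Prop where
  mem : ∀ y ∈ S, t y ∈ Γ y
  into : ∀ y ∈ S, t y ∈ W
  inj : ∀ y ∈ S, ∀ z ∈ S, t y = t z → y = z
  card : S.card = W.card

theorem Mt.img (h : Mt Γ S W t) : S.image t = W :=
  eq_of_subset_of_card_le (image_subset_iff.2 h.into)
    (by rw [card_image_of_injOn fun y hy z hz => h.inj y hy z hz, h.card])

theorem Mt.surj (h : Mt Γ S W t) {x : X} (hx : x ∈ W) : ∃ y ∈ S, t y = x :=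
  mem_image.1 (h.img ▸ hx)

omit [DecidableEq X] in
theorem Mt.mono {Γ' : Fin n → Finset X} (h : Mt Γ S W t) (k : ∀ y ∈ S, t y ∈ Γ' y) :
    Mt Γ' S W t := ⟨k, h.into, h.inj, h.card⟩

theorem Mt.own (h : Mt Γ S W t) (hZ : Z ⊆ W) : Mt Γ (S.filter fun y => t y ∈ Z) Z t := by
  refine ⟨fun y hy => h.mem y (mem_filter.1 hy).1, fun y hy => (mem_filter.1 hy).2,
    fun y hy z hz => h.inj y (mem_filter.1 hy).1 z (mem_filter.1 hz).1, ?_⟩
  rw [← card_image_of_injOn (f := t) fun y hy z hz =>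
    h.inj y (mem_filter.1 hy).1 z (mem_filter.1 hz).1]
  congr 1
  ext x
  simp only [mem_image, mem_filter]
  exact ⟨fun ⟨y, k, e⟩ => e ▸ k.2,
    fun k => (h.surj (hZ k)).imp fun y c => ⟨⟨c.1, by rw [c.2]; exact k⟩, c.2⟩⟩

/-- counting: if `I` holds all owners of `Z` and is not larger, it is matched with `Z` -/
theorem Mt.cnt (h : Mt Γ S W t) (hZ : Z ⊆ W) (hI : ∀ y ∈ S, t y ∈ Z → y ∈ I)
    (hc : I.card ≤ Z.card) : ∀ y ∈ I, y ∈ S ∧ t y ∈ Z := fun y hy => by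
  have e : S.filter (fun y => t y ∈ Z) = I := eq_of_subset_of_card_le
    (fun y hy => hI y (mem_filter.1 hy).1 (mem_filter.1 hy).2) (by rw [(h.own hZ).card]; exact hc)
  exact mem_filter.1 (e ▸ hy)

theorem Mt.del (h : Mt Γ S W t) {z : Fin n} (hz : z ∈ S) :
    Mt Γ (S.erase z) (W.erase (t z)) t :=
  ⟨fun y hy => h.mem y (mem_of_mem_erase hy), fun y hy => mem_erase.2
    ⟨fun e => (mem_erase.1 hy).1 (h.inj y (mem_of_mem_erase hy) z hz e),
      h.into y (mem_of_mem_erase hy)⟩,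
    fun y hy w hw => h.inj y (mem_of_mem_erase hy) w (mem_of_mem_erase hw),
    by rw [card_erase_of_mem hz, card_erase_of_mem (h.into z hz), h.card]⟩

theorem Mt.add {z : Fin n} {x : X} (h : Mt Γ S W t) (hz : z ∉ S) (hx : x ∉ W) (k : x ∈ Γ z) :
    Mt Γ (insert z S) (insert x W) (update t z x) := by
  have e : ∀ y ∈ S, update t z x y = t y := fun y hy =>
    update_of_ne (fun c : y = z => hz (c ▸ hy)) ..
  refine ⟨fun y hy => ?_, fun y hy => ?_, fun y hy w hw c => ?_,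
    by rw [card_insert_of_notMem hz, card_insert_of_notMem hx, h.card]⟩
  · rcases mem_insert.1 hy with rfl | hy
    · rwa [update_self]
    · rw [e y hy]; exact h.mem y hy
  · rcases mem_insert.1 hy with rfl | hy
    · simp
    · rw [e y hy]; exact mem_insert_of_mem (h.into y hy)
  · rcases mem_insert.1 hy with y1 | y1 <;> rcases mem_insert.1 hw with w1 | w1
    · rw [y1, w1]
    · rw [y1, update_self, e w w1] at c; exact absurd (c ▸ h.into w w1) hx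
    · rw [w1, update_self, e y y1] at c; exact absurd (c ▸ h.into y y1) hx
    · rw [e y y1, e w w1] at c; exact h.inj y y1 w w1 c

theorem Mt.glue {S' : Finset (Fin n)} {W' : Finset X} {m : Fin n → X} (h : Mt Γ S W t)
    (k : Mt Γ S' W' m) (d1 : Disjoint S S') (d2 : Disjoint W W') :
    ∃ r, Mt Γ (S ∪ S') (W ∪ W') r ∧ (∀ y ∈ S, r y = t y) ∧ ∀ y ∈ S', r y = m y := by
  obtain ⟨r, r1, r2⟩ : ∃ r : Fin n → X, (∀ y ∈ S, r y = t y) ∧ ∀ y ∈ S', r y = m y :=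
    ⟨fun y => if y ∈ S' then m y else t y, fun y hy => if_neg (disjoint_left.1 d1 hy),
      fun y hy => if_pos hy⟩
  refine ⟨r, ⟨fun y hy => ?_, fun y hy => ?_, fun y hy w hw c => ?_,
    by rw [card_union_of_disjoint d1, card_union_of_disjoint d2, h.card, k.card]⟩, r1, r2⟩
  · rcases mem_union.1 hy with hy | hy
    · rw [r1 y hy]; exact h.mem y hy
    · rw [r2 y hy]; exact k.mem y hy
  · rcases mem_union.1 hy with hy | hy
    · rw [r1 y hy]; exact mem_union_left _ (h.into y hy)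
    · rw [r2 y hy]; exact mem_union_right _ (k.into y hy)
  · rcases mem_union.1 hy with hy | hy <;> rcases mem_union.1 hw with hw | hw
    · rw [r1 y hy, r1 w hw] at c; exact h.inj y hy w hw c
    · rw [r1 y hy, r2 w hw] at c; exact absurd (c ▸ k.into w hw) (disjoint_left.1 d2 (h.into y hy))
    · rw [r2 y hy, r1 w hw] at c; exact absurd (c ▸ k.into y hy) (disjoint_left.1 d2 (h.into w hw))
    · rw [r2 y hy, r2 w hw] at c; exact k.inj y hy w hw c

theorem hallL (o : X) (hc : S.card = W.card)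
    (h : ∀ I ⊆ S, I.card ≤ (I.biUnion fun y => Γ y ∩ W).card) : ∃ t, Mt Γ S W t := by
  obtain ⟨f, f1, f2⟩ := (all_card_le_biUnion_card_iff_exists_injective
    (fun y : S => Γ y ∩ W)).1 fun s => by
      have := h (s.map (Embedding.subtype _)) fun y hy => by
        obtain ⟨z, -, rfl⟩ := mem_map.1 hy
        exact z.2
      rw [card_map] at this
      refine this.trans (card_le_card fun x hx => ?_)
      obtain ⟨y, y1, y2⟩ := mem_biUnion.1 hx
      obtain ⟨z, z1, rfl⟩ := mem_map.1 y1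
      exact mem_biUnion.2 ⟨z, z1, y2⟩
  refine ⟨fun y => if h : y ∈ S then f ⟨y, h⟩ else o, fun y hy => ?_, fun y hy => ?_,
    fun y hy z hz c => ?_, hc⟩
  · rw [dif_pos hy]; exact (mem_inter.1 (f2 ⟨y, hy⟩)).1
  · rw [dif_pos hy]; exact (mem_inter.1 (f2 ⟨y, hy⟩)).2
  · rw [dif_pos hy, dif_pos hz] at c; exact congrArg Subtype.val (f1 c)

theorem hallP (o : X) (hc : S.card = W.card)
    (h : ∀ Z ⊆ W, Z.Nonempty → Z.card ≤ (Nb Γ Z ∩ S).card) : ∃ t, Mt Γ S W t := by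
  refine hallL o hc fun I hI => ?_
  have s1 : (I.biUnion fun y => Γ y ∩ W) ⊆ W := biUnion_subset.2 fun y _ => inter_subset_right
  have c1 := card_sdiff_add_card_eq_card s1
  have c2 := card_sdiff_add_card_eq_card hI
  have c3 : (Nb Γ (W \ I.biUnion fun y => Γ y ∩ W) ∩ S).card ≤ (S \ I).card :=
    card_le_card fun y hy => by
      obtain ⟨x, x1, x2⟩ := mNb.1 (mem_inter.1 hy).1
      exact mem_sdiff.2 ⟨(mem_inter.1 hy).2, fun c => (mem_sdiff.1 x1).2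
        (mem_biUnion.2 ⟨y, c, mem_inter.2 ⟨x2, (mem_sdiff.1 x1).1⟩⟩)⟩
  rcases (W \ I.biUnion fun y => Γ y ∩ W).eq_empty_or_nonempty with e | e
  · rw [e, card_empty] at c1; omega
  · have := h _ sdiff_subset e; omega

/-- a tight set is matched with its labels but one -/
theorem Ti.root (hs : Sur Γ Q) (h : Ti Γ Q Z) (u1 : u ∈ Nb Γ Z) :
    ∃ t, Mt Γ ((Nb Γ Z).erase u) Z t := by
  refine hallP h.ne.choose (by rw [card_erase_of_mem u1, h.card]; rfl) fun W w1 w2 => ?_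
  have c1 := hs W (w1.trans h.sub) w2
  have c2 := pred_card_le_card_erase (s := Nb Γ W) (a := u)
  have c3 : ((Nb Γ W).erase u).card ≤ (Nb Γ W ∩ (Nb Γ Z).erase u).card := card_le_card fun y hy =>
    mem_inter.2 ⟨mem_of_mem_erase hy, erase_subset_erase _ (Nb_mono w1) hy⟩
  omega

/-- each point of the least tight set of `u`, `v` is left over by a matching without `u`, `v` -/
theorem Least.pair (hs : Sur Γ Q) (hM : Least Γ Q u v M) (uv : u ≠ v) (h : Ti Γ Q Z)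
    (u1 : u ∈ Nb Γ Z) (v1 : v ∈ Nb Γ Z) {e : X} (he : e ∈ M) :
    ∃ t, Mt Γ (((Nb Γ Z).erase u).erase v) (Z.erase e) t := by
  refine hallP e (by rw [card_erase_of_mem (mem_erase.2 ⟨uv.symm, v1⟩), card_erase_of_mem u1,
    h.card, card_erase_of_mem (hM.min Z h u1 v1 he)]; rfl) fun W w1 w2 => ?_
  have w3 := w1.trans (erase_subset _ _)
  have c1 := hs W (w3.trans h.sub) w2
  have c3 : (((Nb Γ W).erase u).erase v).card ≤ (Nb Γ W ∩ ((Nb Γ Z).erase u).erase v).card :=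
    card_le_card fun y hy => mem_inter.2 ⟨mem_of_mem_erase (mem_of_mem_erase hy),
      erase_subset_erase _ (erase_subset_erase _ (Nb_mono w3)) hy⟩
  have c4 := pred_card_le_card_erase (s := Nb Γ W) (a := u)
  have c5 := pred_card_le_card_erase (s := (Nb Γ W).erase u) (a := v)
  by_cases k1 : u ∈ Nb Γ W
  · by_cases k2 : v ∈ Nb Γ W
    · have : (Nb Γ W).card ≠ W.card + 1 := fun c =>
        notMem_erase e Z (w1 (hM.min W ⟨w3.trans h.sub, w2, c⟩ k1 k2 he))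
      omega
    · rw [erase_eq_of_notMem fun c => k2 (mem_of_mem_erase c)] at c3; omega
  · rw [erase_eq_of_notMem k1] at c3 c5; omega

/-- no label of `I` sees the tail of a label of `S` outside `I` -/
def Cls (Γ : Fin n → Finset X) (S : Finset (Fin n)) (t : Fin n → X) (I : Finset (Fin n)) : Prop :=
  ∀ y ∈ I, ∀ z ∈ S, t z ∈ Γ y → z ∈ I

omit [DecidableEq X] in
theorem hull_of (o : Fin n) (ho : o ∈ S) :
    ∃ R ⊆ S, o ∈ R ∧ Cls Γ S t R ∧ ∀ I, o ∈ I → Cls Γ S t I → R ⊆ I := by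
  classical
  refine ⟨S.filter fun z => ∀ I, o ∈ I → Cls Γ S t I → z ∈ I, filter_subset _ _,
    mem_filter.2 ⟨ho, fun _ h _ => h⟩, fun y hy z hz k => mem_filter.2 ⟨hz, fun I i1 i2 =>
      i2 y ((mem_filter.1 hy).2 I i1 i2) z hz k⟩, fun I i1 i2 z hz => (mem_filter.1 hz).2 I i1 i2⟩

/-- rotation: the tail of `o` and any label `z` that is reached from `o` are set free -/
theorem Mt.rot (h : Mt Γ S W t) {R : Finset (Fin n)} {o z : Fin n} (hR : R ⊆ S) (ho : o ∈ R)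
    (cl : Cls Γ S t R) (low : ∀ I, o ∈ I → Cls Γ S t I → R ⊆ I) (hz : z ∈ R) :
    ∃ r, Mt Γ (S.erase z) (W.erase (t o)) r ∧ ∀ y ∈ S, y ∉ R → r y = t y := by
  obtain ⟨r, hr⟩ := hallL (Γ := fun y => if y ∈ R then Γ y else {t y}) (S := S.erase z)
    (W := W.erase (t o)) (t o)
    (by rw [card_erase_of_mem (hR hz), card_erase_of_mem (h.into o (hR ho)), h.card])
    fun I hI => by
      have hS : ∀ y ∈ I, y ∈ S := fun y hy => mem_of_mem_erase (hI hy)
      have m : ∀ y ∈ I, ∀ w ∈ S, w ≠ o → t w ∈ (if y ∈ R then Γ y else {t y}) →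
          t w ∈ I.biUnion fun y => (if y ∈ R then Γ y else {t y}) ∩ W.erase (t o) :=
        fun y hy w w1 w2 k => mem_biUnion.2 ⟨y, hy, mem_inter.2 ⟨k, mem_erase.2
          ⟨fun c => w2 (h.inj w w1 o (hR ho) c), h.into w w1⟩⟩⟩
      have m0 : ∀ y ∈ I, t y ∈ (if y ∈ R then Γ y else {t y}) := fun y hy => by
        split_ifs
        exacts [h.mem y (hS y hy), mem_singleton_self _]
      have key : ∀ J ⊆ S, I.card ≤ J.card → (∀ w ∈ J, t w ∈ I.biUnion fun y =>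
          (if y ∈ R then Γ y else {t y}) ∩ W.erase (t o)) → I.card ≤ (I.biUnion fun y =>
          (if y ∈ R then Γ y else {t y}) ∩ W.erase (t o)).card := fun J j1 j2 j3 =>
        j2.trans (card_le_card_of_injOn t j3 fun y hy w hw => h.inj y (j1 hy) w (j1 hw))
      by_cases k : o ∈ I
      · have : ¬ Cls Γ S t (I ∩ R) := fun c => notMem_erase z S
          (hI (mem_inter.1 (low _ (mem_inter.2 ⟨k, ho⟩) c hz)).1)
        simp only [Cls, not_forall] at this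
        obtain ⟨y, y1, w, w1, w2, w3⟩ := this
        obtain ⟨y2, y3⟩ := mem_inter.1 y1
        have w4 : w ∉ I := fun c => w3 (mem_inter.2 ⟨c, cl y y3 w w1 w2⟩)
        refine key (insert w (I.erase o)) (insert_subset w1 fun y hy => hS y (mem_of_mem_erase hy))
          (by rw [card_insert_of_notMem fun c => w4 (mem_of_mem_erase c), card_erase_add_one k])
          fun q hq => ?_
        rcases mem_insert.1 hq with rfl | hq
        · exact m y y2 q w1 (fun c => w4 (c ▸ k)) (by rwa [if_pos y3])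
        · exact m q (mem_of_mem_erase hq) q (hS q (mem_of_mem_erase hq)) (mem_erase.1 hq).1
            (m0 q (mem_of_mem_erase hq))
      · exact key I hS le_rfl fun q hq => m q hq q (hS q hq) (fun c => k (c ▸ hq)) (m0 q hq)
  have e : ∀ y ∈ S.erase z, y ∉ R → r y = t y := fun y hy k => by simpa [k] using hr.mem y hy
  refine ⟨r, hr.mono fun y hy => ?_, fun y hy k => e y (mem_erase.2 ⟨fun c => k (c ▸ hz), hy⟩) k⟩
  by_cases k : y ∈ R
  · simpa [k] using hr.mem y hy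
  · rw [e y hy k]; exact h.mem y (mem_of_mem_erase hy)

end Pool.Agent.MP_3b4e7c_co.Gen4
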