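import Pool.Agent.MP_3b4e7c_co.Gen4.Hull
import Pool.Agent.MP_3b4e7c_co.Gen4.Tight

/-! The closing data of the narrow model. -/

namespace Pool.Agent.MP_3b4e7c_co.Gen4

open Finset Gen Hub

variable {X : Type} [DecidableEq X] {n : ℕ}

/-- The narrow model in which the labels that miss `a` may have lost points. -/
structure Nar0 (P : Finset X) (H G : Fin n → Finset X) (a : X) (ang : X → ℝ) (lo : Fin n → ℝ) :
    Prop where
  mem : a ∈ P
  sub : ∀ y, G y ⊆ (H y).erase a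
  arc : ∀ y, a ∈ H y → ∀ x ∈ P.erase a, x ∈ G y ↔ Arc (lo y) (1 / 2) (ang x)
  gen : ∀ y, a ∈ H y → ∀ x ∈ P.erase a, ∀ k : ℤ, 2 * (ang x - lo y) ≠ k
  out : ∀ y, a ∉ H y → ∀ x ∈ G y, Arc (lo y) (1 / 2) (ang x)
  sur : Sur G (P.erase a)

/-- Every matching along `K` without `A`, `B`, `e` closes; `s` is the first matching. -/
structure Core (P : Finset X) (H G K : Fin n → Finset X) (a : X) (A B g : Fin n) (e : X)
    (s : Fin n → X) : Prop where
  AB : A ≠ B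
  aA : a ∈ H A
  aB : a ∈ H B
  ag : a ∈ H g
  eg : e ∈ G g
  sub : ∀ y, K y ⊆ G y
  out : ∀ y, a ∉ H y → K y = G y
  first : Mt G (univ.erase A) (P.erase a) s
  cut : ∀ z x, a ∈ H z → x ∈ G z → x ∉ K z → z ≠ A ∧ x ∈ G A ∧ s z ∈ G B
  ex : ∃ t, Hull.Mt K a A B e t
  clo : ∀ t, Hull.Mt K a A B e t → Clo H (Thru H a) A B g e t
  re : ∀ t, Hull.Mt K a A B e t →
    (∀ h ∈ G g, ∀ u, Hull.Mt K a A B h u → (∀ y, a ∈ H y → u y = t y) →
      Clo H (Thru H a) A B g h u) ∨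
    ∃ y, a ∈ H y ∧ y ≠ A ∧ y ≠ B ∧ K y = G y ∧ t y ∈ G g ∧ ∀ u, Hull.Mt K a A B (t y) u →
      (∀ z, a ∈ H z → z ≠ y → u z = t z) → Clo H (Thru H a) A B g (t y) u

/-- the statement of the core of the narrow closing -/
def CoreS : Prop :=
  ∀ (X : Type) [DecidableEq X] (n : ℕ) (P : Finset X) (H G : Fin n → Finset X) (a : X)
    (ang : X → ℝ) (lo : Fin n → ℝ), Base P H → Nar0 P H G a ang lo →
    ∃ K A B g e s, Core P H G K a A B g e s

end Pool.Agent.MP_3b4e7c_co.Gen4
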