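import Pool.Agent.MP_3b4e7c_co.Gen4.Defs

/-! A hull vertex is given to a label through the hub, or the outside labels split. -/

namespace Pool.Agent.MP_3b4e7c_co.Gen4.Hull

open Finset Gen Hub Function

variable {X : Type} [DecidableEq X] {n : ℕ} {P E : Finset X} {H G : Fin n → Finset X} {a e : X}
  {A B : Fin n} {t : Fin n → X}

theorem mem_nb {Z : Finset X} {y : Fin n} : y ∈ Nb G Z ↔ ∃ x ∈ Z, x ∈ G y := by simp [Nb]

theorem mem_thru {y : Fin n} : y ∈ Thru H a ↔ a ∈ H y := by simp [Thru]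

/-- Hall's theorem for a set of labels -/
theorem hallS (K : Fin n → Finset X) (S : Finset (Fin n)) (d : Fin n → X)
    (h : ∀ J ⊆ S, J.card ≤ (J.biUnion K).card) :
    ∃ u : Fin n → X, (∀ y ∈ S, ∀ z ∈ S, u y = u z → y = z) ∧ (∀ y ∈ S, u y ∈ K y) ∧
      ∀ y ∉ S, u y = d y := by
  obtain ⟨f, f1, f2⟩ := (all_card_le_biUnion_card_iff_exists_injective (fun y : S => K y)).1
    fun s => by
      have := h (s.image Subtype.val) fun y hy => by
        obtain ⟨z, -, rfl⟩ := mem_image.1 hy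
        exact z.2
      rwa [card_image_of_injective _ Subtype.val_injective, image_biUnion] at this
  refine ⟨fun y => if k : y ∈ S then f ⟨y, k⟩ else d y, fun y hy z hz k => ?_,
    fun y hy => ?_, fun y hy => dif_neg hy⟩
  · simp only [dif_pos hy, dif_pos hz] at k
    exact congrArg Subtype.val (f1 k)
  · simp only [dif_pos hy]
    exact f2 ⟨y, hy⟩

/-- `A` and `B` have the tail `a`, the other labels are matched along `K` to points other than
`e` -/
structure Mt (K : Fin n → Finset X) (a : X) (A B : Fin n) (e : X) (t : Fin n → X) : Prop where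
  tA : t A = a
  tB : t B = a
  tm : ∀ y, y ≠ A → y ≠ B → t y ∈ K y
  te : ∀ y, t y ≠ e
  ti : ∀ y z, y ≠ B → z ≠ B → t y = t z → y = z

theorem Mt.surj (m : Mt G a A B e t) (hP : P.card = n) (sub : ∀ y, G y ⊆ P) (aP : a ∈ P)
    (eP : e ∈ P) : ∀ p ∈ P, p ≠ e → ∃ y, y ≠ B ∧ t y = p := by
  have c1 := card_erase_add_one eP
  have c2 := card_erase_add_one (mem_univ B)
  rw [card_univ, Fintype.card_fin] at c2
  have : (univ.erase B).image t = P.erase e := eq_of_subset_of_card_le (fun p hp => by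
      obtain ⟨y, hy, rfl⟩ := mem_image.1 hp
      refine mem_erase.2 ⟨m.te y, ?_⟩
      by_cases k : y = A
      · rwa [k, m.tA]
      · exact sub y (m.tm y k (mem_erase.1 hy).1))
    (by rw [card_image_of_injOn fun y hy z hz => m.ti y z (mem_erase.1 hy).1 (mem_erase.1 hz).1]
        omega)
  intro p hp k
  obtain ⟨y, hy, rfl⟩ := mem_image.1 (this ▸ mem_erase.2 ⟨k, hp⟩)
  exact ⟨y, (mem_erase.1 hy).1, rfl⟩

theorem Mt.goal {g : Fin n} (m : Mt G a A B e t) (sub : ∀ y, G y ⊆ H y) (AB : A ≠ B)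
    (aA : a ∈ H A) (aB : a ∈ H B) (ag : a ∈ H g) (eg : e ∈ H g)
    (clo : Clo H (Thru H a) A B g e t) (alt : Alt H a E e t) : Goal H a E :=
  ⟨A, B, g, e, t, AB, ag, eg, m.tA, m.tB, fun y => ⟨by
    by_cases k : y = A
    · rwa [k, m.tA]
    by_cases k' : y = B
    · rwa [k', m.tB]
    · exact sub y (m.tm y k k'), m.te y⟩, m.ti, clo, alt⟩

theorem swap0 (hB : Base P H) (aP : a ∈ P) (hE : E ⊆ P.erase a) (ne : E.Nonempty)
    (aA : a ∈ H A) (aB : a ∈ H B) (eP : e ∈ P) (m : Mt H a A B e t) :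
    Alt H a E e t ∨ ∃ x, (x = e ∨ ∃ z, a ∈ H z ∧ z ≠ A ∧ z ≠ B ∧ t z = x) ∧ ∀ h ∈ E, h ≠ e ∧
      (∀ y, a ∈ H y → t y ≠ h) ∧ ∃ u : Fin n → X, (∀ y, a ∈ H y → u y = t y) ∧
        (∀ y, a ∉ H y → u y ∈ H y ∧ u y ≠ h ∧ (u y = x ∨ ∃ z, a ∉ H z ∧ t z = u y)) ∧
        ∀ y z, a ∉ H y → a ∉ H z → u y = u z → y = z := by
  classical
  refine or_iff_not_imp_left.2 fun no => ?_
  rw [Alt, not_or] at no
  obtain ⟨n1, n2⟩ := no
  have nA : ∀ {y}, a ∉ H y → y ≠ A := fun h k => h (k ▸ aA)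
  have nB : ∀ {y}, a ∉ H y → y ≠ B := fun h k => h (k ▸ aB)
  have sj := m.surj hB.card hB.sub aP eP
  have e1 : ∀ h ∈ E, h ≠ e := fun h hh k => n1 ⟨h, hh, Or.inl k⟩
  have e2 : ∀ h ∈ E, ∀ y, a ∈ H y → t y ≠ h := fun h hh y hy k =>
    n1 ⟨h, hh, Or.inr ⟨y, mem_thru.2 hy, k⟩⟩
  have own : ∀ h ∈ E, ∃ y, a ∉ H y ∧ t y = h := fun h hh => by
    obtain ⟨y, -, k⟩ := sj h (mem_of_mem_erase (hE hh)) (e1 h hh)
    exact ⟨y, fun c => e2 h hh y c k, k⟩
  obtain ⟨C, hC⟩ : ∃ C : Finset (Fin n) → Prop, ∀ S, C S ↔ (∀ y ∈ S, a ∉ H y) ∧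
    (∀ y ∈ S, ∀ z, a ∉ H z → t z ∈ H y → z ∈ S) ∧ ∃ y ∈ S, t y ∈ E := ⟨_, fun _ => Iff.rfl⟩
  have all : ∀ S, C S → ∀ y, a ∉ H y → t y ∈ E → y ∈ S := fun S hS y y1 y2 => by
    obtain ⟨s1, s2, s3⟩ := (hC S).1 hS
    by_contra k
    exact n2 ⟨S, s1, s2, s3, t y, y2, fun z hz c => k (s2 z hz y y1 c)⟩
  obtain ⟨R, hR⟩ : ∃ R : Finset (Fin n), ∀ y, y ∈ R ↔ a ∉ H y ∧ ∀ S, C S → y ∈ S :=
    ⟨univ.filter fun y => a ∉ H y ∧ ∀ S, C S → y ∈ S, fun y => by simp⟩
  have tR : ∀ y ∈ R, t y ∈ H y := fun y hy =>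
    m.tm y (nA ((hR y).1 hy).1) (nB ((hR y).1 hy).1)
  obtain ⟨h0, hh0⟩ := ne
  obtain ⟨y0, y01, y02⟩ := own h0 hh0
  have y0R : y0 ∈ R := (hR y0).2 ⟨y01, fun S hS => all S hS y0 y01 (y02 ▸ hh0)⟩
  obtain ⟨r, rR, x, x1, x2⟩ : ∃ r ∈ R, ∃ x ∈ H r, x ∉ R.image t := by
    by_contra k
    push Not at k
    have c1 := hB.dh.inside hB.card (R.image t) (fun p hp => by
        obtain ⟨y, hy, rfl⟩ := mem_image.1 hp
        exact hB.sub y (tR y hy)) ⟨_, mem_image_of_mem _ y0R⟩ fun c => by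
      obtain ⟨y, hy, c⟩ := mem_image.1 (c ▸ aP)
      exact ((hR y).1 hy).1 (c ▸ tR y hy)
    have c2 : R.card ≤ (univ.filter fun y => H y ⊆ R.image t).card :=
      card_le_card fun y hy => mem_filter.2 ⟨mem_univ _, k y hy⟩
    have c3 := card_image_le (s := R) (f := t)
    omega
  have x3 : ∀ z, a ∉ H z → t z ≠ x := fun z hz k => x2 (mem_image.2 ⟨z, (hR z).2 ⟨hz, fun S hS =>
    ((hC S).1 hS).2.1 r (((hR r).1 rR).2 S hS) z hz (k ▸ x1)⟩, k⟩)
  refine ⟨x, ?_, fun h hh => ⟨e1 h hh, e2 h hh, ?_⟩⟩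
  · refine or_iff_not_imp_left.2 fun k => ?_
    obtain ⟨z, z1, z2⟩ := sj x (hB.sub r x1) k
    exact ⟨z, by_contra fun c => x3 z c z2, fun c => ((hR r).1 rR).1
      (by rw [← m.tA, ← c, z2]; exact x1), z1, z2⟩
  obtain ⟨O, hO⟩ : ∃ O : Finset (Fin n), ∀ y, y ∈ O ↔ a ∉ H y :=
    ⟨univ.filter fun y => a ∉ H y, fun y => by simp⟩
  obtain ⟨y1, y11, y12⟩ := own h hh
  obtain ⟨u, u1, u2, u3⟩ := hallS (fun y => H y ∩ insert x ((O.image t).erase h)) O t fun J hJ => by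
    have JO : ∀ y ∈ J, a ∉ H y := fun y hy => (hO y).1 (hJ hy)
    have cJ : (J.image t).card = J.card :=
      card_image_of_injOn fun y hy z hz => m.ti y z (nB (JO y hy)) (nB (JO z hz))
    have s1 : (J.image t).erase h ⊆ J.biUnion fun y => H y ∩ insert x ((O.image t).erase h) :=
      fun p hp => by
        obtain ⟨y, hy, rfl⟩ := mem_image.1 (mem_of_mem_erase hp)
        exact mem_biUnion.2 ⟨y, hy, mem_inter.2 ⟨m.tm y (nA (JO y hy)) (nB (JO y hy)),
          mem_insert_of_mem (mem_erase.2 ⟨(mem_erase.1 hp).1, mem_image_of_mem _ (hJ hy)⟩)⟩⟩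
    by_cases k : h ∈ J.image t
    swap
    · rw [erase_eq_of_notMem k] at s1
      exact cJ ▸ card_le_card s1
    have c1 := card_erase_add_one k
    suffices ∃ p ∈ J.biUnion fun y => H y ∩ insert x ((O.image t).erase h), p ∉ J.image t by
      obtain ⟨p, p1, p2⟩ := this
      have := card_le_card (insert_subset p1 s1)
      rw [card_insert_of_notMem fun c => p2 (mem_of_mem_erase c)] at this
      omega
    by_cases cl : ∀ y ∈ J, ∀ z, a ∉ H z → t z ∈ H y → z ∈ J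
    · obtain ⟨y, hy, k'⟩ := mem_image.1 k
      refine ⟨x, mem_biUnion.2 ⟨r, ((hR r).1 rR).2 J ((hC J).2 ⟨JO, cl, y, hy, k' ▸ hh⟩),
        mem_inter.2 ⟨x1, mem_insert_self _ _⟩⟩, fun c => ?_⟩
      obtain ⟨z, hz, c⟩ := mem_image.1 c
      exact x3 z (JO z hz) c
    · push Not at cl
      obtain ⟨y, hy, z, z1, z2, z3⟩ := cl
      have nz : t z ∉ J.image t := fun c => by
        obtain ⟨w, hw, c⟩ := mem_image.1 c
        exact z3 (m.ti w z (nB (JO w hw)) (nB z1) c ▸ hw)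
      exact ⟨t z, mem_biUnion.2 ⟨y, hy, mem_inter.2 ⟨z2, mem_insert_of_mem (mem_erase.2
        ⟨fun c => nz (c ▸ k), mem_image_of_mem _ ((hO z).2 z1)⟩)⟩⟩, nz⟩
  refine ⟨u, fun y hy => u3 y fun c => (hO y).1 c hy, fun y hy => ?_,
    fun y z hy hz => u1 y ((hO y).2 hy) z ((hO z).2 hz)⟩
  obtain ⟨k1, k2⟩ := mem_inter.1 (u2 y ((hO y).2 hy))
  refine ⟨k1, ?_⟩
  rcases mem_insert.1 k2 with k2 | k2
  · exact ⟨fun c => x3 y1 y11 (by rw [y12, ← c, k2]), Or.inl k2⟩
  · obtain ⟨z, z1, z2⟩ := mem_image.1 (mem_of_mem_erase k2)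
    exact ⟨(mem_erase.1 k2).1, Or.inr ⟨z, (hO z).1 z1, z2⟩⟩

/-- Either the hull condition holds, or every point of `E` can be freed instead of `e`, or one label
`z` through the hub can take every point of `E` that it faces; the other labels through the hub
keep their tails. -/
theorem swap (hB : Base P H) (aP : a ∈ P) (hE : E ⊆ P.erase a) (ne : E.Nonempty)
    (sub : ∀ y, G y ⊆ (H y).erase a) (out : ∀ y, a ∉ H y → G y = H y)
    (aA : a ∈ H A) (aB : a ∈ H B) (eP : e ∈ P) (m : Mt G a A B e t) :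
    Alt H a E e t ∨ (∀ h ∈ E, ∃ u, Mt G a A B h u ∧ ∀ y, a ∈ H y → u y = t y) ∨
      ∃ z, a ∈ H z ∧ z ≠ A ∧ z ≠ B ∧ ∀ h ∈ E, h ∈ G z →
        ∃ u, Mt G a A B e u ∧ u z = h ∧ ∀ y, a ∈ H y → y ≠ z → u y = t y := by
  have nB : ∀ {y}, a ∉ H y → y ≠ B := fun h k => h (k ▸ aB)
  refine (swap0 hB aP hE ne aA aB eP ⟨m.tA, m.tB, fun y h1 h2 =>
    mem_of_mem_erase (sub y (m.tm y h1 h2)), m.te, m.ti⟩).imp_right ?_
  rintro ⟨x, rfl | ⟨z, z1, z2, z3, rfl⟩, k⟩
  · refine Or.inl fun h hh => ?_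
    obtain ⟨-, k2, u, u1, u2, u3⟩ := k h hh
    have mix : ∀ y w, a ∈ H y → y ≠ B → a ∉ H w → u y ≠ u w := fun y w h1 h2 h3 c => by
      rw [u1 y h1] at c
      rcases (u2 w h3).2.2 with d | ⟨v, v1, v2⟩
      · exact m.te y (c.trans d)
      · exact v1 (m.ti y v h2 (nB v1) (c.trans v2.symm) ▸ h1)
    refine ⟨u, ⟨(u1 A aA).trans m.tA, (u1 B aB).trans m.tB, fun y h1 h2 => ?_, fun y => ?_,
      fun y w h1 h2 c => ?_⟩, u1⟩
    · by_cases c : a ∈ H y
      · exact u1 y c ▸ m.tm y h1 h2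
      · exact out y c ▸ (u2 y c).1
    · by_cases c : a ∈ H y
      · exact u1 y c ▸ k2 y c
      · exact (u2 y c).2.1
    · by_cases c1 : a ∈ H y <;> by_cases c2 : a ∈ H w
      · exact m.ti y w h1 h2 (by rwa [u1 y c1, u1 w c2] at c)
      · exact absurd c (mix y w c1 h1 c2)
      · exact absurd c.symm (mix w y c2 h2 c1)
      · exact u3 y w c1 c2 c
  · refine Or.inr ⟨z, z1, z2, z3, fun h hh hz => ?_⟩
    obtain ⟨k1, k2, u, u1, u2, u3⟩ := k h hh
    have mix : ∀ y w, a ∈ H y → y ≠ B → y ≠ z → a ∉ H w → u y ≠ u w := fun y w h1 h2 h4 h3 c => by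
      rw [u1 y h1] at c
      rcases (u2 w h3).2.2 with d | ⟨v, v1, v2⟩
      · exact h4 (m.ti y z h2 z3 (c.trans d))
      · exact v1 (m.ti y v h2 (nB v1) (c.trans v2.symm) ▸ h1)
    have nh : ∀ y, u y ≠ h := fun y => by
      by_cases c : a ∈ H y
      · exact u1 y c ▸ k2 y c
      · exact (u2 y c).2.1
    refine ⟨update u z h, ⟨(update_of_ne z2.symm ..).trans ((u1 A aA).trans m.tA),
      (update_of_ne z3.symm ..).trans ((u1 B aB).trans m.tB), fun y h1 h2 => ?_, fun y => ?_,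
      fun y w h1 h2 c => ?_⟩, update_self .., fun y h1 h2 => (update_of_ne h2 ..).trans (u1 y h1)⟩
    · by_cases d : y = z
      · rwa [d, update_self]
      rw [update_of_ne d]
      by_cases c : a ∈ H y
      · exact u1 y c ▸ m.tm y h1 h2
      · exact out y c ▸ (u2 y c).1
    · by_cases d : y = z
      · rwa [d, update_self]
      rw [update_of_ne d]
      by_cases c : a ∈ H y
      · exact u1 y c ▸ m.te y
      · rcases (u2 y c).2.2 with d | ⟨v, -, v2⟩
        exacts [d ▸ m.te z, v2 ▸ m.te v]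
    · by_cases d1 : y = z <;> by_cases d2 : w = z
      · rw [d1, d2]
      · rw [d1, update_self, update_of_ne d2] at c
        exact absurd c.symm (nh w)
      · rw [d2, update_self, update_of_ne d1] at c
        exact absurd c (nh y)
      rw [update_of_ne d1, update_of_ne d2] at c
      by_cases c1 : a ∈ H y <;> by_cases c2 : a ∈ H w
      · exact m.ti y w h1 h2 (by rwa [u1 y c1, u1 w c2] at c)
      · exact absurd c (mix y w c1 h1 d1 c2)
      · exact absurd c.symm (mix w y c2 h2 d2 c1)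
      · exact u3 y w c1 c2 c

omit [DecidableEq X] in
/-- the label `z` takes the free point and its tail is the new free point -/
theorem Mt.take (m : Mt G a A B e t) (AB : A ≠ B) {z : Fin n} (zA : z ≠ A) (zB : z ≠ B)
    (ez : e ∈ G z) : Mt G a A B (t z) (update t z e) := by
  refine ⟨(update_of_ne zA.symm ..).trans m.tA, (update_of_ne zB.symm ..).trans m.tB,
    fun y h1 h2 => ?_, fun y => ?_, fun y w h1 h2 c => ?_⟩
  · by_cases d : y = z
    · rwa [d, update_self]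
    · exact (update_of_ne d e t).symm ▸ m.tm y h1 h2
  · by_cases d : y = z
    · rw [d, update_self]; exact (m.te z).symm
    rw [update_of_ne d]
    by_cases c : y = B
    · exact fun k => zA (m.ti z A zB AB (by rw [← k, c, m.tB, m.tA]))
    · exact fun k => d (m.ti y z c zB k)
  · by_cases d1 : y = z <;> by_cases d2 : w = z
    · rw [d1, d2]
    · rw [d1, update_self, update_of_ne d2] at c
      exact absurd c.symm (m.te w)
    · rw [d2, update_self, update_of_ne d1] at c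
      exact absurd c (m.te y)
    · exact m.ti y w h1 h2 (by rwa [update_of_ne d1, update_of_ne d2] at c)

/-- the point `τ` is deleted from the labels that miss the hub -/
def Cut (H G : Fin n → Finset X) (a τ : X) (y : Fin n) : Finset X :=
  if a ∈ H y then G y else (G y).erase τ

theorem cut_in {τ : X} {y : Fin n} (h : a ∈ H y) : Cut H G a τ y = G y := if_pos h

theorem cut_out {τ : X} {y : Fin n} (h : a ∉ H y) : Cut H G a τ y = (G y).erase τ := if_neg h

theorem cut_sub (τ : X) (y : Fin n) : Cut H G a τ y ⊆ G y := by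
  by_cases h : a ∈ H y
  · rw [cut_in h]
  · rw [cut_out h]; exact erase_subset _ _

/-- if the surplus is lost when `τ` is deleted from the outside labels, a tight set without `τ`
faces all labels through the hub that face `τ` -/
theorem bad {Q : Finset X} {τ : X} (hs : Sur G Q) (no : ¬ Sur (Cut H G a τ) Q) {u v : Fin n}
    (uv : u ≠ v) (au : a ∈ H u) (av : a ∈ H v) (u1 : τ ∈ G u) (v1 : τ ∈ G v) :
    ∃ Z ⊆ Q, τ ∉ Z ∧ (Nb G Z).card = Z.card + 1 ∧ ∀ z, a ∈ H z → τ ∈ G z → z ∈ Nb G Z := by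
  rw [Sur] at no
  push Not at no
  obtain ⟨Z, z1, z2, z3⟩ := no
  have s1 : Nb G (Z.erase τ) ⊆ Nb (Cut H G a τ) Z := fun y hy => by
    obtain ⟨x, x1, x2⟩ := mem_nb.1 hy
    refine mem_nb.2 ⟨x, mem_of_mem_erase x1, ?_⟩
    by_cases h : a ∈ H y
    · rwa [cut_in h]
    · rw [cut_out h]; exact mem_erase.2 ⟨(mem_erase.1 x1).1, x2⟩
  have c1 := card_le_card s1
  have τZ : τ ∈ Z := by
    by_contra k
    rw [erase_eq_of_notMem k] at c1
    have := hs Z z1 z2
    omega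
  have s2 : ∀ z, a ∈ H z → τ ∈ G z → z ∈ Nb (Cut H G a τ) Z := fun z h1 h2 =>
    mem_nb.2 ⟨τ, τZ, by rwa [cut_in h1]⟩
  have c2 := card_erase_add_one τZ
  have c3 := one_lt_card.2 ⟨u, s2 u au u1, v, s2 v av v1, uv⟩
  have c4 := hs (Z.erase τ) ((erase_subset _ _).trans z1) (card_pos.1 (by omega))
  refine ⟨Z.erase τ, (erase_subset _ _).trans z1, notMem_erase _ _, by omega, fun z h1 h2 => ?_⟩
  rw [eq_of_subset_of_card_le s1 (by omega)]
  exact s2 z h1 h2

/-- a matching along the cut graph gives `τ` to a label through the hub -/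
theorem alt_of_cut {τ : X} (hB : Base P H) (aP : a ∈ P) (eP : e ∈ P) (hE : E ⊆ P.erase a)
    (hτ : τ ∈ E) (sub : ∀ y, G y ⊆ (H y).erase a) (aA : a ∈ H A)
    (m : Mt (Cut H G a τ) a A B e t) : Alt H a E e t := by
  refine Or.inl ⟨τ, hτ, or_iff_not_imp_left.2 fun k => ?_⟩
  obtain ⟨y, y1, y2⟩ := m.surj hB.card (fun y => (cut_sub τ y).trans ((sub y).trans
    ((erase_subset _ _).trans (hB.sub y)))) aP eP τ (mem_of_mem_erase (hE hτ)) k
  refine ⟨y, mem_thru.2 (by_contra fun c => ?_), y2⟩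
  have := m.tm y (fun d => c (d ▸ aA)) y1
  rw [cut_out c, y2] at this
  exact notMem_erase _ _ this

end Pool.Agent.MP_3b4e7c_co.Gen4.Hull
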