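import Pool.Agent.MP_3b4e7c_co.Gen4.JumpDefs
import Pool.Agent.MP_3b4e7c_co.Hub.Perfect
import Mathlib.Combinatorics.Hall.Basic

/-! One wide label through the hub: lists with a link, types of labels, the matching with its hull
alternative, and the closing theorem. -/

namespace Pool.Agent.MP_3b4e7c_co.Gen4.J60

open Finset Gen Hub Function

section Lists

variable {X : Type} {n : ℕ} {H : Fin n → Finset X} {t : Fin n → X}

theorem clo_sets {Λ : Finset (Fin n)} {A B g C : Fin n} {e : X} (hC : C ∈ Λ) (eg : e ∈ H g)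
    (h : ∀ M : Fin n → Prop, M A → M B → M g → ∀ R ⊆ Λ, (∀ z ∈ R, ¬ M z) → (M C ∨ C ∈ R) →
      ∃ l : Fin n → List (Fin n), (∀ w, l w ≠ [] → w ∈ Λ ∧ M w ∧ Rot H t (t w) w (l w)) ∧
        (∀ i, (l i).Nodup) ∧ (∀ z, z ∈ R ↔ ∃ i, z ∈ l i) ∧
        ∀ i j, ∀ u ∈ l i, u ∈ l j → i = j) : Clo H Λ A B g e t := by
  classical
  intro E hE e1 e2
  obtain ⟨κ, κ0, κi⟩ : ∃ κ : Fin n → ℕ, κ C = 0 ∧ Injective κ := by
    refine ⟨fun z => if z = C then 0 else z.1 + 1, by simp, fun y z k => ?_⟩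
    dsimp only at k
    split_ifs at k with h1 h2 h2
    · rw [h1, h2]
    · exact Fin.ext (by omega)
  have mR : ∀ z, z ∈ Λ.filter (fun z => ¬ E A z ∧ ∀ y ∈ Λ, E y z → κ z ≤ κ y) ↔
      z ∈ Λ ∧ ¬ E A z ∧ ∀ y ∈ Λ, E y z → κ z ≤ κ y := fun z => mem_filter
  obtain ⟨l, l2, l3, l4, l5⟩ := h (E A) (hE.refl A) e1 e2 _ (filter_subset _ _)
    (fun z hz => ((mR z).1 hz).2.1)
    ((em (E A C)).imp_right fun k => (mR C).2 ⟨hC, k, fun y _ _ => by omega⟩)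
  have m : ∀ i : Option (Fin n), ∀ z ∈ i.elim [] l, z ∈ Λ ∧ ¬ E A z ∧
      ∀ y ∈ Λ, E y z → κ z ≤ κ y := by
    rintro (_ | i) z hz
    · simp at hz
    · exact (mR z).1 ((l4 z).2 ⟨i, hz⟩)
  have eq : ∀ i j : Option (Fin n), ∀ u ∈ i.elim [] l, ∀ v ∈ j.elim [] l, E u v → u = v :=
    fun i j u hu v hv k => κi (le_antisymm ((m i u hu).2.2 v (m j v hv).1 (hE.symm k))
      ((m j v hv).2.2 u (m i u hu).1 k))
  refine ⟨fun i => i.elim [] l, eg, l2, fun i z hz => ⟨(m i z hz).1, (m i z hz).2.1⟩, fun i => ?_,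
    fun i j ij u hu v hv c => ?_, fun z hz k => ?_⟩
  · have : (i.elim [] l).Nodup := by
      rcases i with _ | i
      exacts [List.nodup_nil, l3 i]
    exact this.imp_of_mem fun {u v} hu hv k c => k (eq i i u hu v hv c)
  · have := eq i j u hu v hv c
    subst this
    rcases i with _ | i
    · simp at hu
    rcases j with _ | j
    · simp at hv
    exact ij (congrArg some (l5 i j u hu hv))
  · obtain ⟨v, hv, low⟩ := exists_min_image (Λ.filter fun y => E y z) κ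
      ⟨z, mem_filter.2 ⟨hz, hE.refl z⟩⟩
    obtain ⟨v1, v2⟩ := mem_filter.1 hv
    obtain ⟨i, hi⟩ := (l4 v).1 ((mR v).2 ⟨v1, fun c => k (hE.trans c v2), fun y hy c =>
      low y (mem_filter.2 ⟨hy, hE.trans c v2⟩)⟩)
    exact ⟨some i, v, hi, v2⟩

/-- each label of `K` has a slot in `M`, has its tail in the label of the slot and holds the point
of the slot; two labels of one slot are joined by an arc -/
def Val (H : Fin n → Finset X) (t : Fin n → X) (K M : Fin n → Prop) (pt : Fin n → X)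
    (cl : Fin n → Fin n) : Prop :=
  (∀ z, K z → M (cl z) ∧ t z ∈ H (cl z) ∧ pt (cl z) ∈ H z) ∧
    ∀ u v, K u → K v → cl u = cl v → u ≠ v → t u ∈ H v ∨ t v ∈ H u

theorem Val.lists [DecidableEq X] {K M : Fin n → Prop} {pt : Fin n → X} {cl : Fin n → Fin n}
    (h : Val H t K M pt cl) (hp : ∀ w, pt w ∈ H w) (R : Finset (Fin n)) (hR : ∀ z ∈ R, K z) :
    ∃ l : Fin n → List (Fin n), (∀ i, (l i).Nodup) ∧ (∀ i z, z ∈ l i ↔ z ∈ R ∧ cl z = i) ∧
      (∀ w, Rot H t (pt w) w (l w)) ∧ ∀ w, l w ≠ [] → M w := by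
  choose l l1 l2 l3 using fun i : Fin n => redei (H := H) (t := t)
    (R.filter fun z => cl z = i) i (pt i) (hp i)
    (fun z hz => (mem_filter.1 hz).2 ▸ (h.1 z (hR z (mem_filter.1 hz).1)).2)
    fun u hu v hv => h.2 u v (hR u (mem_filter.1 hu).1) (hR v (mem_filter.1 hv).1)
      ((mem_filter.1 hu).2.trans (mem_filter.1 hv).2.symm)
  simp only [mem_filter] at l2
  refine ⟨l, l1, l2, l3, fun w hw => ?_⟩
  obtain ⟨z, hz⟩ := List.exists_mem_of_ne_nil _ hw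
  exact ((l2 w z).1 hz).2 ▸ (h.1 z (hR z ((l2 w z).1 hz).1)).1

/-- If `C` is in the main cycle it gives a slot; if not, it is put into the list at `v`, between
the labels that hold its tail and the labels that hold the tail of `v`. -/
theorem clo_link [DecidableEq X] {Λ : Finset (Fin n)} {A B g C v : Fin n} {e : X} (hA : A ∈ Λ)
    (hB : B ∈ Λ) (hg : g ∈ Λ) (hC : C ∈ Λ) (eg : e ∈ H g) (tm : ∀ y, t y ∈ H y)
    (hv : v = A ∨ v = g) (c1 c2 : Fin n → Fin n)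
    (h1 : Val H t (fun z => z ∈ Λ ∧ z ≠ A ∧ z ≠ B ∧ z ≠ g ∧ z ≠ C)
      (fun w => w = A ∨ w = B ∨ w = g ∨ w = C) t c1)
    (h2 : C ≠ A → C ≠ B → C ≠ g → t C ∈ H v ∧ t v ∈ H C ∧
      Val H t (fun z => z ∈ Λ ∧ z ≠ A ∧ z ≠ B ∧ z ≠ g ∧ z ≠ C)
        (fun w => w = A ∨ w = B ∨ w = g ∨ w = C) (fun w => t (Equiv.swap v C w)) c2) :
    Clo H Λ A B g e t := by
  refine clo_sets hC eg fun M mA mB mg R hR off hm => ?_
  have ne : ∀ z ∈ R, ∀ w, M w → z ≠ w := fun z hz w hw k => off z hz (k ▸ hw)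
  by_cases mC : M C
  · obtain ⟨l, l1, l2, l3, l4⟩ := h1.lists tm R fun z hz =>
      ⟨hR hz, ne z hz A mA, ne z hz B mB, ne z hz g mg, ne z hz C mC⟩
    refine ⟨l, fun w hw => ?_, l1, fun z => ⟨fun hz => ⟨_, (l2 _ z).2 ⟨hz, rfl⟩⟩,
      fun ⟨i, hi⟩ => ((l2 i z).1 hi).1⟩, fun i j u hi hj =>
        ((l2 i u).1 hi).2.symm.trans ((l2 j u).1 hj).2⟩
    rcases l4 w hw with rfl | rfl | rfl | rfl <;> exact ⟨by assumption, by assumption, l3 _⟩
  have CR := hm.resolve_left mC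
  obtain ⟨k1, k2, k3⟩ := h2 (ne C CR A mA) (ne C CR B mB) (ne C CR g mg)
  have mv : v ∈ Λ ∧ M v := by rcases hv with rfl | rfl <;> exact ⟨by assumption, by assumption⟩
  have vC : v ≠ C := (ne C CR v mv.2).symm
  obtain ⟨l, l1, l2, l3, l4⟩ := k3.lists (fun w => by
      by_cases w1 : w = v
      · rwa [w1, Equiv.swap_apply_left]
      by_cases w2 : w = C
      · rwa [w2, Equiv.swap_apply_right]
      · rw [Equiv.swap_apply_of_ne_of_ne w1 w2]; exact tm w) (R.erase C) fun z hz =>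
    have := mem_of_mem_erase hz
    ⟨hR this, ne z this A mA, ne z this B mB, ne z this g mg, (mem_erase.1 hz).1⟩
  have nC : ∀ i, C ∉ l i := fun i h => notMem_erase C R ((l2 i C).1 h).1
  have mem : ∀ i z, z ∈ (if i = v then l v ++ C :: l C else if i = C then [] else l i) ↔
      (z = C ∧ i = v) ∨ (z ∈ R.erase C ∧ i = if c2 z = C then v else c2 z) := by
    intro i z
    by_cases i1 : i = v
    · subst i1
      rw [if_pos rfl, List.mem_append, List.mem_cons, l2, l2]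
      split_ifs with h
      · simp [h, vC.symm]
      · simp [h, eq_comm, or_comm]
    rw [if_neg i1]
    by_cases i2 : i = C
    · subst i2
      rw [if_pos rfl]
      split_ifs with h
      · simp [i1]
      · simp [i1, Ne.symm h]
    rw [if_neg i2, l2]
    split_ifs with h
    · simp [i1, h, Ne.symm i2]
    · simp [i1, eq_comm]
  refine ⟨fun i => if i = v then l v ++ C :: l C else if i = C then [] else l i, fun w hw => ?_,
    fun i => ?_, fun z => ?_, fun i j u hi hj => ?_⟩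
  · dsimp only at hw ⊢
    split_ifs at hw ⊢ with w1 w2
    · subst w1
      have a1 := l3 w
      have a2 := l3 C
      rw [Equiv.swap_apply_left] at a1
      rw [Equiv.swap_apply_right] at a2
      exact ⟨mv.1, mv.2, a2.app _ _ a1⟩
    · exact absurd rfl hw
    · have a1 := l3 w
      rw [Equiv.swap_apply_of_ne_of_ne w1 w2] at a1
      rcases l4 w hw with rfl | rfl | rfl | rfl
      exacts [⟨hA, mA, a1⟩, ⟨hB, mB, a1⟩, ⟨hg, mg, a1⟩, absurd rfl w2]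
  · dsimp only
    split_ifs
    · refine List.nodup_append.2 ⟨l1 v, List.nodup_cons.2 ⟨nC C, l1 C⟩, fun x hx y hy k => ?_⟩
      rcases List.mem_cons.1 hy with rfl | hy
      · exact nC v (k ▸ hx)
      · exact vC (((l2 v x).1 hx).2.symm.trans (k ▸ ((l2 C y).1 hy).2))
    · exact List.nodup_nil
    · exact l1 i
  · simp only [mem]
    refine ⟨fun hz => ?_, ?_⟩
    · by_cases k : z = C
      · exact ⟨v, Or.inl ⟨k, rfl⟩⟩
      · exact ⟨_, Or.inr ⟨mem_erase.2 ⟨k, hz⟩, rfl⟩⟩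
    · rintro ⟨i, ⟨rfl, -⟩ | ⟨k, -⟩⟩
      exacts [CR, mem_of_mem_erase k]
  · rcases (mem i u).1 hi with ⟨a1, a2⟩ | ⟨a1, a2⟩ <;>
      rcases (mem j u).1 hj with ⟨b1, b2⟩ | ⟨b1, b2⟩
    · rw [a2, b2]
    · exact absurd a1 (mem_erase.1 b1).1
    · exact absurd b1 (mem_erase.1 a1).1
    · rw [a2, b2]

end Lists

section Types

variable {X : Type} [DecidableEq X] {n : ℕ} {H : Fin n → Finset X}

theorem half {Λ : Finset (Fin n)} {j B g C : Fin n} {a e p : X} {t : Fin n → X} (τ : Fin n → ℕ)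
    (hΛ : ∀ z ∈ Λ, a ∈ H z) (jΛ : j ∈ Λ) (BΛ : B ∈ Λ) (gΛ : g ∈ Λ) (jB : j ≠ B) (eg : e ∈ H g)
    (tm : ∀ y, t y ∈ H y) (tj : t j = a) (tB : t B = a) (K : Fin n → Prop)
    (hK : ∀ z, K z ↔ z ∈ Λ ∧ z ≠ j ∧ z ≠ B)
    (sc : ∀ u v, K u → K v → u ≠ v → (τ u ≤ 1 ∧ τ v ≤ 1) ∨ (1 ≤ τ u ∧ τ u ≤ 2 ∧ 1 ≤ τ v ∧ τ v ≤ 2) ∨
      (3 ≤ τ u ∧ 3 ≤ τ v) → t u ∈ H v ∨ t v ∈ H u)
    (hp : ∀ z, K z → τ z = 0 → p ∈ H z) (pj : p ∈ H j)
    (hj : ∀ z, K z → 1 ≤ τ z → τ z ≤ 2 → t z ∈ H j) (hB : ∀ z, K z → 3 ≤ τ z → t z ∈ H B)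
    (hC : (C = j ∧ ∀ z, K z → τ z ≠ 0) ∨
      (K C ∧ τ C = 0 ∧ t C = p ∧ ∀ z, K z → τ z ≤ 1 → t z ∈ H C))
    (hg : (K g ∧ τ g ≤ 1 ∧ p ∈ H g) ∨ (g ≠ B ∧ ∀ z, K z → τ z = 2 →
      g ≠ j ∧ τ g = 2 ∧ t z ∈ H g ∧ t g ∈ H z)) : Clo H Λ j B g e t := by
  classical
  have CΛ : C ∈ Λ := hC.elim (fun h => h.1 ▸ jΛ) fun h => ((hK C).1 h.1).1
  have k0 : ∀ z, z ∈ Λ ∧ z ≠ j ∧ z ≠ B ∧ z ≠ g ∧ z ≠ C → K z := fun z h =>
    (hK z).2 ⟨h.1, h.2.1, h.2.2.1⟩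
  have c0 : ∀ z, K z → τ z = 0 → C ≠ j ∧ C ≠ B ∧ τ C = 0 ∧ t C = p ∧
      ∀ z, K z → τ z ≤ 1 → t z ∈ H C := fun z h1 h2 => by
    obtain ⟨a1, a2⟩ := hC.resolve_left fun h => h.2 z h1 h2
    exact ⟨((hK C).1 a1).2.1, ((hK C).1 a1).2.2, a2⟩
  rcases hg with ⟨g1, g2, g3⟩ | ⟨g1, g2⟩
  · obtain ⟨-, gj, gB⟩ := (hK g).1 g1
    refine clo_link jΛ BΛ gΛ CΛ eg tm (Or.inr rfl)
      (fun z => if τ z = 0 then C else if 3 ≤ τ z then B else j)
      (fun z => if τ z = 0 then (if t g ∈ H z then C else g) else if 3 ≤ τ z then B else j)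
      ⟨fun z hz => ?_, fun u v hu hv h uv => sc u v (k0 u hu) (k0 v hv) uv ?_⟩ fun n1 n2 n3 => ?_
    · have kz := k0 z hz
      dsimp only
      split_ifs with h1 h2
      · obtain ⟨-, -, -, a1, a2⟩ := c0 z kz h1
        exact ⟨by simp, a2 z kz (by omega), a1 ▸ hp z kz h1⟩
      · exact ⟨by simp, hB z kz h2, tB ▸ hΛ z hz.1⟩
      · exact ⟨by simp, hj z kz (by omega) (by omega), tj ▸ hΛ z hz.1⟩
    · have a1 := c0 u (k0 u hu)
      have a2 := c0 v (k0 v hv)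
      dsimp only at h
      split_ifs at h with h1 h2 h3 h4 h5 h6 h7 h8
      · omega
      · exact absurd h (a1 h1).2.1
      · exact absurd h (a1 h1).1
      · exact absurd h.symm (a2 h5).2.1
      · omega
      · exact absurd h.symm jB
      · exact absurd h.symm (a2 h7).1
      · exact absurd h jB
      · omega
    obtain ⟨-, -, a1, a2⟩ := hC.resolve_left fun h => n1 h.1
    refine ⟨a1 ▸ g3, a2 g g1 g2, fun z hz => ?_,
      fun u v hu hv h uv => sc u v (k0 u hu) (k0 v hv) uv ?_⟩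
    · have kz := k0 z hz
      dsimp only
      split_ifs with h1 h2 h3
      · exact ⟨by simp, a2 z kz (by omega), by rwa [Equiv.swap_apply_right]⟩
      · exact ⟨by simp, (sc z g kz g1 hz.2.2.2.1 (by omega)).resolve_right h2,
          by rw [Equiv.swap_apply_left, a1]; exact hp z kz h1⟩
      · exact ⟨by simp, hB z kz h3,
          by rw [Equiv.swap_apply_of_ne_of_ne gB.symm n2.symm, tB]; exact hΛ z hz.1⟩
      · exact ⟨by simp, hj z kz (by omega) (by omega),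
          by rw [Equiv.swap_apply_of_ne_of_ne gj.symm n1.symm, tj]; exact hΛ z hz.1⟩
    · dsimp only at h
      have := n1.symm
      have := n2.symm
      have := gj.symm
      have := gB.symm
      have := jB.symm
      split_ifs at h <;> omega
  · refine clo_link jΛ BΛ gΛ CΛ eg tm (Or.inl rfl)
      (fun z => if τ z = 0 then C else if τ z = 1 then j else if τ z = 2 then g else B)
      (fun z => if τ z ≤ 1 then C else if τ z = 2 then g else B)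
      ⟨fun z hz => ?_, fun u v hu hv h uv => sc u v (k0 u hu) (k0 v hv) uv ?_⟩ fun n1 n2 n3 => ?_
    · have kz := k0 z hz
      dsimp only
      split_ifs with h1 h2 h3
      · obtain ⟨-, -, -, a1, a2⟩ := c0 z kz h1
        exact ⟨by simp, a2 z kz (by omega), a1 ▸ hp z kz h1⟩
      · exact ⟨by simp, hj z kz (by omega) (by omega), tj ▸ hΛ z hz.1⟩
      · exact ⟨by simp, (g2 z kz h3).2.2⟩
      · exact ⟨by simp, hB z kz (by omega), tB ▸ hΛ z hz.1⟩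
    · have a1 := c0 u (k0 u hu)
      have a2 := c0 v (k0 v hv)
      have a3 := g2 u (k0 u hu)
      have a4 := g2 v (k0 v hv)
      have := g1.symm
      have := jB.symm
      dsimp only at h
      by_cases u0 : τ u = 0
      · obtain ⟨b1, b2, b3, -⟩ := a1 u0
        rw [if_pos u0] at h
        split_ifs at h with h1 h2 h3 <;> first | omega | contradiction | skip
        have := (a4 h3).2.1
        rw [← h] at this
        omega
      by_cases v0 : τ v = 0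
      · obtain ⟨b1, b2, b3, -⟩ := a2 v0
        rw [if_neg u0, if_pos v0, eq_comm] at h
        split_ifs at h with h1 h2 <;> first | omega | contradiction | skip
        have := (a3 h2).2.1
        rw [← h] at this
        omega
      rw [if_neg u0, if_neg v0] at h
      split_ifs at h <;> omega
    obtain ⟨-, -, a1, a2⟩ := hC.resolve_left fun h => n1 h.1
    refine ⟨a1 ▸ pj, tj ▸ hΛ C CΛ, fun z hz => ?_,
      fun u v hu hv h uv => sc u v (k0 u hu) (k0 v hv) uv ?_⟩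
    · have kz := k0 z hz
      dsimp only
      split_ifs with h1 h2
      · exact ⟨by simp, a2 z kz h1, by rw [Equiv.swap_apply_right, tj]; exact hΛ z hz.1⟩
      · obtain ⟨b1, -, b2, b3⟩ := g2 z kz h2
        exact ⟨by simp, b2, by rwa [Equiv.swap_apply_of_ne_of_ne b1 n3.symm]⟩
      · exact ⟨by simp, hB z kz (by omega),
          by rw [Equiv.swap_apply_of_ne_of_ne jB.symm n2.symm, tB]; exact hΛ z hz.1⟩
    · dsimp only at h
      have := n2.symm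
      have := n3.symm
      have := g1.symm
      split_ifs at h <;> omega

/-- the hull alternative for a matching of the labels other than `j` -/
def Alt0 (H : Fin n → Finset X) (a : X) (E : Finset X) (j : Fin n) (t : Fin n → X) : Prop :=
  (∃ z, a ∈ H z ∧ z ≠ j ∧ t z ∈ E) ∨
    ∃ S : Finset (Fin n), (∀ y ∈ S, a ∉ H y) ∧ (∀ y ∈ S, ∀ z, a ∉ H z → t z ∈ H y → z ∈ S) ∧
      (∃ y ∈ S, t y ∈ E) ∧ ∃ h ∈ E, ∀ y ∈ S, h ∉ H y

theorem goal_of {a : X} {E : Finset X} {j B g : Fin n} {s : Fin n → X} (aj : a ∈ H j)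
    (aB : a ∈ H B) (ag : a ∈ H g) (jB : j ≠ B) (sm : ∀ y, y ≠ j → s y ∈ (H y).erase a)
    (si : ∀ y z, y ≠ j → z ≠ j → s y = s z → y = z) (eg : s B ∈ H g) (alt : Alt0 H a E j s)
    (clo : ∀ t : Fin n → X, t j = a → t B = a → (∀ z, z ≠ j → z ≠ B → t z = s z) →
      (∀ y, t y ∈ H y) → Clo H (Thru H a) j B g (s B) t) : Goal H a E := by
  obtain ⟨t, tj, tB, ts⟩ : ∃ t : Fin n → X, t j = a ∧ t B = a ∧
      ∀ z, z ≠ j → z ≠ B → t z = s z :=
    ⟨fun y => if y = j ∨ y = B then a else s y, by simp, by simp, fun z h1 h2 => by simp [h1, h2]⟩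
  have tm : ∀ y, t y ∈ H y ∧ t y ≠ s B := fun y => by
    have := (mem_erase.1 (sm B jB.symm)).1.symm
    by_cases y1 : y = j
    · rw [y1, tj]; exact ⟨aj, this⟩
    by_cases y2 : y = B
    · rw [y2, tB]; exact ⟨aB, this⟩
    · rw [ts y y1 y2]
      exact ⟨mem_of_mem_erase (sm y y1), fun k => y2 (si y B y1 jB.symm k)⟩
  have tu : ∀ y, a ∉ H y → t y = s y := fun y h =>
    ts y (fun k => h (k ▸ aj)) fun k => h (k ▸ aB)
  refine ⟨j, B, g, s B, t, jB, ag, eg, tj, tB, tm, fun y z y2 z2 k => ?_,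
    clo t tj tB ts fun y => (tm y).1, ?_⟩
  · by_cases y1 : y = j <;> by_cases z1 : z = j
    · rw [y1, z1]
    · rw [y1, tj, ts z z1 z2] at k
      exact absurd k.symm (mem_erase.1 (sm z z1)).1
    · rw [z1, tj, ts y y1 y2] at k
      exact absurd k (mem_erase.1 (sm y y1)).1
    · rw [ts y y1 y2, ts z z1 z2] at k
      exact si y z y1 z1 k
  rcases alt with ⟨z, z1, z2, z3⟩ | ⟨S, s1, s2, ⟨y, y1, y2⟩, s3⟩
  · refine Or.inl ⟨s z, z3, ?_⟩
    by_cases k : z = B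
    · exact Or.inl (k ▸ rfl)
    · exact Or.inr ⟨z, mem_filter.2 ⟨mem_univ _, z1⟩, ts z z2 k⟩
  · exact Or.inr ⟨S, s1, fun y hy z h1 h2 => s2 y hy z h1 (tu z h1 ▸ h2),
      ⟨y, y1, tu y (s1 y y1) ▸ y2⟩, s3⟩

/-- Types `0` to `4`: the labels that hold `p`, the three kinds of neutral labels, the labels that
hold `q`.  The label `w` holds `p` and `q`. -/
theorem half2 {a p q : X} {E : Finset X} {j w : Fin n} {s : Fin n → X} (τ : Fin n → ℕ)
    (K : Fin n → Prop) (hK : ∀ z, K z ↔ a ∈ H z ∧ z ≠ j) (aj : a ∈ H j)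
    (sm : ∀ y, y ≠ j → s y ∈ (H y).erase a) (si : ∀ y z, y ≠ j → z ≠ j → s y = s z → y = z)
    (alt : Alt0 H a E j s) (le : ∀ z, τ z ≤ 4)
    (sc : ∀ u v, K u → K v → τ u ≤ τ v + 1 → τ v ≤ τ u + 1 → s u ∈ H v ∨ s v ∈ H u)
    (hp : ∀ z, K z → τ z = 0 → p ∈ H z) (pj : p ∈ H j)
    (hj : ∀ z, K z → 1 ≤ τ z → τ z ≤ 3 → s z ∈ H j)
    (hM : ∀ u v, K u → K v → τ u = 2 → τ v = 2 → s u ∈ H v)
    (hC : (∃ z, K z ∧ τ z = 0) → ∃ C, K C ∧ τ C = 0 ∧ s C = p ∧ ∀ z, K z → τ z ≤ 1 → s z ∈ H C)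
    (hQ : (∃ z, K z ∧ τ z = 4) → ∃ C, K C ∧ τ C = 4 ∧ s C = q ∧ ∀ z, K z → 3 ≤ τ z → s z ∈ H C)
    (hN : (∃ z, K z ∧ 1 ≤ τ z ∧ τ z ≤ 3) → ∃ C, K C ∧ 1 ≤ τ C ∧ τ C ≤ 3 ∧
      ∀ z, K z → 2 ≤ τ z → τ z ≤ 3 → s z ∈ H C)
    (hw : K w ∧ p ∈ H w ∧ q ∈ H w ∧ τ w ≤ 2) : Goal H a E := by
  classical
  have main : ∀ (B g : Fin n) (σ : Fin n → ℕ), K B → a ∈ H g → s B ∈ H g →
      (∀ z, K z → (σ z ≤ 2 → σ z = τ z) ∧ (σ z ≠ 0 → τ z ≠ 0 ∨ τ B = 0)) →
      (∀ u v, K u → K v → 3 ≤ σ u → 3 ≤ σ v → τ u ≤ τ v + 1) →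
      (∀ z, K z → 3 ≤ σ z → s z ∈ H B) → (τ B = 0 → ∀ z, K z → σ z ≠ 0) →
      g ≠ B → ((K g ∧ σ g ≤ 1 ∧ p ∈ H g) ∨ ∀ z, K z → σ z = 2 → K g ∧ σ g = 2) → Goal H a E := by
    intro B g σ kB ag eg s1 s2 s3 s4 gB s5
    obtain ⟨aB, Bj⟩ := (hK B).1 kB
    refine goal_of aj aB ag Bj.symm sm si eg alt fun t tj tB ts tm => ?_
    have mT : ∀ z, z ∈ Thru H a ↔ a ∈ H z := fun z => by simp [Thru]
    have tk : ∀ z, K z ∧ z ≠ B → t z = s z := fun z h => ts z ((hK z).1 h.1).2 h.2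
    obtain ⟨C, c1⟩ : ∃ C, (C = j ∧ ∀ z, K z ∧ z ≠ B → σ z ≠ 0) ∨ ((K C ∧ C ≠ B) ∧ σ C = 0 ∧
        t C = p ∧ ∀ z, K z ∧ z ≠ B → σ z ≤ 1 → t z ∈ H C) := by
      by_cases k : ∃ z, K z ∧ σ z = 0
      · obtain ⟨z, z1, z2⟩ := k
        have b0 : τ B ≠ 0 := fun h => s4 h z z1 z2
        obtain ⟨C, c1, c2, c3, c4⟩ := hC ⟨z, z1, by have := (s1 z z1).1; omega⟩
        have CB : C ≠ B := fun h => b0 (h ▸ c2)
        refine ⟨C, Or.inr ⟨⟨c1, CB⟩, ?_, (tk C ⟨c1, CB⟩).trans c3, fun u hu h =>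
          tk u hu ▸ c4 u hu.1 (by have := (s1 u hu.1).1; omega)⟩⟩
        have := (s1 C c1).2
        omega
      · exact ⟨j, Or.inl ⟨rfl, fun z hz h => k ⟨z, hz.1, h⟩⟩⟩
    refine half (p := p) σ (fun z => (mT z).1) ((mT j).2 aj) ((mT B).2 aB) ((mT g).2 ag) Bj.symm eg
      tm tj tB (fun z => K z ∧ z ≠ B) (fun z => by rw [hK, mT, and_assoc])
      (fun u v hu hv _ h => ?_) (fun z hz h => hp z hz.1 (by have := (s1 z hz.1).1; omega)) pj
      (fun z hz h1 h2 => tk z hz ▸ hj z hz.1 (by have := (s1 z hz.1).1; omega)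
        (by have := (s1 z hz.1).1; omega))
      (fun z hz h => tk z hz ▸ s3 z hz.1 h) c1 ?_
    · rw [tk u hu, tk v hv]
      have a1 := (s1 u hu.1).1
      have a2 := (s1 v hv.1).1
      have a3 := s2 u v hu.1 hv.1
      have a4 := s2 v u hv.1 hu.1
      exact sc u v hu.1 hv.1 (by omega) (by omega)
    · refine s5.imp (fun h => ⟨⟨h.1, gB⟩, h.2⟩) fun h => ⟨gB, fun z hz k => ?_⟩
      obtain ⟨a1, a2⟩ := h z hz.1 k
      have a3 := (s1 z hz.1).1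
      have a4 := (s1 g a1).1
      rw [tk z hz, tk g ⟨a1, gB⟩]
      exact ⟨((hK g).1 a1).2, a2, hM z g hz.1 a1 (by omega) (by omega),
        hM g z a1 hz.1 (by omega) (by omega)⟩
  obtain ⟨w1, w2, w3, w4⟩ := hw
  by_cases q4 : ∃ z, K z ∧ τ z = 4
  · obtain ⟨B, b1, b2, b3, b4⟩ := hQ q4
    refine main B w τ b1 ((hK w).1 w1).1 (b3 ▸ w3) (fun z _ => ⟨fun _ => rfl, Or.inl⟩)
      (fun u v _ _ _ _ => by have := le u; omega) b4 (by omega) (fun h => by rw [h] at w4; omega) ?_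
    by_cases k : τ w ≤ 1
    · exact Or.inl ⟨w1, k, w2⟩
    · exact Or.inr fun _ _ _ => ⟨w1, by omega⟩
  have le3 : ∀ z, K z → τ z ≤ 3 := fun z hz => by
    have := le z
    have : τ z ≠ 4 := fun h => q4 ⟨z, hz, h⟩
    omega
  by_cases n1 : ∃ z, K z ∧ 1 ≤ τ z ∧ τ z ≤ 3
  · obtain ⟨B, b1, b2, b3, b4⟩ := hN n1
    refine main B j (fun z => if τ z ≤ 1 then τ z else 3) b1 aj (hj B b1 b2 b3) (fun z _ => ?_)
      (fun u v hu hv => ?_) (fun z hz h => b4 z hz ?_ (le3 z hz)) (by omega) ((hK B).1 b1).2.symm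
      (Or.inr fun z _ h => ?_)
    · split_ifs <;> omega
    · have := le3 u hu
      split_ifs <;> omega
    · split_ifs at h <;> omega
    · split_ifs at h <;> omega
  have z0 : ∀ z, K z → τ z = 0 := fun z hz => by
    have := le3 z hz
    by_contra k
    exact n1 ⟨z, hz, by omega, this⟩
  obtain ⟨B, b1, b2, b3, b4⟩ := hC ⟨w, w1, z0 w w1⟩
  exact main B j (fun _ => 3) b1 aj (b3 ▸ pj) (fun z _ => ⟨by omega, fun _ => Or.inr b2⟩)
    (fun u v hu _ _ _ => by have := z0 u hu; omega)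
    (fun z hz _ => b4 z hz (by have := z0 z hz; omega)) (fun _ _ _ => by omega)
    ((hK B).1 b1).2.symm (Or.inr fun z _ h => by omega)

end Types

section Matching

variable {X : Type} [DecidableEq X] {n : ℕ} {P : Finset X} {H G : Fin n → Finset X}

theorem memNb {Z : Finset X} {y : Fin n} : y ∈ Nb G Z ↔ ∃ x ∈ Z, x ∈ G y := by simp [Nb]

theorem hall_fix (S : Finset (Fin n)) (K : Fin n → Finset X) (C : Fin n) (c : X) (hc : c ∈ K C)
    (h : ∀ T ⊆ S.erase C, T.card ≤ ((T.biUnion K).erase c).card) :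
    ∃ f : Fin n → X, (∀ y ∈ S, f y ∈ K y) ∧ (∀ y ∈ S, ∀ z ∈ S, f y = f z → y = z) ∧ f C = c := by
  obtain ⟨f, f1, f2⟩ := (all_card_le_biUnion_card_iff_existsInjective'
    (fun y : ↥(S.erase C) => (K y).erase c)).1 fun T => by
      have := h (T.image Subtype.val) fun y hy => by
        obtain ⟨z, -, rfl⟩ := mem_image.1 hy
        exact z.2
      rw [card_image_of_injective _ Subtype.val_injective] at this
      refine this.trans (card_le_card fun x hx => ?_)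
      obtain ⟨x1, x2⟩ := mem_erase.1 hx
      obtain ⟨y, y1, y2⟩ := mem_biUnion.1 x2
      obtain ⟨z, z1, rfl⟩ := mem_image.1 y1
      exact mem_biUnion.2 ⟨z, z1, mem_erase.2 ⟨x1, y2⟩⟩
  refine ⟨fun y => if k : y ∈ S.erase C then f ⟨y, k⟩ else c, fun y hy => ?_,
    fun y hy z hz e => ?_, by simp⟩
  · dsimp only
    split_ifs with k
    · exact mem_of_mem_erase (f2 ⟨y, k⟩)
    · rwa [show y = C from by_contra fun d => k (mem_erase.2 ⟨d, hy⟩)]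
  · dsimp only at e
    split_ifs at e with k1 k2 k2
    · exact congrArg Subtype.val (f1 e)
    · exact absurd e (mem_erase.1 (f2 ⟨y, k1⟩)).1
    · exact absurd e.symm (mem_erase.1 (f2 ⟨z, k2⟩)).1
    · rw [show y = C from by_contra fun d => k1 (mem_erase.2 ⟨d, hy⟩),
        show z = C from by_contra fun d => k2 (mem_erase.2 ⟨d, hz⟩)]

/-- a least tight set that `j` faces: any other label that faces `p` can own it -/
theorem arm {Q U : Finset X} {j C : Fin n} {p : X} (sur : Sur G Q) (hU : U ⊆ Q)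
    (tU : (Nb G U).card ≤ U.card + 1) (jU : j ∈ Nb G U)
    (low : ∀ Z ⊆ U, (Nb G Z).card ≤ Z.card + 1 → j ∈ Nb G Z → U.card ≤ Z.card) (hp : p ∈ U)
    (Cj : C ≠ j) (pC : p ∈ G C) :
    ∃ f : Fin n → X, (∀ y ∈ (Nb G U).erase j, f y ∈ G y ∩ U) ∧
      (∀ y ∈ (Nb G U).erase j, ∀ z ∈ (Nb G U).erase j, f y = f z → y = z) ∧ f C = p := by
  refine hall_fix _ (fun y => G y ∩ U) C p (mem_inter.2 ⟨pC, hp⟩) fun T hT => ?_
  obtain ⟨W, hW⟩ : ∃ W, W = (T.biUnion fun y => G y ∩ U).erase p := ⟨_, rfl⟩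
  have w1 : W ⊆ U.erase p := hW ▸ erase_subset_erase _ (biUnion_subset.2 fun _ _ =>
    inter_subset_right)
  have c1 := card_sdiff_add_card_eq_card w1
  have c2 := card_erase_add_one hp
  have c3 := card_erase_add_one jU
  rw [← hW]
  rcases (U.erase p \ W).eq_empty_or_nonempty with e | e
  · have c4 := card_le_card hT
    have c5 := card_erase_add_one (mem_erase.2 ⟨Cj, memNb.2 ⟨p, hp, pC⟩⟩)
    rw [e, card_empty] at c1
    omega
  have zU : U.erase p \ W ⊆ U := sdiff_subset.trans (erase_subset _ _)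
  have c4 := sur _ (zU.trans hU) e
  have c5 : ((Nb G (U.erase p \ W)).erase j ∪ T).card ≤ ((Nb G U).erase j).card :=
    card_le_card (union_subset (erase_subset_erase _ fun y hy => by
      obtain ⟨x, x1, x2⟩ := memNb.1 hy
      exact memNb.2 ⟨x, zU x1, x2⟩) (hT.trans (erase_subset _ _)))
  rw [card_union_of_disjoint (disjoint_left.2 fun y hy k => by
    obtain ⟨x, x1, x2⟩ := memNb.1 (mem_of_mem_erase hy)
    exact (mem_sdiff.1 x1).2 (hW ▸ mem_erase.2 ⟨(mem_erase.1 (mem_sdiff.1 x1).1).1,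
      mem_biUnion.2 ⟨y, k, mem_inter.2 ⟨x2, zU x1⟩⟩⟩))] at c5
  by_cases k : j ∈ Nb G (U.erase p \ W)
  · have c6 := card_erase_add_one k
    have c7 := fun h => low _ zU h k
    omega
  · rw [erase_eq_of_notMem k] at c5
    omega

/-- labels that miss a point face at least as many points as they are -/
theorem lab {Q : Finset X} (hQ : Q.card + 1 = n) (sur : Sur G Q) (sub : ∀ y, G y ⊆ Q)
    (T : Finset (Fin n)) {x : X} (hx : x ∈ Q) (hT : ∀ y ∈ T, x ∉ G y) :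
    T.card ≤ (T.biUnion G).card := by
  have w1 : T.biUnion G ⊆ Q := biUnion_subset.2 fun y _ => sub y
  have c1 := card_sdiff_add_card_eq_card w1
  have c2 := sur (Q \ T.biUnion G) sdiff_subset ⟨x, mem_sdiff.2 ⟨hx, fun k => by
    obtain ⟨y, y1, y2⟩ := mem_biUnion.1 k
    exact hT y y1 y2⟩⟩
  have c3 := card_le_univ (Nb G (Q \ T.biUnion G) ∪ T)
  rw [card_union_of_disjoint (disjoint_left.2 fun y hy k => by
    obtain ⟨x, x1, x2⟩ := memNb.1 hy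
    exact (mem_sdiff.1 x1).2 (mem_biUnion.2 ⟨y, k, x2⟩)), Fintype.card_fin] at c3
  omega

/-- a set of labels that faces no more points than it has labels has a label through `a` -/
theorem thru (hB : Base P H) {a : X} (aP : a ∈ P) (sub : ∀ y, G y ⊆ (H y).erase a)
    (out : ∀ y, a ∉ H y → G y = H y) (S : Finset (Fin n)) (hS : S.Nonempty) (W : Finset X)
    (hW : W ⊆ P.erase a) (h1 : ∀ y ∈ S, G y ⊆ W) (h2 : W.card ≤ S.card) :
    ∃ z ∈ S, a ∈ H z := by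
  by_contra k
  push Not at k
  have c1 := inside_le hB W (hW.trans (erase_subset _ _))
    (fun e => notMem_erase a P (hW (e ▸ aP))) S fun y hy => out y (k y hy) ▸ h1 y hy
  have := hS.card_pos
  have := sub
  omega

/-- the labels that miss a tight set: a label through `a` among them owns a point of `E` -/
theorem rest (hB : Base P H) {a : X} (aP : a ∈ P) (sub : ∀ y, G y ⊆ (H y).erase a)
    (out : ∀ y, a ∉ H y → G y = H y) (sur : Sur G (P.erase a)) {E U : Finset X}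
    (hU : U ⊆ P.erase a) (tU : (Nb G U).card ≤ U.card + 1) (hne : U.Nonempty)
    (hull : ∀ y, a ∈ H y → y ∉ Nb G U → (G y).Nonempty → ∃ h ∈ E, h ∈ G y)
    (h0 : (Nb G U)ᶜ.Nonempty) :
    ∃ f : Fin n → X, (∀ y ∈ (Nb G U)ᶜ, f y ∈ G y) ∧
      (∀ y ∈ (Nb G U)ᶜ, ∀ z ∈ (Nb G U)ᶜ, f y = f z → y = z) ∧
      ∃ z ∈ (Nb G U)ᶜ, a ∈ H z ∧ f z ∈ E := by
  have c0 := card_erase_add_one aP
  rw [hB.card] at c0
  have gs : ∀ y, G y ⊆ P.erase a := fun y => (sub y).trans (erase_subset_erase _ (hB.sub y))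
  obtain ⟨x, hx⟩ := hne
  have lb : ∀ T ⊆ (Nb G U)ᶜ, T.card ≤ (T.biUnion G).card := fun T hT =>
    lab c0 sur gs T (hU hx) fun y hy k => mem_compl.1 (hT hy) (memNb.2 ⟨x, hx, k⟩)
  obtain ⟨S, hS, low⟩ := exists_min_image
    ((Nb G U)ᶜ.powerset.filter fun S => S.Nonempty ∧ (S.biUnion G).card ≤ S.card) card
    ⟨(Nb G U)ᶜ, mem_filter.2 ⟨mem_powerset_self _, h0, by
      have c1 : ((Nb G U)ᶜ.biUnion G).card ≤ (P.erase a \ U).card :=
        card_le_card (biUnion_subset.2 fun y hy z hz => mem_sdiff.2 ⟨gs y hz, fun k =>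
          mem_compl.1 hy (memNb.2 ⟨z, k, hz⟩)⟩)
      have c2 := card_sdiff_add_card_eq_card hU
      have c3 := card_add_card_compl (Nb G U)
      rw [Fintype.card_fin] at c3
      omega⟩⟩
  obtain ⟨s1, s2, s3⟩ := mem_filter.1 hS
  rw [mem_powerset] at s1
  obtain ⟨z, z1, z2⟩ := thru hB aP sub out S s2 (S.biUnion G) (biUnion_subset.2 fun y _ => gs y)
    (fun y hy => subset_biUnion_of_mem G hy) s3
  obtain ⟨h, h1, h2⟩ := hull z z2 (mem_compl.1 (s1 z1)) (card_pos.1 (by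
    have := lb {z} (singleton_subset_iff.2 (s1 z1))
    rwa [card_singleton, singleton_biUnion] at this))
  obtain ⟨f, f1, f2, f3⟩ := hall_fix (Nb G U)ᶜ G z h h2 fun T hT => by
    have T1 := hT.trans (erase_subset _ _)
    have c1 := lb T T1
    by_cases k : h ∈ T.biUnion G
    swap
    · rwa [erase_eq_of_notMem k]
    have c2 := card_erase_add_one k
    have c3 := lb (T ∪ S) (union_subset T1 s1)
    have c4 := card_union_add_card_inter T S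
    have c5 := card_union_add_card_inter (T.biUnion G) (S.biUnion G)
    rw [← union_biUnion] at c5
    have c6 := card_pos.2 ⟨h, mem_inter.2 ⟨k, mem_biUnion.2 ⟨z, z1, h2⟩⟩⟩
    have c7 : ((T ∩ S).biUnion G).card ≤ (T.biUnion G ∩ S.biUnion G).card :=
      card_le_card (subset_inter (biUnion_subset_biUnion_of_subset_left _ inter_subset_left)
        (biUnion_subset_biUnion_of_subset_left _ inter_subset_right))
    have c8 : (T ∩ S).card < S.card := card_lt_card ⟨inter_subset_right, fun d =>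
      notMem_erase z _ (hT (mem_inter.1 (d z1)).1)⟩
    by_contra d
    have := low (T ∩ S) (mem_filter.2 ⟨mem_powerset.2 (inter_subset_right.trans s1),
      card_pos.1 (by omega), by omega⟩)
    omega
  exact ⟨f, f1, f2, z, s1 z1, z2, f3 ▸ h1⟩

theorem mat (hB : Base P H) {a p q : X} (aP : a ∈ P) (sub : ∀ y, G y ⊆ (H y).erase a)
    (out : ∀ y, a ∉ H y → G y = H y) (sur : Sur G (P.erase a)) {E U V : Finset X}
    {j C D : Fin n} (aj : a ∈ H j) (hU : U ⊆ P.erase a) (hV : V ⊆ P.erase a)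
    (tU : (Nb G U).card ≤ U.card + 1) (tV : (Nb G V).card ≤ V.card + 1) (jU : j ∈ Nb G U)
    (jV : j ∈ Nb G V) (tW : (Nb G (U ∪ V)).card ≤ (U ∪ V).card + 1)
    (one : ∀ z ∈ Nb G U, z ∈ Nb G V → z = j)
    (lU : ∀ Z ⊆ U, (Nb G Z).card ≤ Z.card + 1 → j ∈ Nb G Z → U.card ≤ Z.card)
    (lV : ∀ Z ⊆ V, (Nb G Z).card ≤ Z.card + 1 → j ∈ Nb G Z → V.card ≤ Z.card)
    (hp : p ∈ U) (hq : q ∈ V) (Cj : C ≠ j) (Dj : D ≠ j) (pC : p ∈ G C) (qD : q ∈ G D)
    (hull : ∀ y, a ∈ H y → y ≠ j → (G y).Nonempty → ∃ h ∈ E, h ∈ G y) :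
    ∃ s : Fin n → X, (∀ y, y ≠ j → s y ∈ G y ∧ (y ∈ Nb G U → s y ∈ U) ∧ (y ∈ Nb G V → s y ∈ V)) ∧
      (∀ y z, y ≠ j → z ≠ j → s y = s z → y = z) ∧ s C = p ∧ s D = q ∧ Alt0 H a E j s := by
  have c0 := card_erase_add_one aP
  rw [hB.card] at c0
  have gs : ∀ y, G y ⊆ P.erase a := fun y => (sub y).trans (erase_subset_erase _ (hB.sub y))
  have nb : ∀ y, y ∈ Nb G (U ∪ V) ↔ y ∈ Nb G U ∨ y ∈ Nb G V := fun y => by
    simp only [memNb, mem_union, or_and_right, exists_or]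
  obtain ⟨f, f1, f2, f3⟩ := arm sur hU tU jU lU hp Cj pC
  obtain ⟨g, g1, g2, g3⟩ := arm sur hV tV jV lV hq Dj qD
  obtain ⟨r, r1, r2, r3⟩ : ∃ r : Fin n → X, (∀ y ∈ (Nb G (U ∪ V))ᶜ, r y ∈ G y) ∧
      (∀ y ∈ (Nb G (U ∪ V))ᶜ, ∀ z ∈ (Nb G (U ∪ V))ᶜ, r y = r z → y = z) ∧
      ((Nb G (U ∪ V))ᶜ.Nonempty → ∃ z ∈ (Nb G (U ∪ V))ᶜ, a ∈ H z ∧ r z ∈ E) := by
    rcases (Nb G (U ∪ V))ᶜ.eq_empty_or_nonempty with e | e
    · exact ⟨f, by simp [e], by simp [e], by simp [e]⟩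
    · obtain ⟨r, r1, r2, r3⟩ := rest hB aP sub out sur (union_subset hU hV) tW
        ⟨p, mem_union_left _ hp⟩ (fun y h1 h2 => hull y h1 fun k => h2 ((nb y).2 (Or.inl (k ▸ jU))))
        e
      exact ⟨r, r1, r2, fun _ => r3⟩
  obtain ⟨s, s1, s2, s3⟩ : ∃ s : Fin n → X, (∀ y ∈ (Nb G U).erase j, s y = f y) ∧
      (∀ y ∈ (Nb G V).erase j, s y = g y) ∧ ∀ y ∈ (Nb G (U ∪ V))ᶜ, s y = r y := by
    refine ⟨fun y => if y ∈ Nb G U then f y else if y ∈ Nb G V then g y else r y,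
      fun y hy => if_pos (mem_of_mem_erase hy), fun y hy => ?_, fun y hy => ?_⟩
    · exact (if_neg fun k => (mem_erase.1 hy).1 (one y k (mem_erase.1 hy).2)).trans
        (if_pos (mem_erase.1 hy).2)
    · rw [mem_compl, nb, not_or] at hy
      exact (if_neg hy.1).trans (if_neg hy.2)
  have mU : ∀ y, y ≠ j → y ∈ Nb G U → s y ∈ G y ∩ U := fun y h1 h2 =>
    s1 y (mem_erase.2 ⟨h1, h2⟩) ▸ f1 y (mem_erase.2 ⟨h1, h2⟩)
  have mV : ∀ y, y ≠ j → y ∈ Nb G V → s y ∈ G y ∩ V := fun y h1 h2 =>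
    s2 y (mem_erase.2 ⟨h1, h2⟩) ▸ g1 y (mem_erase.2 ⟨h1, h2⟩)
  have mR : ∀ y, y ∉ Nb G U → y ∉ Nb G V → y ∈ (Nb G (U ∪ V))ᶜ := fun y h1 h2 =>
    mem_compl.2 fun k => ((nb y).1 k).elim h1 h2
  have sm : ∀ y, y ≠ j → s y ∈ G y := fun y hy => by
    by_cases k1 : y ∈ Nb G U
    · exact (mem_inter.1 (mU y hy k1)).1
    by_cases k2 : y ∈ Nb G V
    · exact (mem_inter.1 (mV y hy k2)).1
    · exact s3 y (mR y k1 k2) ▸ r1 y (mR y k1 k2)
  have si : ∀ y z, y ≠ j → z ≠ j → s y = s z → y = z := fun y z hy hz e => by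
    have tr : ∀ W, ∀ y z, z ≠ j → s y = s z → s y ∈ G y ∩ W → z ∈ Nb G W := fun W y z hz e k =>
      memNb.2 ⟨s z, e ▸ (mem_inter.1 k).2, sm z hz⟩
    by_cases k1 : y ∈ Nb G U
    · have a1 := mem_erase.2 ⟨hy, k1⟩
      have a2 := mem_erase.2 ⟨hz, tr U y z hz e (mU y hy k1)⟩
      exact f2 y a1 z a2 (by rw [← s1 y a1, ← s1 z a2, e])
    by_cases k2 : y ∈ Nb G V
    · have a1 := mem_erase.2 ⟨hy, k2⟩
      have a2 := mem_erase.2 ⟨hz, tr V y z hz e (mV y hy k2)⟩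
      exact g2 y a1 z a2 (by rw [← s2 y a1, ← s2 z a2, e])
    · have a1 := mR y k1 k2
      have a2 := mR z (fun k => k1 (tr U z y hy e.symm (mU z hz k)))
        fun k => k2 (tr V z y hy e.symm (mV z hz k))
      exact r2 y a1 z a2 (by rw [← s3 y a1, ← s3 z a2, e])
  refine ⟨s, fun y hy => ⟨sm y hy, fun k => (mem_inter.1 (mU y hy k)).2,
    fun k => (mem_inter.1 (mV y hy k)).2⟩, si,
    (s1 C (mem_erase.2 ⟨Cj, memNb.2 ⟨p, hp, pC⟩⟩)).trans f3,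
    (s2 D (mem_erase.2 ⟨Dj, memNb.2 ⟨q, hq, qD⟩⟩)).trans g3, ?_⟩
  rcases (Nb G (U ∪ V))ᶜ.eq_empty_or_nonempty with e | e
  swap
  · obtain ⟨z, z1, z2, z3⟩ := r3 e
    exact Or.inl ⟨z, z2, fun k => mem_compl.1 z1 ((nb z).2 (Or.inl (k ▸ jU))), s3 z z1 ▸ z3⟩
  have all : U ∪ V = P.erase a := eq_of_subset_of_card_le (union_subset hU hV) (by
    have c3 := card_add_card_compl (Nb G (U ∪ V))
    rw [Fintype.card_fin, e, card_empty] at c3
    omega)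
  have top : ∀ U V : Finset X, U ∪ V = P.erase a → U.Nonempty → j ∈ Nb G U →
      (∀ z ∈ Nb G U, z ∈ Nb G V → z = j) → ∃ h ∈ E, h ∈ U ∧ ∃ z, z ≠ j ∧ h ∈ G z := by
    intro U V all ne jU one
    have hU : U ⊆ P.erase a := all ▸ subset_union_left
    have c1 := sur U hU ne
    have c2 := card_erase_add_one jU
    have c3 := ne.card_pos
    have ins : ∀ y ∈ (Nb G U).erase j, G y ⊆ U := fun y hy x hx =>
      (mem_union.1 (all ▸ gs y hx)).resolve_right fun k =>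
        (mem_erase.1 hy).1 (one y (mem_erase.1 hy).2 (memNb.2 ⟨x, k, hx⟩))
    obtain ⟨z, z1, z2⟩ := thru hB aP sub out ((Nb G U).erase j) (card_pos.1 (by omega)) U hU ins
      (by omega)
    obtain ⟨x, -, hx⟩ := memNb.1 (mem_erase.1 z1).2
    obtain ⟨h, h1, h2⟩ := hull z z2 (mem_erase.1 z1).1 ⟨x, hx⟩
    exact ⟨h, h1, ins z z1 h2, z, (mem_erase.1 z1).1, h2⟩
  obtain ⟨h, h1, h2, -⟩ := top U V all ⟨p, hp⟩ jU one
  obtain ⟨k, k1, k2, -⟩ := top V U (union_comm U V ▸ all) ⟨q, hq⟩ jV fun z a b => one z b a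
  have im : (univ.erase j).image s = P.erase a := eq_of_subset_of_card_le (fun x hx => by
      obtain ⟨y, hy, rfl⟩ := mem_image.1 hx
      exact gs y (sm y (mem_erase.1 hy).1)) (by
    rw [card_image_of_injOn fun y hy z hz => si y z (mem_erase.1 hy).1 (mem_erase.1 hz).1]
    have := card_erase_add_one (mem_univ j)
    rw [card_univ, Fintype.card_fin] at this
    omega)
  obtain ⟨y, y1, rfl⟩ := mem_image.1 (im ▸ hU h2)
  have yj := (mem_erase.1 y1).1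
  by_cases ay : a ∈ H y
  · exact Or.inl ⟨y, ay, yj, h1⟩
  refine Or.inr ⟨univ.filter fun y => a ∉ H y ∧ y ∉ Nb G V, fun y hy => (mem_filter.1 hy).2.1,
    fun y hy z az hz => mem_filter.2 ⟨mem_univ _, az, fun d => ?_⟩,
    ⟨y, mem_filter.2 ⟨mem_univ _, ay, fun d => yj (one y (memNb.2 ⟨_, h2, sm y yj⟩) d)⟩, h1⟩,
    k, k1, fun y hy d => ?_⟩
  · obtain ⟨-, a1, a2⟩ := mem_filter.1 hy
    exact a2 (memNb.2 ⟨_, (mem_inter.1 (mV z (fun c => az (c ▸ aj)) d)).2, out y a1 ▸ hz⟩)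
  · obtain ⟨-, a1, a2⟩ := mem_filter.1 hy
    exact a2 (memNb.2 ⟨_, k2, out y a1 ▸ d⟩)

end Matching

section Angles

/-- `x` lies in the open half circle that starts at `l` -/
def Inn (l x : ℝ) : Prop := (l < x ∧ x < l + 1 / 2) ∨ x + 1 / 2 < l

/-- the type of a label with start `l` and tail `x` -/
def Ty (f l x : ℝ) (k : ℕ) : Prop :=
  x < 1 ∧ ((k = 0 ∧ f < l ∧ (x = 0 ∨ l < x)) ∨
    (k = 4 ∧ f < l + 1 / 2 ∧ l ≤ 1 / 2 ∧ l < f ∧ f ≤ x ∧ x < l + 1 / 2) ∨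
    (0 < l ∧ l + 1 / 2 ≤ f ∧ l < x ∧ x < l + 1 / 2 ∧ ((k = 1 ∧ x + 1 / 2 ≤ f) ∨
      (k = 2 ∧ f < x + 1 / 2 ∧ x ≤ 1 / 2) ∨ (k = 3 ∧ f < x + 1 / 2 ∧ 1 / 2 < x))))

theorem inn_iff (x l p : ℝ) : (Arc l (1 / 2) x ↔ Inn (Int.fract (l - p)) (Int.fract (x - p))) ∧
    (Int.fract (x - l) ≠ 0 → Int.fract (x - p) ≠ Int.fract (l - p)) := by
  have a1 := Int.fract_nonneg (x - p)
  have a2 := Int.fract_lt_one (x - p)
  have a3 := Int.fract_nonneg (l - p)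
  have a4 := Int.fract_lt_one (l - p)
  have a5 := Int.floor_add_fract (x - p)
  have a6 := Int.floor_add_fract (l - p)
  unfold Arc Inn
  rcases le_or_gt (Int.fract (l - p)) (Int.fract (x - p)) with h | h
  · rw [show Int.fract (x - l) = Int.fract (x - p) - Int.fract (l - p) from
      Int.fract_eq_iff.2 ⟨by linarith, by linarith, ⌊x - p⌋ - ⌊l - p⌋, by push_cast; linarith⟩]
    exact ⟨⟨fun k => Or.inl ⟨by linarith [k.1], by linarith [k.2]⟩, fun k => k.elim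
      (fun k => ⟨by linarith [k.1], by linarith [k.2]⟩) fun k => by linarith⟩, sub_ne_zero.1⟩
  · rw [show Int.fract (x - l) = Int.fract (x - p) - Int.fract (l - p) + 1 from
      Int.fract_eq_iff.2 ⟨by linarith, by linarith, ⌊x - p⌋ - ⌊l - p⌋ - 1, by push_cast; linarith⟩]
    exact ⟨⟨fun k => Or.inr (by linarith [k.2]), fun k => k.elim
      (fun k => by linarith [k.1]) fun k => ⟨by linarith, by linarith⟩⟩, fun _ => h.ne⟩

theorem Ty.low {f l x l' x' : ℝ} {k k' : ℕ} (hf : 1 / 2 ≤ f) (h1 : f < 1) (h : Ty f l x k)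
    (h' : Ty f l' x' k')
    (c : (k = 0 ∧ k' = 1) ∨ (k = 0 ∧ k' = 0 ∧ l ≤ l') ∨
      (1 ≤ k ∧ k ≤ 3 ∧ 1 ≤ k' ∧ k' ≤ 2 ∧ l ≤ l') ∨ (1 ≤ k ∧ k ≤ 3 ∧ k' = 2) ∨
      (1 ≤ k ∧ k ≤ 3 ∧ 2 ≤ k' ∧ k' ≤ 3 ∧ l' ≤ l) ∨ (k = 4 ∧ k' = 4 ∧ l' ≤ l) ∨ (k = 4 ∧ k' = 3)) :
    Inn l x' := by
  obtain ⟨-, ⟨a, a1, -⟩ | ⟨a, a1, a2, a3, -⟩ | ⟨a1, a2, -, -, a⟩⟩ := h
  · obtain ⟨b0, ⟨b, b1, b2 | b2⟩ | ⟨b, -⟩ | ⟨-, -, -, -, ⟨b, b1⟩ | ⟨b, -⟩ | ⟨b, -⟩⟩⟩ := h'
    · exact Or.inr (by linarith)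
    · have : l ≤ l' := by rcases c with c | c | c | c | c | c | c <;> first | omega | exact c.2.2
      exact Or.inl ⟨by linarith, by linarith⟩
    · rcases c with c | c | c | c | c | c | c <;> omega
    · exact Or.inr (by linarith)
    · rcases c with c | c | c | c | c | c | c <;> omega
    · rcases c with c | c | c | c | c | c | c <;> omega
  · obtain ⟨b0, ⟨b, -⟩ | ⟨b, -, -, -, b1, b2⟩ | ⟨-, b1, -, b2, ⟨b, -⟩ | ⟨b, -⟩ | ⟨b, -, b3⟩⟩⟩ := h'
    · rcases c with c | c | c | c | c | c | c <;> omega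
    · have : l' ≤ l := by rcases c with c | c | c | c | c | c | c <;> first | omega | exact c.2.2
      exact Or.inl ⟨by linarith, by linarith⟩
    · rcases c with c | c | c | c | c | c | c <;> omega
    · rcases c with c | c | c | c | c | c | c <;> omega
    · exact Or.inl ⟨by linarith, by linarith⟩
  · have a0 : 1 ≤ k ∧ k ≤ 3 := by rcases a with a | a | a <;> omega
    obtain ⟨b0, ⟨b, -⟩ | ⟨b, -⟩ | ⟨-, -, b1, b2, ⟨b, b3⟩ | ⟨b, b3, b4⟩ | ⟨b, b3, b4⟩⟩⟩ := h'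
    · rcases c with c | c | c | c | c | c | c <;> omega
    · rcases c with c | c | c | c | c | c | c <;> omega
    · have : l ≤ l' := by
        rcases c with c | c | c | c | c | c | c <;> first | omega | exact c.2.2.2.2
      exact Or.inl ⟨by linarith, by linarith⟩
    · exact Or.inl ⟨by linarith, by linarith⟩
    · have : l' ≤ l := by
        rcases c with c | c | c | c | c | c | c <;> first | omega | exact c.2.2.2.2
      exact Or.inl ⟨by linarith, by linarith⟩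

theorem jumper : JumperS := by
  intro X _ n P H G a E ang lo j p f U0 V0 hB hJ
  classical
  obtain ⟨f1, f2⟩ := hJ.wide
  have gs : ∀ y, G y ⊆ P.erase a := fun y => (hJ.sub y).trans (erase_subset_erase _ (hB.sub y))
  have gh : ∀ y, ∀ x ∈ G y, x ∈ H y := fun y x hx => mem_of_mem_erase (hJ.sub y hx)
  have least : ∀ U : Finset X, (Nb G U).card ≤ U.card + 1 → j ∈ Nb G U → ∃ W ⊆ U,
      (Nb G W).card ≤ W.card + 1 ∧ j ∈ Nb G W ∧
      ∀ Z ⊆ W, (Nb G Z).card ≤ Z.card + 1 → j ∈ Nb G Z → W.card ≤ Z.card := fun U h1 h2 => by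
    obtain ⟨W, w1, w2⟩ := exists_min_image
      (U.powerset.filter fun W => (Nb G W).card ≤ W.card + 1 ∧ j ∈ Nb G W) card
      ⟨U, mem_filter.2 ⟨mem_powerset_self _, h1, h2⟩⟩
    obtain ⟨a1, a2, a3⟩ := mem_filter.1 w1
    rw [mem_powerset] at a1
    exact ⟨W, a1, a2, a3, fun Z z1 z2 z3 =>
      w2 Z (mem_filter.2 ⟨mem_powerset.2 (z1.trans a1), z2, z3⟩)⟩
  obtain ⟨U, u0, u1, u2, u3⟩ := least U0 hJ.tU.2.1 hJ.tU.2.2.1
  obtain ⟨V, v0, v1, v2, v3⟩ := least V0 hJ.tV.2.1 hJ.tV.2.2.1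
  have hU := u0.trans hJ.tU.1
  have hV := v0.trans hJ.tV.1
  obtain ⟨u, hu⟩ : ∃ u : X → ℝ, ∀ x, u x = Int.fract (ang x - p) := ⟨_, fun _ => rfl⟩
  obtain ⟨l, hl⟩ : ∃ l : Fin n → ℝ, ∀ y, l y = Int.fract (lo y - p) := ⟨_, fun _ => rfl⟩
  obtain ⟨K, hK⟩ : ∃ K : Fin n → Prop, ∀ z, K z ↔ a ∈ H z ∧ z ≠ j := ⟨_, fun _ => Iff.rfl⟩
  have tu : ∀ x ∈ U, x ∈ G j → u x = 0 := fun x h1 h2 => hu x ▸ hJ.tU.2.2.2 x (u0 h1) h2
  have tv : ∀ x ∈ V, x ∈ G j → u x = f := fun x h1 h2 => hu x ▸ hJ.tV.2.2.2 x (v0 h1) h2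
  have ja : ∀ x ∈ P.erase a, u x ≤ f → x ∈ G j := fun x h1 h2 => hJ.jarc x h1 (hu x ▸ h2)
  have ar : ∀ y, K y → ∀ x ∈ P.erase a, (x ∈ G y ↔ Inn (l y) (u x)) ∧ u x ≠ l y :=
    fun y hy x hx => by
      obtain ⟨y1, y2⟩ := (hK y).1 hy
      rw [hu, hl]
      exact ⟨(hJ.arc y y1 y2 x hx).trans (inn_iff _ _ p).1, (inn_iff _ _ p).2 (hJ.gen y y1 y2 x hx)⟩
  have u01 : ∀ x, 0 ≤ u x ∧ u x < 1 := fun x =>
    hu x ▸ ⟨Int.fract_nonneg _, Int.fract_lt_one _⟩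
  have l01 : ∀ y, 0 ≤ l y ∧ l y < 1 := fun y =>
    hl y ▸ ⟨Int.fract_nonneg _, Int.fract_lt_one _⟩
  clear hu hl
  obtain ⟨p0, p1, p2⟩ := memNb.1 u2
  obtain ⟨q0, q1, q2⟩ := memNb.1 v2
  have p3 := tu p0 p1 p2
  have q3 := tv q0 q1 q2
  obtain ⟨tW, -, one⟩ := tight_union (K := G) (Y := univ) hJ.sur hU hV u1 v1 u2 v2 fun k => by
    obtain ⟨x, x1, x2⟩ := memNb.1 k
    linarith [tu x (mem_inter.1 x1).1 x2, tv x (mem_inter.1 x1).2 x2]
  have pP : ∀ y, K y → 1 / 2 < l y → p0 ∈ G y := fun y hy h =>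
    (ar y hy p0 (hU p1)).1.2 (Or.inr (by linarith))
  have qQ : ∀ y, K y → l y ≤ 1 / 2 → f < l y + 1 / 2 → q0 ∈ G y ∧ l y < f := fun y hy h1 h2 =>
    have : l y < f := (h1.trans f1).lt_of_ne fun k => (ar y hy q0 (hV q1)).2 (q3.trans k.symm)
    ⟨(ar y hy q0 (hV q1)).1.2 (Or.inl ⟨by linarith, by linarith⟩), this⟩
  have other : ∀ x ∈ P.erase a, ∃ C, C ≠ j ∧ x ∈ G C := fun x hx => by
    obtain ⟨C, c1, c2⟩ := exists_mem_ne (s := Nb G {x})
      (hJ.sur {x} (singleton_subset_iff.2 hx) (singleton_nonempty x)) j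
    obtain ⟨y, y1, y2⟩ := memNb.1 c1
    exact ⟨C, c2, mem_singleton.1 y1 ▸ y2⟩
  obtain ⟨C, Cj, pC, hC⟩ : ∃ C, C ≠ j ∧ p0 ∈ G C ∧
      ∀ y, K y → 1 / 2 < l y → K C ∧ 1 / 2 < l C ∧ l C ≤ l y := by
    rcases (univ.filter fun y => K y ∧ 1 / 2 < l y).eq_empty_or_nonempty with e | e
    · obtain ⟨C, c1, c2⟩ := other p0 (hU p1)
      exact ⟨C, c1, c2, fun y a1 a2 => absurd ⟨a1, a2⟩ (filter_eq_empty_iff.1 e (mem_univ y))⟩
    · obtain ⟨C, c1, c2⟩ := exists_min_image _ l e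
      obtain ⟨-, c3, c4⟩ := mem_filter.1 c1
      exact ⟨C, ((hK C).1 c3).2, pP C c3 c4, fun y a1 a2 =>
        ⟨c3, c4, c2 y (mem_filter.2 ⟨mem_univ _, a1, a2⟩)⟩⟩
  obtain ⟨D, Dj, qD, hD⟩ : ∃ D, D ≠ j ∧ q0 ∈ G D ∧ ∀ y, K y → l y ≤ 1 / 2 → f < l y + 1 / 2 →
      K D ∧ l D ≤ 1 / 2 ∧ l y ≤ l D := by
    rcases (univ.filter fun y => K y ∧ l y ≤ 1 / 2 ∧ f < l y + 1 / 2).eq_empty_or_nonempty with
      e | e
    · obtain ⟨C, c1, c2⟩ := other q0 (hV q1)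
      exact ⟨C, c1, c2, fun y a1 a2 a3 =>
        absurd ⟨a1, a2, a3⟩ (filter_eq_empty_iff.1 e (mem_univ y))⟩
    · obtain ⟨C, c1, c2⟩ := exists_max_image _ l e
      obtain ⟨-, c3, c4, c5⟩ := mem_filter.1 c1
      exact ⟨C, ((hK C).1 c3).2, (qQ C c3 c4 c5).1, fun y a1 a2 a3 =>
        ⟨c3, c4, c2 y (mem_filter.2 ⟨mem_univ _, a1, a2, a3⟩)⟩⟩
  obtain ⟨s, s1, si, sC, sD, alt⟩ := mat hB hJ.mem hJ.sub hJ.out hJ.sur hJ.thr hU hV u1 v1 u2 v2
    tW one u3 v3 p1 q1 Cj Dj pC qD hJ.hull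
  obtain ⟨τ, hτ⟩ : ∃ τ : Fin n → ℕ, ∀ y, τ y = if 1 / 2 < l y then 0 else if f < l y + 1 / 2 then 4
      else if u (s y) + 1 / 2 ≤ f then 1 else if u (s y) ≤ 1 / 2 then 2 else 3 :=
    ⟨_, fun _ => rfl⟩
  have le : ∀ z, τ z ≤ 4 := fun z => by rw [hτ]; split_ifs <;> omega
  have t0 : ∀ z, τ z = 0 ↔ 1 / 2 < l z := fun z => by
    rw [hτ]
    split_ifs with h1
    · exact iff_of_true (by simp) h1
    all_goals exact iff_of_false (by simp) h1
  have t4 : ∀ z, τ z = 4 ↔ l z ≤ 1 / 2 ∧ f < l z + 1 / 2 := fun z => by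
    rw [hτ]
    split_ifs with h1 h2
    · exact iff_of_false (by simp) fun k => k.1.not_gt h1
    · exact iff_of_true (by simp) ⟨not_lt.1 h1, h2⟩
    all_goals exact iff_of_false (by simp) fun k => h2 k.2
  have sQ : ∀ y, K y → s y ∈ P.erase a := fun y hy => gs y (s1 y ((hK y).1 hy).2).1
  have ty : ∀ y, K y → Ty f (l y) (u (s y)) (τ y) := fun y hy => by
    obtain ⟨a1, a2, a3⟩ := s1 y ((hK y).1 hy).2
    have a4 := (ar y hy _ (sQ y hy)).1.1 a1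
    have a5 := l01 y
    refine ⟨(u01 _).2, ?_⟩
    rw [hτ]
    split_ifs with h1 h2 h3 h4
    · have b1 := memNb.2 ⟨p0, p1, pP y hy h1⟩
      have b2 : f < l y := lt_of_le_of_ne (not_lt.1 fun k => ((hK y).1 hy).2 (one y b1 (memNb.2
        ⟨q0, q1, (ar y hy q0 (hV q1)).1.2 (Or.inl ⟨by linarith, by linarith⟩)⟩)))
        (q3 ▸ (ar y hy q0 (hV q1)).2)
      refine Or.inl ⟨rfl, b2, ?_⟩
      rcases le_or_gt (u (s y)) f with k | k
      · exact Or.inl (tu _ (a2 b1) (ja _ (sQ y hy) k))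
      · exact Or.inr (a4.elim And.left fun c => by linarith)
    · obtain ⟨b1, b2⟩ := qQ y hy (not_lt.1 h1) h2
      refine Or.inr (Or.inl ⟨rfl, h2, not_lt.1 h1, b2, ?_,
        a4.elim And.right fun c => by linarith⟩)
      rcases le_total (u (s y)) f with k | k
      · exact (tv _ (a3 (memNb.2 ⟨q0, q1, b1⟩)) (ja _ (sQ y hy) k)).ge
      · exact k
    all_goals
      have b1 : 0 < l y := a5.1.lt_of_ne (p3 ▸ (ar y hy p0 (hU p1)).2)
      obtain ⟨b2, b3⟩ := a4.resolve_right fun c => by linarith [(u01 (s y)).1]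
      refine Or.inr (Or.inr ⟨b1, not_lt.1 h2, b2, b3, ?_⟩)
    · exact Or.inl ⟨rfl, h3⟩
    · exact Or.inr (Or.inl ⟨rfl, not_le.1 h3, h4⟩)
    · exact Or.inr (Or.inr ⟨rfl, not_le.1 h3, not_le.1 h4⟩)
  clear hτ
  have hold := fun y z (hy : K y) (hz : K z) c =>
    gh y _ ((ar y hy _ (sQ z hz)).1.2 ((ty y hy).low f1 f2 (ty z hz) c))
  have sc : ∀ y z, K y → K z → τ y ≤ τ z + 1 → τ z ≤ τ y + 1 → s y ∈ H z ∨ s z ∈ H y := by
    have one : ∀ y z, K y → K z → τ y ≤ τ z → τ z ≤ τ y + 1 → s y ∈ H z ∨ s z ∈ H y := by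
      intro y z hy hz h1 h2
      have := le z
      have c : (τ y = 0 ∧ τ z = 0) ∨ (τ y = 0 ∧ τ z = 1) ∨ (1 ≤ τ y ∧ τ z ≤ 2) ∨
        (2 ≤ τ y ∧ τ z ≤ 3) ∨ (τ y = 3 ∧ τ z = 4) ∨ (τ y = 4 ∧ τ z = 4) := by omega
      rcases le_total (l y) (l z) with k | k <;> rcases c with c | c | c | c | c | c
      · exact Or.inr (hold y z hy hz (by simp [c, k]))
      · exact Or.inr (hold y z hy hz (by simp [c]))
      · exact Or.inr (hold y z hy hz (Or.inr (Or.inr (Or.inl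
          ⟨by omega, by omega, by omega, by omega, k⟩))))
      · exact Or.inl (hold z y hz hy (Or.inr (Or.inr (Or.inr (Or.inr (Or.inl
          ⟨by omega, by omega, by omega, by omega, k⟩))))))
      · exact Or.inl (hold z y hz hy (by simp [c]))
      · exact Or.inl (hold z y hz hy (by simp [c, k]))
      · exact Or.inl (hold z y hz hy (by simp [c, k]))
      · exact Or.inr (hold y z hy hz (by simp [c]))
      · exact Or.inl (hold z y hz hy (Or.inr (Or.inr (Or.inl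
          ⟨by omega, by omega, by omega, by omega, k⟩))))
      · exact Or.inr (hold y z hy hz (Or.inr (Or.inr (Or.inr (Or.inr (Or.inl
          ⟨by omega, by omega, by omega, by omega, k⟩))))))
      · exact Or.inl (hold z y hz hy (by simp [c]))
      · exact Or.inr (hold y z hy hz (by simp [c, k]))
    intro y z hy hz h1 h2
    rcases le_total (τ y) (τ z) with k | k
    exacts [one y z hy hz k h2, (one z y hz hy k h1).symm]
  have hj : ∀ z, K z → 1 ≤ τ z → τ z ≤ 3 → s z ∈ H j := fun z hz h1 h2 => by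
    refine gh j _ (ja _ (sQ z hz) ?_)
    obtain ⟨-, c | c | ⟨-, c1, -, c2, -⟩⟩ := ty z hz
    · omega
    · omega
    · linarith
  have hM : ∀ y z, K y → K z → τ y = 2 → τ z = 2 → s y ∈ H z := fun y z hy hz h1 h2 =>
    hold z y hz hy (by simp [h1, h2])
  have c0 : (∃ z, K z ∧ τ z = 0) → ∃ C, K C ∧ τ C = 0 ∧ s C = p0 ∧
      ∀ z, K z → τ z ≤ 1 → s z ∈ H C := fun ⟨z, z1, z2⟩ => by
    obtain ⟨a1, a2, -⟩ := hC z z1 ((t0 z).1 z2)
    refine ⟨C, a1, (t0 C).2 a2, sC, fun y hy h => hold C y a1 hy ?_⟩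
    by_cases k : τ y = 0
    · exact Or.inr (Or.inl ⟨(t0 C).2 a2, k, (hC y hy ((t0 y).1 k)).2.2⟩)
    · exact Or.inl ⟨(t0 C).2 a2, by omega⟩
  have c4 : (∃ z, K z ∧ τ z = 4) → ∃ C, K C ∧ τ C = 4 ∧ s C = q0 ∧
      ∀ z, K z → 3 ≤ τ z → s z ∈ H C := fun ⟨z, z1, z2⟩ => by
    obtain ⟨b1, b2⟩ := (t4 z).1 z2
    obtain ⟨a1, a2, a3⟩ := hD z z1 b1 b2
    have a4 := (t4 D).2 ⟨a2, by linarith⟩
    refine ⟨D, a1, a4, sD, fun y hy h => hold D y a1 hy ?_⟩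
    by_cases k : τ y = 4
    · simp [a4, k, (hD y hy ((t4 y).1 k).1 ((t4 y).1 k).2).2.2]
    · have := le y
      simp [a4, show τ y = 3 by omega]
  have sm : ∀ y, y ≠ j → s y ∈ (H y).erase a := fun y hy => hJ.sub y (s1 y hy).1
  obtain ⟨w, wj, w1, w2⟩ : ∃ w, w ≠ j ∧ p0 ∈ H w ∧ q0 ∈ H w := by
    obtain ⟨y, z, yz, hy, hz⟩ := hB.dh.pair (mem_of_mem_erase (hU p1)) (mem_of_mem_erase (hV q1))
      fun k => by rw [k] at p3; linarith
    by_cases k : y = j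
    exacts [⟨z, k ▸ yz.symm, hz⟩, ⟨y, k, hy⟩]
  have wK : K w := (hK w).2 ⟨by_contra fun k => wj (one w (memNb.2 ⟨p0, p1, hJ.out w k ▸ w1⟩)
    (memNb.2 ⟨q0, q1, hJ.out w k ▸ w2⟩)), wj⟩
  have hp : ∀ z, K z → τ z = 0 → p0 ∈ H z := fun z hz h => gh z _ (pP z hz ((t0 z).1 h))
  have hq : ∀ z, K z → τ z = 4 → q0 ∈ H z := fun z hz h =>
    gh z _ (qQ z hz ((t4 z).1 h).1 ((t4 z).1 h).2).1
  have neu : ∀ z, K z → 1 ≤ τ z → τ z ≤ 3 → z ∈ univ.filter fun y => K y ∧ 1 ≤ τ y ∧ τ y ≤ 3 :=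
    fun z a1 a2 a3 => mem_filter.2 ⟨mem_univ _, a1, a2, a3⟩
  by_cases k : τ w ≤ 2
  · refine half2 τ K hK hJ.thr sm si alt le sc hp (gh j _ p2) hj hM c0 c4 (fun ⟨z, z1, z2, z3⟩ => ?_)
      ⟨wK, w1, w2, k⟩
    obtain ⟨B, b1, b2⟩ := exists_max_image _ l ⟨z, neu z z1 z2 z3⟩
    obtain ⟨-, b3, b4, b5⟩ := mem_filter.1 b1
    exact ⟨B, b3, b4, b5, fun y hy h1 h2 => hold B y b3 hy (Or.inr (Or.inr (Or.inr (Or.inr (Or.inl
      ⟨b4, b5, h1, h2, b2 y (neu y hy (by omega) h2)⟩)))))⟩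
  · refine half2 (fun z => 4 - τ z) K hK hJ.thr sm si alt (fun z => by omega)
      (fun y z hy hz h1 h2 => sc y z hy hz (by have := le y; omega) (by have := le z; omega))
      (fun z hz h => hq z hz (by have := le z; omega)) (gh j _ q2)
      (fun z hz h1 h2 => hj z hz (by omega) (by omega))
      (fun y z hy hz h1 h2 => hM y z hy hz (by omega) (by omega)) (fun ⟨z, z1, z2⟩ => ?_)
      (fun ⟨z, z1, z2⟩ => ?_) (fun ⟨z, z1, z2, z3⟩ => ?_) ⟨wK, w2, w1, by omega⟩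
    · obtain ⟨B, b1, b2, b3, b4⟩ := c4 ⟨z, z1, by have := le z; omega⟩
      exact ⟨B, b1, by omega, b3, fun y hy h => b4 y hy (by omega)⟩
    · obtain ⟨B, b1, b2, b3, b4⟩ := c0 ⟨z, z1, by omega⟩
      exact ⟨B, b1, by omega, b3, fun y hy h => b4 y hy (by omega)⟩
    · obtain ⟨B, b1, b2⟩ := exists_min_image _ l ⟨z, neu z z1 (by omega) (by omega)⟩
      obtain ⟨-, b3, b4, b5⟩ := mem_filter.1 b1
      exact ⟨B, b3, by omega, by omega, fun y hy h1 h2 => hold B y b3 hy (Or.inr (Or.inr (Or.inl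
        ⟨b4, b5, by omega, by omega, b2 y (neu y hy (by omega) (by omega))⟩)))⟩

end Angles

end Pool.Agent.MP_3b4e7c_co.Gen4.J60
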