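import Pool.Agent.MP_3b4e7c_co.Gen4.Fin

/-! A class of sources that hangs on its slot by one label. -/

namespace Pool.Agent.MP_3b4e7c_co.Gen4

open Finset Function Gen Hub Up

variable {X : Type} [DecidableEq X] {n : ℕ} {P E : Finset X} {H Γ : Fin n → Finset X} {a e : X}
  {A B g : Fin n} {t : Fin n → X}

omit [DecidableEq X] in
/-- the label `C` is in the main cycle or is the chosen source of its cycle -/
theorem clo_of_sets2 {Λ : Finset (Fin n)} {C : Fin n} (hC : C ∈ Λ)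
    (h : ∀ R ⊆ Λ, A ∉ R → B ∉ R → g ∉ R → ∃ l : Option (Fin n) → List (Fin n),
      Rot H t e g (l none) ∧ (∀ w, l (some w) ≠ [] → w ∈ Λ ∧
        (w = A ∨ w = B ∨ w = g ∨ w = C ∧ C ∉ R) ∧ Rot H t (t w) w (l (some w))) ∧
      (∀ i, (l i).Nodup) ∧ (∀ z, z ∈ R ↔ ∃ i, z ∈ l i) ∧ ∀ i j, ∀ u ∈ l i, u ∈ l j → i = j) :
    Clo H Λ A B g e t := by
  classical
  intro E hE e1 e2
  obtain ⟨f, f1, f2⟩ : ∃ f : Fin n → ℕ, Injective f ∧ f C = 0 := by
    refine ⟨fun z => if z = C then 0 else z + 1, fun u v k => ?_, if_pos rfl⟩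
    dsimp only at k
    split_ifs at k with k1 k2
    · rw [k1, k2]
    · exact Fin.ext (by omega)
  have mR : ∀ z, z ∈ Λ.filter (fun z => ¬ E A z ∧ ∀ y ∈ Λ, E y z → f z ≤ f y) ↔
      z ∈ Λ ∧ ¬ E A z ∧ ∀ y ∈ Λ, E y z → f z ≤ f y := fun z => mem_filter
  obtain ⟨l, l1, l2, l3, l4, l5⟩ := h _ (filter_subset _ _)
    (fun k => ((mR _).1 k).2.1 (hE.refl A)) (fun k => ((mR _).1 k).2.1 e1)
    fun k => ((mR _).1 k).2.1 e2
  have m : ∀ i, ∀ z ∈ l i, z ∈ Λ ∧ ¬ E A z ∧ ∀ y ∈ Λ, E y z → f z ≤ f y := fun i z hz =>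
    (mR z).1 ((l4 z).2 ⟨i, hz⟩)
  have eq : ∀ i j, ∀ u ∈ l i, ∀ v ∈ l j, E u v → u = v := fun i j u hu v hv k =>
    f1 (le_antisymm ((m i u hu).2.2 v (m j v hv).1 (hE.symm k)) ((m j v hv).2.2 u (m i u hu).1 k))
  refine ⟨l, l1, fun w hw => ⟨(l2 w hw).1, ?_, (l2 w hw).2.2⟩,
    fun i z hz => ⟨(m i z hz).1, (m i z hz).2.1⟩,
    fun i => (l3 i).imp_of_mem fun {u v} hu hv k c => k (eq i i u hu v hv c),
    fun i j ij u hu v hv c => ij (l5 i j u hu (eq i j u hu v hv c ▸ hv)), fun z hz k => ?_⟩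
  · rcases (l2 w hw).2.1 with rfl | rfl | rfl | ⟨rfl, k⟩
    exacts [hE.refl _, e1, e2, by_contra fun c => k ((mR _).2 ⟨hC, c, fun y _ _ => by omega⟩)]
  · obtain ⟨v, hv, low⟩ := exists_min_image (Λ.filter fun y => E y z) f
      ⟨z, mem_filter.2 ⟨hz, hE.refl z⟩⟩
    obtain ⟨v1, v2⟩ := mem_filter.1 hv
    obtain ⟨i, hi⟩ := (l4 v).1 ((mR v).2 ⟨v1, fun c => k (hE.trans c v2), fun y hy c =>
      low y (mem_filter.2 ⟨hy, hE.trans c v2⟩)⟩)
    exact ⟨i, v, hi, v2⟩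

/-- Classes with a link: the class `pP` hangs on the slot of `s` at its tail by the label `C`; the
other sources have slots as in `clo_of_cls`, and those in the slot of `s` come after `pP`. -/
theorem clo_link {Λ : Finset (Fin n)} {C s : Fin n} (hA : A ∈ Λ) (hB : B ∈ Λ) (hg : g ∈ Λ)
    (hC : C ∈ Λ) (eg : e ∈ H g) (tm : ∀ y, t y ∈ H y) (CA : C ≠ A) (CB : C ≠ B) (Cg : C ≠ g)
    (hs : s = A ∨ s = B ∨ s = g) (s1 : t C ∈ H s) (s2 : t s ∈ H C) (pP : Fin n → Prop)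
    (cl : Fin n → Option (Fin n)) (S : Fin n → Prop)
    (hS : ∀ z ∈ Λ, z ≠ A → z ≠ B → z ≠ g → z ≠ C → S z)
    (h0 : ∀ z, S z → pP z → t C ∈ H z ∧ t z ∈ H C ∧ (t z ∈ H s ∨ t s ∈ H z))
    (h1 : ∀ z, S z → ¬ pP z → (cl z = none ∨ cl z = some A ∨ cl z = some B ∨ cl z = some g) ∧
      t z ∈ H ((cl z).elim g id) ∧ (cl z).elim e t ∈ H z ∧
      (cl z = some s → t z ∈ H C ∧ ∀ u, S u → pP u → t z ∈ H u))
    (h2 : ∀ u v, S u → S v → pP u → pP v → u ≠ v → t u ∈ H v ∨ t v ∈ H u)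
    (h3 : ∀ u v, S u → S v → ¬ pP u → ¬ pP v → cl u = cl v → u ≠ v → t u ∈ H v ∨ t v ∈ H u) :
    Clo H Λ A B g e t := by
  classical
  refine clo_of_sets2 hC fun R hR a b c => ?_
  have k0 : ∀ z ∈ R, z ≠ C → S z := fun z hz => hS z (hR hz) (fun k => a (k ▸ hz))
    (fun k => b (k ▸ hz)) fun k => c (k ▸ hz)
  have sΛ : s ∈ Λ := by rcases hs with rfl | rfl | rfl <;> assumption
  by_cases CR : C ∈ R
  · choose l l1 l2 l3 using fun i : Option (Fin n) => redei (H := H) (t := t)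
      (R.filter fun z => z ≠ C ∧ ¬ pP z ∧ cl z = i) (i.elim g id) (i.elim e t)
      (by rcases i with _ | i; exacts [eg, tm i])
      (fun z hz => by
        obtain ⟨z1, z2, z3, z4⟩ := mem_filter.1 hz
        exact z4 ▸ ⟨(h1 z (k0 z z1 z2) z3).2.1, (h1 z (k0 z z1 z2) z3).2.2.1⟩)
      fun u hu v hv => by
        obtain ⟨u1, u2, u3, u4⟩ := mem_filter.1 hu
        obtain ⟨v1, v2, v3, v4⟩ := mem_filter.1 hv
        exact h3 u v (k0 u u1 u2) (k0 v v1 v2) u3 v3 (u4.trans v4.symm)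
    obtain ⟨p, p1, p2, p3⟩ := redei (H := H) (t := t)
      (R.filter fun z => z ≠ C ∧ pP z ∧ t s ∉ H z) s (t C) s1
      (fun z hz => by
        obtain ⟨z1, z2, z3, z4⟩ := mem_filter.1 hz
        exact ⟨(h0 z (k0 z z1 z2) z3).2.2.resolve_right z4, (h0 z (k0 z z1 z2) z3).1⟩)
      fun u hu v hv => by
        obtain ⟨u1, u2, u3, -⟩ := mem_filter.1 hu
        obtain ⟨v1, v2, v3, -⟩ := mem_filter.1 hv
        exact h2 u v (k0 u u1 u2) (k0 v v1 v2) u3 v3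
    obtain ⟨q, q1, q2, q3⟩ := redei (H := H) (t := t)
      (R.filter fun z => z ≠ C ∧ (pP z ∧ t s ∈ H z ∨ ¬ pP z ∧ cl z = some s)) C (t s) s2
      (fun z hz => by
        obtain ⟨z1, z2, z3 | z3⟩ := mem_filter.1 hz
        · exact ⟨(h0 z (k0 z z1 z2) z3.1).2.1, z3.2⟩
        · obtain ⟨-, -, k1, k2⟩ := h1 z (k0 z z1 z2) z3.1
          rw [z3.2] at k1
          exact ⟨(k2 z3.2).1, k1⟩)
      fun u hu v hv uv => by
        obtain ⟨u1, u2, u3 | u3⟩ := mem_filter.1 hu <;> obtain ⟨v1, v2, v3 | v3⟩ := mem_filter.1 hv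
        · exact h2 u v (k0 u u1 u2) (k0 v v1 v2) u3.1 v3.1 uv
        · exact Or.inr (((h1 v (k0 v v1 v2) v3.1).2.2.2 v3.2).2 u (k0 u u1 u2) u3.1)
        · exact Or.inl (((h1 u (k0 u u1 u2) u3.1).2.2.2 u3.2).2 v (k0 v v1 v2) v3.1)
        · exact h3 u v (k0 u u1 u2) (k0 v v1 v2) u3.1 v3.1 (u3.2.trans v3.2.symm) uv
    simp only [mem_filter] at l2 p2 q2
    obtain ⟨m, m1, m2⟩ : ∃ m : Option (Fin n) → List (Fin n), m (some s) = p ++ C :: q ∧
        ∀ i, i ≠ some s → m i = l i :=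
      ⟨update l (some s) (p ++ C :: q), update_self .., fun i k => update_of_ne k ..⟩
    have m3 : ∀ z, z ∈ m (some s) ↔ z ∈ R ∧ (z = C ∨ pP z ∨ cl z = some s) := fun z => by
      rw [m1, List.mem_append, List.mem_cons, p2, q2]
      by_cases k : z = C
      · simp [k, CR]
      · tauto
    refine ⟨m, by rw [m2 none (by simp)]; exact l3 none, fun w hw => ?_, fun i => ?_,
      fun z => ⟨fun hz => ?_, fun ⟨i, hi⟩ => ?_⟩, fun i j u hi hj => ?_⟩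
    · by_cases k : w = s
      · subst k
        exact ⟨sΛ, by tauto, m1 ▸ q3.app p w p3⟩
      rw [m2 _ (by simpa using k)] at hw ⊢
      obtain ⟨z, hz⟩ := List.exists_mem_of_ne_nil _ hw
      obtain ⟨z1, z2, z3, z4⟩ := (l2 _ z).1 hz
      have : w = A ∨ w = B ∨ w = g := by simpa [z4] using (h1 z (k0 z z1 z2) z3).1
      exact ⟨by rcases this with rfl | rfl | rfl <;> assumption, by tauto, l3 (some w)⟩
    · by_cases k : i = some s
      · rw [k, m1]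
        refine List.nodup_append.2 ⟨p1, List.nodup_cons.2 ⟨fun h => ((q2 C).1 h).2.1 rfl, q1⟩,
          fun u hu v hv c => ?_⟩
        obtain ⟨-, u2, u3, u4⟩ := (p2 u).1 hu
        rcases List.mem_cons.1 hv with rfl | hv
        · exact u2 c
        · exact ((q2 v).1 hv).2.2.elim (fun d => u4 (c ▸ d.2)) fun d => d.1 (c ▸ u3)
      · rw [m2 i k]; exact l1 i
    · by_cases k : z = C ∨ pP z ∨ cl z = some s
      · exact ⟨some s, (m3 z).2 ⟨hz, k⟩⟩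
      · rw [not_or, not_or] at k
        exact ⟨cl z, by rw [m2 _ k.2.2]; exact (l2 _ z).2 ⟨hz, k.1, k.2.1, rfl⟩⟩
    · by_cases k : i = some s
      · exact ((m3 z).1 (k ▸ hi)).1
      · rw [m2 i k] at hi; exact ((l2 i z).1 hi).1
    · have mix : ∀ i, i ≠ some s → u ∈ m i → u ∉ m (some s) := fun i k h1 h2 => by
        rw [m2 i k] at h1
        obtain ⟨-, u2, u3, u4⟩ := (l2 i u).1 h1
        exact ((m3 u).1 h2).2.elim u2 fun d => d.elim u3 fun d => k (u4.symm.trans d)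
      by_cases k1 : i = some s <;> by_cases k2 : j = some s
      · rw [k1, k2]
      · exact absurd (k1 ▸ hi) (mix j k2 hj)
      · exact absurd (k2 ▸ hj) (mix i k1 hi)
      · rw [m2 i k1] at hi
        rw [m2 j k2] at hj
        exact ((l2 i u).1 hi).2.2.2.symm.trans ((l2 j u).1 hj).2.2.2
  · have k1 : ∀ z ∈ R, S z := fun z hz => k0 z hz fun k => CR (k ▸ hz)
    obtain ⟨c2, d1, d2⟩ : ∃ c2 : Fin n → Option (Fin n), (∀ z, pP z → c2 z = some C) ∧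
        ∀ z, ¬ pP z → c2 z = cl z :=
      ⟨fun z => if pP z then some C else cl z, fun z k => if_pos k, fun z k => if_neg k⟩
    have d3 : ∀ z ∈ R, ¬ pP z → c2 z ≠ some C := fun z hz k d => by
      rw [d2 z k] at d
      simpa [d, CA, CB, Cg] using (h1 z (k1 z hz) k).1
    choose l l1 l2 l3 using fun i : Option (Fin n) => redei (H := H) (t := t)
      (R.filter fun z => c2 z = i) (i.elim g id) (i.elim e t)
      (by rcases i with _ | i; exacts [eg, tm i])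
      (fun z hz => by
        obtain ⟨z1, z2⟩ := mem_filter.1 hz
        rw [← z2]
        by_cases k : pP z
        · rw [d1 z k]
          exact ⟨(h0 z (k1 z z1) k).2.1, (h0 z (k1 z z1) k).1⟩
        · rw [d2 z k]
          exact ⟨(h1 z (k1 z z1) k).2.1, (h1 z (k1 z z1) k).2.2.1⟩)
      fun u hu v hv => by
        obtain ⟨u1, u2⟩ := mem_filter.1 hu
        obtain ⟨v1, v2⟩ := mem_filter.1 hv
        have uv := u2.trans v2.symm
        by_cases ku : pP u <;> by_cases kv : pP v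
        · exact h2 u v (k1 u u1) (k1 v v1) ku kv
        · exact absurd (uv.symm.trans (d1 u ku)) (d3 v v1 kv)
        · exact absurd (uv.trans (d1 v kv)) (d3 u u1 ku)
        · exact h3 u v (k1 u u1) (k1 v v1) ku kv (by rwa [d2 u ku, d2 v kv] at uv)
    simp only [mem_filter] at l2
    refine ⟨l, l3 none, fun w hw => ?_, l1, fun z => ⟨fun hz => ⟨c2 z, (l2 _ z).2 ⟨hz, rfl⟩⟩,
      fun ⟨i, hi⟩ => ((l2 i z).1 hi).1⟩, fun i j u hi hj =>
        ((l2 i u).1 hi).2.symm.trans ((l2 j u).1 hj).2⟩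
    obtain ⟨z, hz⟩ := List.exists_mem_of_ne_nil _ hw
    obtain ⟨z1, z2⟩ := (l2 _ z).1 hz
    by_cases k : pP z
    · obtain rfl : C = w := Option.some.inj ((d1 z k).symm.trans z2)
      exact ⟨hC, Or.inr (Or.inr (Or.inr ⟨rfl, CR⟩)), l3 (some C)⟩
    · rw [d2 z k] at z2
      have : w = A ∨ w = B ∨ w = g := by simpa [z2] using (h1 z (k1 z z1) k).1
      exact ⟨by rcases this with rfl | rfl | rfl <;> assumption, by tauto, l3 (some w)⟩

/-- from a matching without `A`, `B` to the state of the frame -/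
theorem goal_of_clo (hC : Ctx P H Γ a E) (AB : A ≠ B) (aA : a ∈ H A) (aB : a ∈ H B) (ag : a ∈ H g)
    (eg : e ∈ H g) (eQ : e ∈ P.erase a) (hm : Mt Γ (Om A B) ((P.erase a).erase e) t)
    (alt : Alt0 H a E A B e t) (clo : ∀ r : Fin n → X, r A = a → r B = a →
      (∀ y, y ≠ A → y ≠ B → r y = t y) → (∀ y, r y ∈ H y) → Clo H (Thru H a) A B g e r) :
    Goal H a E := by
  obtain ⟨r, r1, r2, r3⟩ : ∃ r : Fin n → X, r A = a ∧ r B = a ∧ ∀ y, y ≠ A → y ≠ B → r y = t y :=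
    ⟨fun y => if y = A ∨ y = B then a else t y, by simp, by simp, fun y k1 k2 => by simp [k1, k2]⟩
  have r4 : ∀ y, a ∉ H y → r y = t y := fun y hy =>
    r3 y (fun c => hy (c ▸ aA)) fun c => hy (c ▸ aB)
  have tQ : ∀ y, y ≠ A → y ≠ B → t y ≠ e ∧ t y ≠ a := fun y k1 k2 =>
    ⟨(mem_erase.1 (hm.into y (mOm.2 ⟨k1, k2⟩))).1,
      (mem_erase.1 (mem_erase.1 (hm.into y (mOm.2 ⟨k1, k2⟩))).2).1⟩
  have tm : ∀ y, r y ∈ H y ∧ r y ≠ e := fun y => by
    by_cases k1 : y = A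
    · rw [k1, r1]; exact ⟨aA, (mem_erase.1 eQ).1.symm⟩
    by_cases k2 : y = B
    · rw [k2, r2]; exact ⟨aB, (mem_erase.1 eQ).1.symm⟩
    · rw [r3 y k1 k2]; exact ⟨hC.real (hm.mem y (mOm.2 ⟨k1, k2⟩)), (tQ y k1 k2).1⟩
  have mT : ∀ {y}, y ∈ Thru H a ↔ a ∈ H y := by simp [Thru]
  refine ⟨A, B, g, e, r, AB, ag, eg, r1, r2, tm, fun y z y1 z1 c => ?_,
    clo r r1 r2 r3 fun y => (tm y).1, ?_⟩
  · by_cases k1 : y = A <;> by_cases k2 : z = A
    · rw [k1, k2]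
    · rw [k1, r1, r3 z k2 z1] at c; exact absurd c.symm (tQ z k2 z1).2
    · rw [k2, r1, r3 y k1 y1] at c; exact absurd c (tQ y k1 y1).2
    · rw [r3 y k1 y1, r3 z k2 z1] at c; exact hm.inj y (mOm.2 ⟨k1, y1⟩) z (mOm.2 ⟨k2, z1⟩) c
  · rcases alt with ⟨τ, k1, k2 | ⟨z, z1, z2, z3⟩⟩ | ⟨S, s1, s2, ⟨y, s3, s4⟩, s5⟩
    · exact Or.inl ⟨τ, k1, Or.inl k2⟩
    · exact Or.inl ⟨τ, k1, Or.inr ⟨z, mT.2 z2, (r3 z (mOm.1 z1).1 (mOm.1 z1).2).trans z3⟩⟩
    · exact Or.inr ⟨S, s1, fun y hy z z1 z2 => s2 y hy z z1 (r4 z z1 ▸ z2),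
        ⟨y, s3, (r4 y (s1 y s3)).symm ▸ s4⟩, s5⟩

end Pool.Agent.MP_3b4e7c_co.Gen4
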