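import Pool.Agent.MP_3b4e7c_co.Gen4.CoreDefs
import Pool.Agent.MP_3b4e7c_co.Gen4.Hull

/-! The hull vertex in the narrow model. -/

namespace Pool.Agent.MP_3b4e7c_co.Gen4

open Finset Gen Hub Function

variable {X : Type} [DecidableEq X] {n : ℕ} {P E : Finset X} {H G K : Fin n → Finset X} {a e : X}
  {A B g : Fin n} {LR : Fin n → X → Prop} {pos ang : X → ℝ} {lo : Fin n → ℝ}

/-- a point of `E` that no outside label sees -/
theorem Core.good (c : Core P H G K a E A B g e LR pos) {τ : X} (hτ : τ ∈ E)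
    (τQ : τ ∈ P.erase a) (no : ∀ y, a ∉ H y → τ ∉ G y) : Goal H a E := by
  obtain ⟨t, ht⟩ := c.ex
  refine c.fin e t c.eg ht (c.auto t ht) (Or.inl ⟨τ, hτ, or_iff_not_imp_left.2 fun k => ?_⟩)
  obtain ⟨z, z1, z2⟩ := ht.surj (mem_erase.2 ⟨k, τQ⟩)
  exact ⟨z, z1, by_contra fun d => no z d (z2 ▸ c.sub z (ht.mem z z1)), z2⟩

/-- no point of `E` can be deleted from the outside labels -/
theorem Core.bad (c : Core P H G K a E A B g e LR pos) (hB : Base P H)
    (hN : Nar P H G a E ang lo) (no : ∀ τ ∈ E, ¬ Sur (Hull.Cut H G a τ) (P.erase a)) :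
    Goal H a E := by
  classical
  obtain ⟨t, ht⟩ := c.ex
  obtain ⟨hg, hg1, hg2⟩ := hN.hull g c.ag
  have hC : Ctx P H K a E := ⟨hB, hN.mem, fun y => (c.sub y).trans (hN.sub y),
    fun y hy => (c.out y hy).trans (hN.out y hy).1, hN.hs, ⟨hg, hg1⟩⟩
  have eQ : e ∈ P.erase a := erase_subset_erase _ (hB.sub g) (hN.sub g c.eg)
  rcases reach hC c.aA c.aB eQ ht with ⟨r, r1, r2⟩ | ⟨R, hR⟩
  · exact c.fin e r c.eg r1 (c.auto r r1) r2
  have nD : ∀ z ∈ R, a ∉ H z := fun z hz az => by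
    obtain ⟨zA, zB⟩ := mOm.1 (hR.sub hz)
    obtain ⟨h, h1, h2⟩ := hN.hull z az
    obtain ⟨k1, k2⟩ := c.short z az zA zB h h2 (hR.no z hz az h h1)
    obtain ⟨Z, z1, z2, z3, z4⟩ := Hull.bad hN.sur (no h h1) zA az c.aA h2 k1
    obtain ⟨r, r1, -⟩ := hR.rot h h1 z hz
    obtain ⟨t0, m0⟩ := c.root
    have AZ := z4 A c.aA k1
    have zZ := z4 z az h2
    have c1 := card_erase_add_one AZ
    have BZ : B ∈ Nb G Z := by
      have := (m0.cnt z1 (I := (Nb G Z).erase A) (fun y hy k => mem_erase.2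
        ⟨(mem_erase.1 hy).1, nb_of k (c.sub y (m0.mem y hy))⟩) (by omega) z
        (mem_erase.2 ⟨zA, zZ⟩))
      exact nb_of this.2 (k2 (m0.mem z this.1))
    have c2 := card_erase_add_one (mem_erase.2 ⟨c.AB.symm, BZ⟩)
    have c3 := card_erase_add_one (mem_erase.2 ⟨zB, mem_erase.2 ⟨zA, zZ⟩⟩)
    have c4 := pred_card_le_card_erase (s := Z) (a := e)
    have c5 := (r1.own (Z := Z.erase e) fun x hx => mem_erase.2
      ⟨fun d => z2 (d ▸ mem_of_mem_erase hx), erase_subset_erase _ z1 hx⟩).card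
    have c6 : (((Om A B).erase z).filter fun y => r y ∈ Z.erase e).card ≤
        ((((Nb G Z).erase A).erase B).erase z).card := card_le_card fun y hy => by
      obtain ⟨y1, y2⟩ := mem_filter.1 hy
      obtain ⟨y3, y4⟩ := mem_erase.1 y1
      exact mem_erase.2 ⟨y3, mem_erase.2 ⟨(mOm.1 y4).2, mem_erase.2 ⟨(mOm.1 y4).1,
        nb_of (mem_of_mem_erase y2) (c.sub y (r1.mem y y1))⟩⟩⟩
    omega
  have free : ∀ h ∈ E, ∃ r, Mt K (Om A B) ((P.erase a).erase h) r ∧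
      ∀ y ∈ Om A B, a ∈ H y → r y = t y := fun h hh => by
    rcases hR.alt with k | ⟨-, z, z1, z2⟩
    · exact (k.2 h hh).imp fun r k => ⟨k.1, fun y y1 y2 => k.2 y y1 fun d => nD y d y2⟩
    · exact absurd z2 (nD z z1)
  have om : ∀ {y}, Src H a A B g y → y ∈ Om A B := fun h => mOm.2 ⟨h.2.1, h.2.2.1⟩
  rcases (univ.filter fun y => Src H a A B g y ∧ LR y (t y)).eq_empty_or_nonempty with k | k
  · obtain ⟨r, r1, r2⟩ := free hg hg1
    refine c.fin hg r hg2 r1 (fun y y1 y2 => ?_) (Or.inl ⟨hg, hg1, Or.inl rfl⟩)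
    rw [r2 y (om y1) y1.1] at y2
    exact absurd (mem_filter.2 ⟨mem_univ _, y1, y2⟩) (k ▸ notMem_empty y)
  obtain ⟨w, hw, top⟩ := exists_max_image _ (fun y => pos (t y)) k
  obtain ⟨w1, w2⟩ := (mem_filter.1 hw).2
  obtain ⟨h, h1, h2⟩ := hN.hull w w1.1
  obtain ⟨r, r1, r2⟩ := free h h1
  have tw : t w ∈ G w := c.sub w (ht.mem w (om w1))
  have rw1 := r2 w (om w1) w1.1
  have m := (r1.del (om w1)).add (notMem_erase w _)
    (fun d => notMem_erase h _ (mem_of_mem_erase d)) ((c.long w _ w2).1.symm ▸ h2)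
  have hu : h ∈ (P.erase a).erase (r w) :=
    mem_erase.2 ⟨(mem_erase.1 (r1.into w (om w1))).1.symm, hN.hs h1⟩
  rw [insert_erase (om w1), erase_right_comm, insert_erase hu, rw1] at m
  refine c.fin (t w) _ ((c.long w _ w2).2 tw) m (fun y y1 y2 => ?_)
    (Or.inl ⟨h, h1, Or.inr ⟨w, om w1, w1.1, update_self ..⟩⟩)
  by_cases d : y = w
  · exact d ▸ tw
  rw [update_of_ne d, r2 y (om y1) y1.1] at y2
  exact c.ord y _ w _ y2 w2 (c.sub y (ht.mem y (om y1))) tw
    (top y (mem_filter.2 ⟨mem_univ _, y1, y2⟩))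

theorem narrow_of_core (core : CoreS) : NarrowS := by
  intro X _ n P H G a E ang lo hB hN
  have ne : E.Nonempty := by
    obtain ⟨x, hx⟩ : (P.erase a).Nonempty := card_pos.1 (by
      have := card_erase_add_one hN.mem
      have := hB.card
      have := hB.two
      omega)
    obtain ⟨u, -, -, k, -⟩ := hB.dh.pair hN.mem (mem_of_mem_erase hx) (mem_erase.1 hx).1.symm
    exact (hN.hull u k.1).imp fun _ h => h.1
  by_cases k : ∃ τ ∈ E, Sur (Hull.Cut H G a τ) (P.erase a)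
  · obtain ⟨τ, k1, k2⟩ := k
    have sub := fun y => (Hull.cut_sub (H := H) (G := G) (a := a) τ y).trans (hN.sub y)
    obtain ⟨K, A, B, g, e, LR, pos, c⟩ := core X n P H (Hull.Cut H G a τ) a E ang lo hB
      ⟨hN.mem, sub, fun y hy => by rw [Hull.cut_in hy]; exact hN.arc y hy, hN.gen,
        fun y hy => (hN.out y hy).2, k2⟩ hN.hs ne
    exact c.good k1 (hN.hs k1) fun y hy => by
      rw [Hull.cut_out hy]; exact notMem_erase _ _
  · obtain ⟨K, A, B, g, e, LR, pos, c⟩ := core X n P H G a E ang lo hB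
      ⟨hN.mem, hN.sub, hN.arc, hN.gen, fun y hy => (hN.out y hy).2, hN.sur⟩ hN.hs ne
    exact c.bad hB hN fun τ h1 h2 => k ⟨τ, h1, h2⟩

end Pool.Agent.MP_3b4e7c_co.Gen4
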