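import Pool.Agent.MP_3b4e7c_co.Gen4.H3Defs
import Pool.Agent.MP_3b4e7c_co.Gen4.NarDefs

/-! The hull vertex in the narrow model. -/

namespace Pool.Agent.MP_3b4e7c_co.Gen4

open Finset Gen Hub Function

variable {X : Type} [DecidableEq X] {n : ℕ} {P E : Finset X} {H G K : Fin n → Finset X} {a e : X}
  {A B g : Fin n} {s t : Fin n → X} {ang : X → ℝ} {lo : Fin n → ℝ}

omit [DecidableEq X] in
theorem Hull.Mt.to (m : Hull.Mt G a A B e t) (h : ∀ y, y ≠ A → y ≠ B → t y ∈ K y) :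
    Hull.Mt K a A B e t := ⟨m.tA, m.tB, h, m.te, m.ti⟩

/-- no point of `E` can be deleted from the outside labels -/
theorem Core.allbad (c : Core P H G K a A B g e s) (hB : Base P H) (hN : Nar P H G a E ang lo)
    (no : ∀ τ ∈ E, ¬ Sur (Hull.Cut H G a τ) (P.erase a)) : Goal H a E := by
  obtain ⟨t, ht⟩ := c.ex
  obtain ⟨hg, hg1, hg2⟩ := hN.hull g c.ag
  have re : ∀ {y x}, x ∈ G y → x ∈ H y := fun h => mem_of_mem_erase (hN.sub _ h)
  have KH : ∀ y, K y ⊆ H y := fun y x h => re (c.sub y h)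
  have eP := hB.sub g (re c.eg)
  have back : ∀ {x u}, Hull.Mt G a A B x u → (∀ y, a ∈ H y → y ≠ A → y ≠ B → u y ∈ K y) →
      Hull.Mt K a A B x u := fun m h => m.to fun y h1 h2 => by
    by_cases k : a ∈ H y
    · exact h y k h1 h2
    · exact c.out y k ▸ m.tm y h1 h2
  rcases Hull.swap hB hN.mem hN.hs ⟨hg, hg1⟩ hN.sub (fun y hy => (hN.out y hy).1) c.aA c.aB eP
    (ht.to fun y h1 h2 => c.sub y (ht.tm y h1 h2)) with k | k | ⟨z, az, zA, zB, k⟩
  · exact ht.goal KH c.AB c.aA c.aB c.ag (re c.eg) (c.clo t ht) k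
  · have free : ∀ h ∈ E, ∃ u, Hull.Mt K a A B h u ∧ ∀ y, a ∈ H y → u y = t y := fun h hh => by
      obtain ⟨u, q1, q2⟩ := k h hh
      exact ⟨u, back q1 fun y h0 h1 h2 => q2 y h0 ▸ ht.tm y h1 h2, q2⟩
    rcases c.re t ht with q | ⟨y, ay, yA, yB, q1, q2, q3⟩
    · obtain ⟨u, u1, u2⟩ := free hg hg1
      exact u1.goal KH c.AB c.aA c.aB c.ag (re hg2) (q hg hg2 u u1 u2)
        (Or.inl ⟨hg, hg1, Or.inl rfl⟩)
    · obtain ⟨h, h1, h2⟩ := hN.hull y ay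
      obtain ⟨u, u1, u2⟩ := free h h1
      have m := u1.take c.AB yA yB (q1 ▸ h2)
      rw [u2 y ay] at m
      exact m.goal KH c.AB c.aA c.aB c.ag (re q2)
        (q3 _ m fun z h3 h4 => (update_of_ne h4 ..).trans (u2 z h3))
        (Or.inl ⟨h, h1, Or.inr ⟨y, Hull.mem_thru.2 ay, update_self ..⟩⟩)
  obtain ⟨h, h1, h2⟩ := hN.hull z az
  obtain ⟨u, u1, u2, u3⟩ := k h h1 h2
  by_cases hK : h ∈ K z
  · have m := back u1 fun y h0 k1 k2 => by
      by_cases d : y = z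
      · rwa [d, u2]
      · exact u3 y h0 d ▸ ht.tm y k1 k2
    exact m.goal KH c.AB c.aA c.aB c.ag (re c.eg) (c.clo u m)
      (Or.inl ⟨h, h1, Or.inr ⟨z, Hull.mem_thru.2 az, u2⟩⟩)
  exfalso
  obtain ⟨-, k1, k2⟩ := c.cut z h az h2 hK
  obtain ⟨Z, z1, z2, z3, z4⟩ := Hull.bad hN.sur (no h h1) zA az c.aA h2 k1
  have AZ := z4 A c.aA k1
  have zZ := z4 z az h2
  have c1 := card_erase_add_one AZ
  have BZ : B ∈ Nb G Z := nb_of (c.first.cnt z1 (I := (Nb G Z).erase A) (fun y hy k => mem_erase.2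
    ⟨(mem_erase.1 hy).1, nb_of k (c.first.mem y hy)⟩) (by omega) z (mem_erase.2 ⟨zA, zZ⟩)).2 k2
  have c2 := card_erase_add_one (mem_erase.2 ⟨c.AB.symm, BZ⟩)
  have c3 := card_erase_add_one (mem_erase.2 ⟨zB, mem_erase.2 ⟨zA, zZ⟩⟩)
  have c4 := pred_card_le_card_erase (s := Z) (a := e)
  have c5 : (Z.erase e).card ≤ (((((Nb G Z).erase A).erase B).erase z).image u).card :=
    card_le_card fun p hp => by
      obtain ⟨p1, p2⟩ := mem_erase.1 hp
      obtain ⟨y, y1, y2⟩ := u1.surj hB.card (fun y x k => hB.sub y (re k)) hN.mem eP p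
        (mem_of_mem_erase (z1 p2)) p1
      have yA : y ≠ A := fun d => (mem_erase.1 (z1 p2)).1 (by rw [← y2, d, u1.tA])
      exact mem_image.2 ⟨y, mem_erase.2 ⟨fun d => z2 (by rw [← u2, ← d, y2]; exact p2),
        mem_erase.2 ⟨y1, mem_erase.2 ⟨yA, nb_of p2 (y2 ▸ u1.tm y yA y1)⟩⟩⟩, y2⟩
  have c6 := card_image_le (s := (((Nb G Z).erase A).erase B).erase z) (f := u)
  omega

theorem narrow_of_h3 (core : CoreS) : NarrowS := by
  intro X _ n P H G a E ang lo hB hN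
  have arc : ∀ y, a ∉ H y → ∀ x ∈ G y, Arc (lo y) (1 / 2) (ang x) := fun y hy x hx =>
    (hN.out y hy).2 x (mem_of_mem_erase (hN.sub y hx))
  by_cases k : ∃ τ ∈ E, Sur (Hull.Cut H G a τ) (P.erase a)
  · obtain ⟨τ, k1, k2⟩ := k
    have s0 := fun y => Hull.cut_sub (H := H) (G := G) (a := a) τ y
    obtain ⟨K, A, B, g, e, s, c⟩ := core X n P H (Hull.Cut H G a τ) a ang lo hB
      ⟨hN.mem, fun y => (s0 y).trans (hN.sub y), fun y hy => by
        rw [Hull.cut_in hy]; exact hN.arc y hy, hN.gen, fun y hy x hx => arc y hy x (s0 y hx), k2⟩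
    obtain ⟨t, ht⟩ := c.ex
    have eg := mem_of_mem_erase (hN.sub g (s0 g c.eg))
    exact ht.goal (fun y x h => mem_of_mem_erase (hN.sub y (s0 y (c.sub y h)))) c.AB c.aA c.aB c.ag
      eg (c.clo t ht) (Hull.alt_of_cut hB hN.mem (hB.sub g eg) hN.hs k1 hN.sub c.aA
        (ht.to fun y h1 h2 => c.sub y (ht.tm y h1 h2)))
  · obtain ⟨K, A, B, g, e, s, c⟩ := core X n P H G a ang lo hB
      ⟨hN.mem, hN.sub, hN.arc, hN.gen, arc, hN.sur⟩
    exact c.allbad hB hN fun τ h1 h2 => k ⟨τ, h1, h2⟩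

end Pool.Agent.MP_3b4e7c_co.Gen4
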