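import Pool.Agent.MP_3b4e7c_co.Gen4.Fin
import Mathlib.Topology.Algebra.Module.Cardinality

/-! The arcs are shrunk until each is a half circle or both ends are critical. -/

namespace Pool.Agent.MP_3b4e7c_co.Gen4

open Finset Function Gen Int

variable {X : Type} [DecidableEq X] {n : ℕ} {P E Q : Finset X} {H G Γ : Fin n → Finset X} {a : X}
  {ang : X → ℝ} {lo len : Fin n → ℝ} {Bad : Set ℝ}

/-- the angle from `v` to `u` in the window that is cut at `w` -/
theorem cut (u v w : ℝ) :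
    fract (v - w) ≤ fract (u - w) ∧ fract (u - v) = fract (u - w) - fract (v - w) ∨
    fract (u - w) < fract (v - w) ∧ fract (u - v) = fract (u - w) - fract (v - w) + 1 := by
  have a1 := fract_nonneg (u - w)
  have a2 := fract_lt_one (u - w)
  have a3 := fract_nonneg (v - w)
  have a4 := fract_lt_one (v - w)
  rcases le_or_gt (fract (v - w)) (fract (u - w)) with h | h
  · refine Or.inl ⟨h, fract_eq_iff.2 ⟨by linarith, by linarith, ⌊u - w⌋ - ⌊v - w⌋, ?_⟩⟩
    rw [fract, fract]; push_cast; ring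
  · refine Or.inr ⟨h, fract_eq_iff.2 ⟨by linarith, by linarith, ⌊u - w⌋ - ⌊v - w⌋ - 1, ?_⟩⟩
    rw [fract, fract]; push_cast; ring

theorem cut' (u l s : ℝ) (h0 : 0 ≤ s) (h1 : s < 1) :
    s ≤ fract (u - l) ∧ fract (u - (l + s)) = fract (u - l) - s ∨
      fract (u - l) < s ∧ fract (u - (l + s)) = fract (u - l) - s + 1 := by
  have := cut u (l + s) l
  rwa [add_sub_cancel_left, fract_eq_self.2 ⟨h0, h1⟩] at this

theorem crit (hs : Sur Γ Q) (y : Fin n) (F : Finset X) (h : ¬ Sur (update Γ y F) Q) :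
    ∃ Z, Ti Γ Q Z ∧ y ∈ Nb Γ Z ∧ ∀ x ∈ Z, x ∉ F := by
  simp only [Sur, not_forall] at h
  obtain ⟨Z, z1, z2, z3⟩ := h
  have c1 := hs Z z1 z2
  have k : ∀ w ∈ Nb Γ Z, w ≠ y → w ∈ Nb (update Γ y F) Z := fun w hw c =>
    (mNb.1 hw).elim fun x q => nb_of q.1 (by rw [update_of_ne c]; exact q.2)
  have no : ¬ Nb Γ Z ⊆ Nb (update Γ y F) Z := fun c => by have := card_le_card c; omega
  have c2 : (Nb Γ Z).card ≤ (insert y (Nb (update Γ y F) Z)).card := card_le_card fun w hw => by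
    by_cases c : w = y
    exacts [c ▸ mem_insert_self _ _, mem_insert_of_mem (k w hw c)]
  have c3 := card_insert_le y (Nb (update Γ y F) Z)
  refine ⟨Z, ⟨z1, z2, by omega⟩, by_contra fun c => no fun w hw => k w hw fun q => c (q ▸ hw),
    fun x hx c => no fun w hw => ?_⟩
  by_cases q : w = y
  · exact q ▸ nb_of hx (by rwa [update_self])
  · exact k w hw q

/-- the label `y` is an open half circle without a point at its ends -/
def Nw (Q : Finset X) (Γ : Fin n → Finset X) (ang : X → ℝ) (y : Fin n) (θ : ℝ) : Prop :=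
  (∀ x ∈ Q, x ∈ Γ y ↔ Arc θ (1 / 2) (ang x)) ∧
    ∀ x ∈ Q, fract (ang x - θ) ≠ 0 ∧ fract (ang x - θ) ≠ 1 / 2

/-- the label `c` misses exactly an open arc of length `φ`, both ends of which are critical -/
structure Wd (Q : Finset X) (Γ : Fin n → Finset X) (ang : X → ℝ) (c : Fin n) (u φ : ℝ)
    (Xf Xl : Finset X) : Prop where
  pos : 0 < φ
  half : φ ≤ 1 / 2
  arc : ∀ x ∈ Q, x ∉ Γ c ↔ Arc u φ (ang x)
  tf : Ti Γ Q Xf
  tl : Ti Γ Q Xl
  cf : c ∈ Nb Γ Xf
  cl : c ∈ Nb Γ Xl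
  ef : ∀ x ∈ Xf, x ∈ Γ c → fract (ang x - u) = φ
  el : ∀ x ∈ Xl, x ∈ Γ c → fract (ang x - u) = 0

theorem Wd.sep {c : Fin n} {u φ : ℝ} {Xf Xl : Finset X} (hs : Sur Γ Q)
    (h : Wd Q Γ ang c u φ Xf Xl) : Disjoint Xf Xl ∧ ∀ v ∈ Nb Γ Xf, v ∈ Nb Γ Xl → v = c :=
  h.tf.sep hs h.tl h.cf h.cl fun x x1 x2 k => h.pos.ne' ((h.ef x x1 k).symm.trans (h.el x x2 k))

/-- at most one label is wide -/
theorem Wd.uniq {c d : Fin n} {u φ v ψ : ℝ} {Xf Xl Zf Zl : Finset X} (hs : Sur Γ Q)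
    (h : Wd Q Γ ang c u φ Xf Xl) (k : Wd Q Γ ang d v ψ Zf Zl) : c = d := by
  by_contra cd
  obtain ⟨f, f1, f2⟩ := mNb.1 h.cf
  obtain ⟨l, l1, l2⟩ := mNb.1 h.cl
  obtain ⟨p, p1, p2⟩ := mNb.1 k.cf
  obtain ⟨q, q1, q2⟩ := mNb.1 k.cl
  have f3 := h.ef f f1 f2
  have l3 := h.el l l1 l2
  have p3 := k.ef p p1 p2
  have q3 := k.el q q1 q2
  have s1 : f ∉ Γ d ∨ l ∉ Γ d := not_and_or.1 fun w =>
    cd ((h.sep hs).2 d (nb_of f1 w.1) (nb_of l1 w.2)).symm
  have s2 : p ∉ Γ c ∨ q ∉ Γ c := not_and_or.1 fun w =>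
    cd ((k.sep hs).2 c (nb_of p1 w.1) (nb_of q1 w.2))
  have two : ∀ {Z W : Finset X}, Ti Γ Q Z → Ti Γ Q W → c ∈ Nb Γ Z → c ∈ Nb Γ W → d ∈ Nb Γ Z →
      d ∈ Nb Γ W → (∃ x ∈ Z, x ∈ W ∧ x ∈ Γ c) ∧ ∃ x ∈ Z, x ∈ W ∧ x ∈ Γ d := by
    intro Z W z w c1 c2 d1 d2
    have := (z.inter hs w (z.meet hs w cd c1 c2 d1 d2)).2.2
    exact ⟨(mNb.1 (this c c1 c2)).imp fun x e => ⟨(mem_inter.1 e.1).1, (mem_inter.1 e.1).2, e.2⟩,
      (mNb.1 (this d d1 d2)).imp fun x e => ⟨(mem_inter.1 e.1).1, (mem_inter.1 e.1).2, e.2⟩⟩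
  have af := k.arc f (h.tf.sub f1)
  have al := k.arc l (h.tl.sub l1)
  have ap := h.arc p (k.tf.sub p1)
  have aq := h.arc q (k.tl.sub q1)
  have b1 := h.pos
  have b2 := h.half
  have b3 := k.pos
  have b4 := k.half
  have w0 := fract_nonneg (v - u)
  have w1 := fract_lt_one (v - u)
  have cf := cut (ang f) v u
  have cl := cut (ang l) v u
  have cp := cut (ang p) v u
  have cq := cut (ang q) v u
  have p0 := fract_lt_one (ang p - u)
  have q0 := fract_nonneg (ang q - u)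
  unfold Arc at af al ap aq
  rw [f3] at cf
  rw [l3] at cl
  rw [p3] at cp
  rw [q3] at cq
  by_cases fd : f ∈ Γ d
  · have l4 := al.1 (s1.resolve_left fun w => w fd)
    have qc : q ∈ Γ c := by_contra fun w => by
      have := aq.1 w
      rcases cl with cl | cl <;> rcases cq with cq | cq <;> linarith [cl.1, cl.2, cq.1, cq.2]
    obtain ⟨⟨x, x1, x2, x3⟩, y, y1, y2, y3⟩ := two h.tf k.tl h.cf (nb_of q1 qc) (nb_of f1 fd) k.cl
    have y4 := k.el y y2 y3
    have y5 := h.arc y (h.tf.sub y1)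
    have cy := cut (ang y) v u
    rw [y4] at cy
    have y0 := fract_nonneg (ang y - u)
    by_cases yc : y ∈ Γ c
    · rw [h.ef y y1 yc] at cy
      rcases cl with cl | cl <;> rcases cy with cy | cy <;> linarith [cl.1, cl.2, cy.1, cy.2]
    · have := y5.1 yc
      unfold Arc at this
      rcases cl with cl | cl <;> rcases cy with cy | cy <;> linarith [cl.1, cl.2, cy.1, cy.2]
  · have f4 := af.1 fd
    have pc : p ∈ Γ c := by_contra fun w => by
      have := ap.1 w
      rcases cf with cf | cf <;> rcases cp with cp | cp <;> linarith [cf.1, cf.2, cp.1, cp.2]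
    have q4 := aq.1 (s2.resolve_left fun w => w pc)
    have ld : l ∈ Γ d := by_contra fun w => by
      have := al.1 w
      rcases cl with cl | cl <;> rcases cq with cq | cq <;> linarith [cl.1, cl.2, cq.1, cq.2]
    obtain ⟨⟨x, x1, x2, x3⟩, y, y1, y2, y3⟩ := two h.tl k.tf h.cl (nb_of p1 pc) (nb_of l1 ld) k.cf
    have x4 := h.el x x1 x3
    have x5 := k.arc x (h.tl.sub x1)
    have cx := cut (ang x) v u
    rw [x4] at cx
    by_cases xd : x ∈ Γ d
    · rw [k.ef x x2 xd] at cx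
      rcases cf with cf | cf <;> rcases cx with cx | cx <;> linarith [cf.1, cf.2, cx.1, cx.2]
    · have := x5.1 xd
      unfold Arc at this
      rcases cq with cq | cq <;> rcases cx with cx | cx <;> linarith [cq.1, cq.2, cx.1, cx.2]

/-- arcs inside the given arcs, longer than a half turn, with surplus one -/
structure Sys (P : Finset X) (H Γ : Fin n → Finset X) (a : X) (ang : X → ℝ) (lo len l r : Fin n → ℝ) :
    Prop where
  bd : ∀ y, a ∈ H y → 0 ≤ l y ∧ r y ≤ len y ∧ l y + 1 / 2 < r y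
  mem : ∀ y, a ∈ H y → ∀ x, x ∈ Γ y ↔
    x ∈ P.erase a ∧ l y < fract (ang x - lo y) ∧ fract (ang x - lo y) < r y
  out : ∀ y, a ∉ H y → Γ y = H y
  sur : Sur Γ (P.erase a)

theorem shrink (hB : Base P H) (hC : Circ P H G a E ang lo len Bad) :
    ∃ (Γ : Fin n → Finset X) (θ : Fin n → ℝ), (∀ y, Γ y ⊆ (H y).erase a) ∧
      (∀ y, a ∉ H y → Γ y = H y ∧ ∀ x ∈ H y, Arc (θ y) (1 / 2) (ang x)) ∧ Sur Γ (P.erase a) ∧
      ∀ y, a ∈ H y → (∃ h ∈ E, h ∈ Γ y) ∧
        (Nw (P.erase a) Γ ang y (θ y) ∨ ∃ u φ Xf Xl, Wd (P.erase a) Γ ang y u φ Xf Xl) := by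
  classical
  have GQ : ∀ y, G y ⊆ P.erase a := fun y => (hC.sub y).trans (erase_subset_erase _ (hB.sub y))
  have ex : ∃ m, ∃ Γ l r, Sys P H Γ a ang lo len l r ∧ ∑ y, (Γ y).card = m :=
    ⟨_, G, fun _ => 0, len, ⟨fun y hy => ⟨le_rfl, le_rfl, by linarith [(hC.wide y hy).1]⟩,
      fun y hy x => ⟨fun h => ⟨GQ y h, (hC.arc y hy x (GQ y h)).1 h⟩,
        fun h => (hC.arc y hy x h.1).2 h.2⟩, fun y hy => (hC.out y hy).1, hC.sur⟩, rfl⟩
  obtain ⟨Γ, l, r, hS, hm⟩ := Nat.find_spec ex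
  have step : ∀ y, a ∈ H y → ∀ l' r', l y ≤ l' → r' ≤ r y → l' + 1 / 2 < r' → ∀ x ∈ Γ y,
      ¬ (l' < fract (ang x - lo y) ∧ fract (ang x - lo y) < r') → ∃ Z, Ti Γ (P.erase a) Z ∧
        y ∈ Nb Γ Z ∧ ∀ x ∈ Z, x ∈ Γ y → ¬ (l' < fract (ang x - lo y) ∧ fract (ang x - lo y) < r') := by
    intro y hy l' r' h1 h2 h3 x x1 x2
    obtain ⟨Z, z1, z2, z3⟩ := crit hS.sur y ((Γ y).filter fun x =>
      l' < fract (ang x - lo y) ∧ fract (ang x - lo y) < r') fun hs => by
        have := Nat.find_min' ex ⟨_, update l y l', update r y r', ⟨fun w hw => ?_,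
          fun w hw q => ?_, fun w hw => ?_, hs⟩, rfl⟩
        · rw [← hm] at this
          refine this.not_gt (sum_lt_sum (fun w _ => ?_) ⟨y, mem_univ _, ?_⟩)
          · by_cases c : w = y
            · rw [c, update_self]; exact card_filter_le _ _
            · rw [update_of_ne c]
          · rw [update_self]
            exact card_lt_card ⟨filter_subset _ _, fun c => x2 (mem_filter.1 (c x1)).2⟩
        · by_cases c : w = y
          · rw [c, update_self, update_self]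
            exact ⟨(hS.bd y hy).1.trans h1, h2.trans (hS.bd y hy).2.1, h3⟩
          · rw [update_of_ne c, update_of_ne c]; exact hS.bd w hw
        · by_cases c : w = y
          · rw [c, update_self, update_self, update_self, mem_filter, hS.mem y hy]
            exact ⟨fun k => ⟨k.1.1, k.2⟩,
              fun k => ⟨⟨k.1, h1.trans_lt k.2.1, k.2.2.trans_le h2⟩, k.2⟩⟩
          · rw [update_of_ne c, update_of_ne c, update_of_ne c]; exact hS.mem w hw q
        · rw [update_of_ne fun c : w = y => hw (c ▸ hy)]; exact hS.out w hw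
    exact ⟨Z, z1, z2, fun x hx k c => z3 x hx (mem_filter.2 ⟨k, c⟩)⟩
  have hQ : (P.erase a).card + 1 = n := by rw [card_erase_add_one hC.mem, hB.card]
  have all := hS.sur.all hQ (card_pos.1 (by have := hB.two; omega))
  have key : ∀ y, ∃ θ, a ∈ H y → (∃ h ∈ E, h ∈ Γ y) ∧
      (Nw (P.erase a) Γ ang y θ ∨ ∃ u φ Xf Xl, Wd (P.erase a) Γ ang y u φ Xf Xl) := by
    intro y
    by_cases hy : a ∈ H y
    swap
    · exact ⟨0, fun c => absurd c hy⟩
    obtain ⟨b1, b2, b3⟩ := hS.bd y hy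
    have b4 := (hC.wide y hy).2
    have ne : (Γ y).Nonempty := (mNb.1 (all ▸ mem_univ y)).imp fun x k => k.2
    obtain ⟨f, f1, f2⟩ := exists_min_image (Γ y) (fun x => fract (ang x - lo y)) ne
    obtain ⟨q, q1, q2⟩ := exists_max_image (Γ y) (fun x => fract (ang x - lo y)) ne
    obtain ⟨f3, f4, f5⟩ := (hS.mem y hy f).1 f1
    obtain ⟨q3, q4, q5⟩ := (hS.mem y hy q).1 q1
    have pick : ∀ β, β < r y → β < fract (ang f - lo y) + 1 / 2 → ∃ s, lo y + s ∉ Bad ∧ l y < s ∧
        s < fract (ang f - lo y) ∧ β < s + 1 / 2 ∧ s + 1 / 2 < r y := fun β k1 k2 => by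
      obtain ⟨s, s1, s2, s3⟩ := (hC.bad.dense_compl ℝ).exists_between
        (show lo y + max (l y) (β - 1 / 2) < lo y + min (fract (ang f - lo y)) (r y - 1 / 2) by
          rw [add_lt_add_iff_left, max_lt_iff, lt_min_iff, lt_min_iff]
          exact ⟨⟨f4, by linarith⟩, by linarith, by linarith⟩)
      have := le_max_left (l y) (β - 1 / 2)
      have := le_max_right (l y) (β - 1 / 2)
      have := min_le_left (fract (ang f - lo y)) (r y - 1 / 2)
      have := min_le_right (fract (ang f - lo y)) (r y - 1 / 2)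
      exact ⟨s - lo y, by simpa using s1, by linarith, by linarith, by linarith, by linarith⟩
    have arc : ∀ s, l y < s → s + 1 / 2 < r y → ∀ x, Arc (lo y + s) (1 / 2) (ang x) ↔
        s < fract (ang x - lo y) ∧ fract (ang x - lo y) < s + 1 / 2 := fun s k1 k2 x => by
      have := fract_nonneg (ang x - lo y)
      rcases cut' (ang x) (lo y) s (by linarith) (by linarith) with c | c <;> rw [Arc, c.2] <;>
        exact ⟨fun k => ⟨by linarith [k.1, k.2, c.1], by linarith [k.1, k.2, c.1]⟩,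
          fun k => ⟨by linarith [k.1, k.2, c.1], by linarith [k.1, k.2, c.1]⟩⟩
    have hull : ∃ h ∈ E, h ∈ Γ y := by
      obtain ⟨s, s0, s1, s2, s3, s4⟩ := pick _ f5 (by linarith)
      obtain ⟨h, h1, h2⟩ := hC.hull _ s0 ⟨f, f3, (arc s s1 s4 f).2 ⟨s2, s3⟩⟩
      rw [arc s s1 s4] at h2
      exact ⟨h, h1, (hS.mem y hy h).2 ⟨hC.hs h1, by linarith [h2.1], by linarith [h2.2]⟩⟩
    by_cases w : fract (ang q - lo y) < fract (ang f - lo y) + 1 / 2
    · obtain ⟨s, -, s1, s2, s3, s4⟩ := pick _ q5 w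
      refine ⟨lo y + s, fun _ => ⟨hull, Or.inl ⟨fun x hx => ?_, fun x hx => ?_⟩⟩⟩
      · rw [arc s s1 s4]
        exact ⟨fun k => ⟨s2.trans_le (f2 x k), (q2 x k).trans_lt s3⟩, fun k =>
          (hS.mem y hy x).2 ⟨hx, by linarith [k.1], by linarith [k.2]⟩⟩
      · have := fract_nonneg (ang x - lo y)
        have m := fun k1 k2 => (hS.mem y hy x).2 ⟨hx, k1, k2⟩
        rcases cut' (ang x) (lo y) s (by linarith) (by linarith) with c | c <;> rw [c.2]
        · exact ⟨fun k => by linarith [f2 x (m (by linarith) (by linarith))],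
            fun k => by linarith [q2 x (m (by linarith) (by linarith))]⟩
        · exact ⟨fun k => by linarith, fun k => by linarith⟩
    · obtain ⟨Xf, a1, a2, a3⟩ := step y hy _ (r y) f4.le le_rfl (by linarith) f f1
        fun k => lt_irrefl _ k.1
      obtain ⟨Xl, e1, e2, e3⟩ := step y hy (l y) _ le_rfl q5.le (by linarith) q q1
        fun k => lt_irrefl _ k.2
      have q6 := fract_lt_one (ang q - lo y)
      have cc := fun x => cut' (ang x) (lo y) _ (fract_nonneg (ang q - lo y)) q6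
      refine ⟨0, fun _ => ⟨hull, Or.inr ⟨lo y + fract (ang q - lo y),
        fract (ang f - lo y) - fract (ang q - lo y) + 1, Xf, Xl, by linarith, by linarith,
        fun x hx => ?_, a1, e1, a2, e2, fun x x1 x2 => ?_, fun x x1 x2 => ?_⟩⟩⟩
      · have := fract_nonneg (ang x - lo y)
        have := fract_lt_one (ang x - lo y)
        have m := fun k1 k2 => (hS.mem y hy x).2 ⟨hx, k1, k2⟩
        rw [Arc]
        refine ⟨fun k => ?_, fun k c => ?_⟩
        · rcases cc x with c | c <;> rw [c.2]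
          · exact ⟨by_contra fun d => k (m (by linarith [c.1]) (by linarith)), by linarith⟩
          · exact ⟨by linarith, by_contra fun d => k (m (by linarith) (by linarith [c.1]))⟩
        · have := f2 x c
          have := q2 x c
          rcases cc x with c | c <;> rw [c.2] at k <;> linarith [k.1, k.2, c.1]
      · have x3 := (hS.mem y hy x).1 x2
        have : fract (ang x - lo y) = fract (ang f - lo y) :=
          le_antisymm (not_lt.1 fun c => a3 x x1 x2 ⟨c, x3.2.2⟩) (f2 x x2)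
        rcases cc x with c | c
        · linarith [c.1]
        · rw [c.2, this]
      · have x3 := (hS.mem y hy x).1 x2
        have : fract (ang x - lo y) = fract (ang q - lo y) :=
          le_antisymm (q2 x x2) (not_lt.1 fun c => e3 x x1 x2 ⟨x3.2.1, c⟩)
        rcases cc x with c | c
        · rw [c.2, this, sub_self]
        · linarith [c.1]
  choose θ hθ using key
  refine ⟨Γ, fun y => if a ∈ H y then θ y else lo y, fun y x hx => ?_,
    fun y hy => ⟨hS.out y hy, by simp only [if_neg hy]; exact (hC.out y hy).2⟩, hS.sur,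
    fun y hy => by simp only [if_pos hy]; exact hθ y hy⟩
  by_cases hy : a ∈ H y
  · obtain ⟨k1, k2, k3⟩ := (hS.mem y hy x).1 hx
    exact hC.sub y ((hC.arc y hy x k1).2 ⟨(hS.bd y hy).1.trans_lt k2, k3.trans_le (hS.bd y hy).2.1⟩)
  · rwa [erase_eq_of_notMem hy, ← hS.out y hy]

end Pool.Agent.MP_3b4e7c_co.Gen4
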