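import Pool.Agent.MP_3b4e7c_co.Gen4.Asm

/-! The closing theorem if one label stays wide. -/

namespace Pool.Agent.MP_3b4e7c_co.Gen4

open Finset Function Gen Up Int

variable {X : Type} [DecidableEq X] {n : ℕ} {P E : Finset X} {H Γ : Fin n → Finset X} {a e : X}
  {c A B g : Fin n} {t : Fin n → X} {ξ : X → ℝ} {η : Fin n → ℝ} {φ : ℝ} {Xf Xl M : Finset X}

/-- three tight sets that share only `c`; a real incidence between two of them -/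
theorem spider1 (hC : Ctx P H Γ a E) (full : Full H Γ a E) (hs : Sur Γ (P.erase a))
    {Z1 Z2 Z3 : Finset X} (t1 : Ti Γ (P.erase a) Z1) (t2 : Ti Γ (P.erase a) Z2)
    (t3 : Ti Γ (P.erase a) Z3) (c1 : c ∈ Nb Γ Z1) (c2 : c ∈ Nb Γ Z2) (c3 : c ∈ Nb Γ Z3)
    (d12 : Disjoint Z1 Z2) (d13 : Disjoint Z1 Z3) (d23 : Disjoint Z2 Z3)
    (arm : ∀ z, a ∈ H z → z ≠ c → (z ∈ Nb Γ Z1 ∨ z ∈ Nb Γ Z2 ∨ z ∈ Nb Γ Z3) ∧
      (z ∈ Nb Γ Z1 → Z1 ⊆ Γ z) ∧ (z ∈ Nb Γ Z2 → Z2 ⊆ Γ z) ∧ (z ∈ Nb Γ Z3 → Z3 ⊆ Γ z))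
    (aA : a ∈ H A) (Ac : A ≠ c) (A2 : A ∈ Nb Γ Z2) (aB : a ∈ H B) (Bc : B ≠ c)
    (B3 : B ∈ Nb Γ Z3) (ag : a ∈ H g) (gc : g ≠ c) (g1 : g ∈ Nb Γ Z1)
    (hM : Least Γ (P.erase a) c A M) (eM : e ∈ M) (eg : e ∈ H g) : Goal H a E := by
  have s12 := (t1.disj hs t2 d12 c1 c2).2
  have s13 := (t1.disj hs t3 d13 c1 c3).2
  have s23 := (t2.disj hs t3 d23 c2 c3).2
  have AB : A ≠ B := fun k => Ac (s23 A A2 (k ▸ B3))
  have gA : g ≠ A := fun k => gc (s12 g g1 (k ▸ A2))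
  have gB : g ≠ B := fun k => gc (s13 g g1 (k ▸ B3))
  obtain ⟨N, hN⟩ := least hs hC.card hC.neQ AB
  obtain ⟨-, m1, m2, m3⟩ := hN.mid hs t2 t3 d23 c2 c3 A2 B3 Ac Bc
  obtain ⟨eN, e2⟩ := mem_inter.1 (hM.min _ m1 m2 m3 eM)
  obtain ⟨t, ht⟩ := pairM hC hs AB hN eN
  refine flow hC full aA aB ag eg (t2.sub e2) ht (fun y x => (y = c → x ∈ Z3) ∧ (y ≠ c →
    (y ∈ Nb Γ Z1 → x ∈ Z1) ∧ (y ∈ Nb Γ Z2 → x ∈ Z2) ∧ (y ∈ Nb Γ Z3 → x ∈ Z3)))
    (fun r hr y y1 _ => ?_) fun x r x1 x2 hr pr alt => ?_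
  · have k3 := hr.cnt (Z := Z3) (I := (Nb Γ Z3).erase B)
      (subset_erase.2 ⟨t3.sub, disjoint_left.1 d23 e2⟩)
      (fun w w1 w2 => mem_erase.2 ⟨(mOm.1 w1).2, nb_of w2 (hr.mem w w1)⟩)
      (by rw [card_erase_of_mem B3, t3.card]; rfl)
    have rc := (k3 c (mem_erase.2 ⟨Bc.symm, c3⟩)).2
    have k1 := hr.cnt (Z := Z1) (I := (Nb Γ Z1).erase c)
      (subset_erase.2 ⟨t1.sub, disjoint_right.1 d12 e2⟩)
      (fun w w1 w2 => mem_erase.2 ⟨fun q => disjoint_left.1 d13 (q ▸ w2) rc,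
        nb_of w2 (hr.mem w w1)⟩) (by rw [card_erase_of_mem c1, t1.card]; rfl)
    have k2 := hr.cnt (Z := Z2.erase e) (I := ((Nb Γ Z2).erase c).erase A)
      (erase_subset_erase _ t2.sub)
      (fun w w1 w2 => mem_erase.2 ⟨(mOm.1 w1).1, mem_erase.2
        ⟨fun q => disjoint_left.1 d23 (q ▸ mem_of_mem_erase w2) rc,
          nb_of (mem_of_mem_erase w2) (hr.mem w w1)⟩⟩)
      (by rw [card_erase_of_mem (mem_erase.2 ⟨Ac, A2⟩), card_erase_of_mem c2, t2.card,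
        card_erase_of_mem e2]; rfl)
    exact ⟨fun q => q ▸ rc, fun q => ⟨fun w => (k1 y (mem_erase.2 ⟨q, w⟩)).2,
      fun w => mem_of_mem_erase (k2 y (mem_erase.2 ⟨(mOm.1 y1).1, mem_erase.2 ⟨q, w⟩⟩)).2,
      fun w => (k3 y (mem_erase.2 ⟨(mOm.1 y1).2, w⟩)).2⟩⟩
  · have ps : ∀ z, Src H a A B g z → _ := fun z s => pr z (mOm.2 ⟨s.2.1, s.2.2.1⟩) s.1
    have p3 : ∀ z, Src H a A B g z → z = c ∨ z ∈ Nb Γ Z3 → r z ∈ Z3 := fun z s q => by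
      by_cases k : z = c
      exacts [(ps z s).1 k, ((ps z s).2 k).2.2 (q.resolve_left k)]
    refine fin hC AB aA aB ag x2 x1 hr alt (fun z => z ≠ c ∧ z ∈ Nb Γ Z2)
      (fun z => z = c ∨ z ∈ Nb Γ Z3) (fun z => z ≠ c ∧ z ∈ Nb Γ Z1) (fun _ => False)
      (fun z s => ⟨?_, fun q => hC.real ((arm A aA Ac).2.2.1 A2 (((ps z s).2 q.1).2.1 q.2)),
        fun q => hC.real ((arm B aB Bc).2.2.2 B3 (p3 z s q)), fun q =>
          ⟨hC.real ((arm g ag gc).2.1 g1 (((ps z s).2 q.1).1 q.2)), hC.real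
            ((arm z s.1 q.1).2.1 q.2 (((pr g (mOm.2 ⟨gA, gB⟩) ag).2 gc).1 g1)), gA, gB⟩,
        False.elim⟩)
      (fun u v su sv q k _ => Or.inl (hC.real
        ((arm v sv.1 k.1).2.2.1 k.2 (((ps u su).2 q.1).2.1 q.2))))
      (fun u v su sv q k uv => ?_) (fun u v su sv q k _ => Or.inl (hC.real
        ((arm v sv.1 k.1).2.1 k.2 (((ps u su).2 q.1).1 q.2)))) fun _ _ _ _ q => q.elim
    · by_cases k : z = c
      · exact Or.inr (Or.inl (Or.inl k))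
      · rcases (arm z s.1 k).1 with q | q | q
        exacts [Or.inr (Or.inr (Or.inl ⟨k, q⟩)), Or.inl ⟨k, q⟩, Or.inr (Or.inl (Or.inr q))]
    · by_cases w : v = c
      · have uc : u ≠ c := fun j => uv (j.trans w.symm)
        exact Or.inr (hC.real ((arm u su.1 uc).2.2.2 (q.resolve_left uc) (p3 v sv k)))
      · exact Or.inl (hC.real ((arm v sv.1 w).2.2.2 (k.resolve_left w) (p3 u su q)))

theorem spider (hC : Ctx P H Γ a E) (full : Full H Γ a E) (hs : Sur Γ (P.erase a))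
    {Z1 Z2 Z3 : Finset X} (t1 : Ti Γ (P.erase a) Z1) (t2 : Ti Γ (P.erase a) Z2)
    (t3 : Ti Γ (P.erase a) Z3) (c1 : c ∈ Nb Γ Z1) (c2 : c ∈ Nb Γ Z2) (c3 : c ∈ Nb Γ Z3)
    (d12 : Disjoint Z1 Z2) (d13 : Disjoint Z1 Z3) (d23 : Disjoint Z2 Z3)
    (arm : ∀ z, a ∈ H z → z ≠ c → (z ∈ Nb Γ Z1 ∨ z ∈ Nb Γ Z2 ∨ z ∈ Nb Γ Z3) ∧
      (z ∈ Nb Γ Z1 → Z1 ⊆ Γ z) ∧ (z ∈ Nb Γ Z2 → Z2 ⊆ Γ z) ∧ (z ∈ Nb Γ Z3 → Z3 ⊆ Γ z))
    (aA : a ∈ H A) (Ac : A ≠ c) (A1 : A ∈ Nb Γ Z1) (aB : a ∈ H B) (Bc : B ≠ c)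
    (B2 : B ∈ Nb Γ Z2) (ag : a ∈ H g) (gc : g ≠ c) (g3 : g ∈ Nb Γ Z3) : Goal H a E := by
  obtain ⟨M1, h1⟩ := least hs hC.card hC.neQ Ac.symm
  obtain ⟨M2, h2⟩ := least hs hC.card hC.neQ Bc.symm
  obtain ⟨p, hp⟩ := h1.ti.ne
  obtain ⟨q, hq⟩ := h2.ti.ne
  have p1 := h1.min _ t1 c1 A1 hp
  have q2 := h2.min _ t2 c2 B2 hq
  obtain ⟨y, yc, py, qy⟩ : ∃ y, y ≠ c ∧ p ∈ H y ∧ q ∈ H y := by
    obtain ⟨u, v, uv, k1, k2⟩ := hC.base.dh.pair (mem_of_mem_erase (t1.sub p1))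
      (mem_of_mem_erase (t2.sub q2)) fun k => disjoint_left.1 d12 p1 (k ▸ q2)
    by_cases k : u = c
    exacts [⟨v, fun j => uv (k.trans j.symm), k2⟩, ⟨u, k, k1⟩]
  have ay : a ∈ H y := by_contra fun k => yc ((t1.disj hs t2 d12 c1 c2).2 y
    (nb_of p1 (hC.out y k ▸ py)) (nb_of q2 (hC.out y k ▸ qy)))
  rcases (arm y ay yc).1 with k | k | k
  · exact spider1 hC full hs t1 t2 t3 c1 c2 c3 d12 d13 d23 arm aB Bc B2 ag gc g3 ay yc k h2 hq qy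
  · exact spider1 hC full hs t2 t1 t3 c2 c1 c3 d12.symm d23 d13 (fun z z1 z2 => by
      have := arm z z1 z2; tauto) aA Ac A1 ag gc g3 ay yc k h1 hp py
  · exact spider1 hC full hs t3 t1 t2 c3 c1 c2 d13.symm d23.symm d12 (fun z z1 z2 => by
      have := arm z z1 z2; tauto) aA Ac A1 aB Bc B2 ay yc k h1 hp py

/-- The window that is cut at the last ray of the wide label `c`: `ξ` is the position of a point,
`η` the start of a half circle, and `c` misses the positions between `0` and `φ`. -/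
structure Win (P : Finset X) (H Γ : Fin n → Finset X) (a : X) (E : Finset X) (c : Fin n)
    (ξ : X → ℝ) (η : Fin n → ℝ) (φ : ℝ) (Xf Xl : Finset X) : Prop where
  ctx : Ctx P H Γ a E
  full : Full H Γ a E
  sur : Sur Γ (P.erase a)
  ac : a ∈ H c
  pos : 0 < φ
  half : φ ≤ 1 / 2
  xi : ∀ x ∈ P.erase a, 0 ≤ ξ x ∧ ξ x < 1
  eta : ∀ z, a ∈ H z → z ≠ c → 0 < η z ∧ η z < 1 / 2 + φ ∧ η z ≠ φ ∧ η z ≠ 1 / 2
  yes : ∀ z, a ∈ H z → z ≠ c → ∀ x ∈ Γ z, η z < ξ x ∧ ξ x < η z + 1 / 2 ∨ ξ x + 1 / 2 < η z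
  no : ∀ z, a ∈ H z → z ≠ c → ∀ x ∈ P.erase a, x ∉ Γ z →
    ξ x < η z ∧ η z < ξ x + 1 / 2 ∨ η z + 1 / 2 < ξ x
  cy : ∀ x ∈ Γ c, ξ x = 0 ∨ φ ≤ ξ x
  cn : ∀ x ∈ P.erase a, x ∉ Γ c → 0 < ξ x ∧ ξ x < φ
  tf : Ti Γ (P.erase a) Xf
  tl : Ti Γ (P.erase a) Xl
  cf : c ∈ Nb Γ Xf
  cl : c ∈ Nb Γ Xl
  ef : ∀ x ∈ Xf, x ∈ Γ c → ξ x = φ
  el : ∀ x ∈ Xl, x ∈ Γ c → ξ x = 0

namespace Win

theorem m1 (W : Win P H Γ a E c ξ η φ Xf Xl) {z : Fin n} {x : X} (az : a ∈ H z) (zc : z ≠ c)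
    (hx : x ∈ P.erase a) (h1 : η z < ξ x) (h2 : ξ x < η z + 1 / 2) : x ∈ Γ z := by_contra fun k => by
  rcases W.no z az zc x hx k with q | q <;> linarith [q]

theorem m2 (W : Win P H Γ a E c ξ η φ Xf Xl) {z : Fin n} {x : X} (az : a ∈ H z) (zc : z ≠ c)
    (hx : x ∈ P.erase a) (h : ξ x + 1 / 2 < η z) : x ∈ Γ z := by_contra fun k => by
  rcases W.no z az zc x hx k with q | q <;> linarith [q]

theorem y1 (W : Win P H Γ a E c ξ η φ Xf Xl) {z : Fin n} {x : X} (az : a ∈ H z) (zc : z ≠ c)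
    (hx : x ∈ Γ z) (h : η z < 1 / 2) : η z < ξ x ∧ ξ x < η z + 1 / 2 :=
  (W.yes z az zc x hx).resolve_right fun k => by linarith [(W.xi x (W.ctx.inQ hx)).1]

theorem gen (W : Win P H Γ a E c ξ η φ Xf Xl) {z : Fin n} {x : X} (az : a ∈ H z) (zc : z ≠ c)
    (hx : x ∈ P.erase a) : ξ x ≠ η z ∧ ξ x ≠ η z + 1 / 2 := by
  by_cases k : x ∈ Γ z
  · rcases W.yes z az zc x k with q | q <;> exact ⟨fun j => by linarith [q], fun j => by linarith [q]⟩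
  · rcases W.no z az zc x hx k with q | q <;>
      exact ⟨fun j => by linarith [q], fun j => by linarith [q]⟩

theorem sep (W : Win P H Γ a E c ξ η φ Xf Xl) :
    Disjoint Xf Xl ∧ ∀ v ∈ Nb Γ Xf, v ∈ Nb Γ Xl → v = c :=
  W.tf.sep W.sur W.tl W.cf W.cl fun x x1 x2 k => W.pos.ne' ((W.ef x x1 k).symm.trans (W.el x x2 k))

theorem pf (W : Win P H Γ a E c ξ η φ Xf Xl) {x : X} (h : x ∈ Xf) : ξ x ≤ φ := by
  by_cases k : x ∈ Γ c
  exacts [(W.ef x h k).le, (W.cn x (W.tf.sub h) k).2.le]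

theorem pl (W : Win P H Γ a E c ξ η φ Xf Xl) {x : X} (h : x ∈ Xl) : ξ x < φ := by
  by_cases k : x ∈ Γ c
  exacts [(W.el x h k).trans_lt W.pos, (W.cn x (W.tl.sub h) k).2]

theorem nf (W : Win P H Γ a E c ξ η φ Xf Xl) {z : Fin n} (az : a ∈ H z) (zc : z ≠ c)
    (h : η z < φ) : z ∈ Nb Γ Xf := by
  obtain ⟨x, x1, x2⟩ := mNb.1 W.cf
  have := W.ef x x1 x2
  exact nb_of x1 (W.m1 az zc (W.tf.sub x1) (by linarith)
    (by linarith [(W.eta z az zc).1, W.half]))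

theorem nl (W : Win P H Γ a E c ξ η φ Xf Xl) {z : Fin n} (az : a ∈ H z) (zc : z ≠ c)
    (h : 1 / 2 < η z) : z ∈ Nb Γ Xl := by
  obtain ⟨x, x1, x2⟩ := mNb.1 W.cl
  exact nb_of x1 (W.m2 az zc (W.tl.sub x1) (by linarith [W.el x x1 x2]))

theorem typ (W : Win P H Γ a E c ξ η φ Xf Xl) {z : Fin n} (az : a ∈ H z) (zc : z ≠ c) :
    η z < φ ∨ φ < η z ∧ η z < 1 / 2 ∨ 1 / 2 < η z := by
  obtain ⟨-, -, h1, h2⟩ := W.eta z az zc
  rcases h1.lt_or_gt with h1 | h1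
  · exact Or.inl h1
  · exact Or.inr (h2.lt_or_gt.imp_left fun k => ⟨h1, k⟩)

theorem mirror (W : Win P H Γ a E c ξ η φ Xf Xl) : Win P H Γ a E c
    (fun x => if ξ x ≤ φ then φ - ξ x else φ + 1 - ξ x) (fun z => φ + 1 / 2 - η z) φ Xl Xf := by
  have p0 := W.pos
  have p1 := W.half
  refine ⟨W.ctx, W.full, W.sur, W.ac, p0, p1, fun x hx => ?_, fun z az zc => ?_,
    fun z az zc x hx => ?_, fun z az zc x hx k => ?_, fun x hx => ?_, fun x hx k => ?_, W.tl, W.tf,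
    W.cl, W.cf, fun x x1 x2 => ?_, fun x x1 x2 => ?_⟩
  · have := W.xi x hx
    split_ifs with h <;> constructor <;> linarith [this.1, this.2]
  · obtain ⟨h1, h2, h3, h4⟩ := W.eta z az zc
    exact ⟨by linarith, by linarith, fun k => h4 (by linarith), fun k => h3 (by linarith)⟩
  · obtain ⟨h1, h2, -⟩ := W.eta z az zc
    obtain ⟨x1, x2⟩ := W.xi x (W.ctx.inQ hx)
    rcases W.yes z az zc x hx with ⟨q, q'⟩ | q <;> split_ifs with h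
    · exact Or.inr (by linarith)
    · exact Or.inl ⟨by linarith, by linarith⟩
    · exact Or.inl ⟨by linarith, by linarith⟩
    · linarith
  · obtain ⟨h1, h2, -⟩ := W.eta z az zc
    obtain ⟨x1, x2⟩ := W.xi x hx
    rcases W.no z az zc x hx k with ⟨q, q'⟩ | q <;> split_ifs with h
    · exact Or.inl ⟨by linarith, by linarith⟩
    · exact Or.inr (by linarith)
    · linarith
    · exact Or.inl ⟨by linarith, by linarith⟩
  · obtain ⟨x1, x2⟩ := W.xi x (W.ctx.inQ hx)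
    rcases W.cy x hx with q | q <;> split_ifs with h
    · exact Or.inr (by linarith)
    · linarith
    · exact Or.inl (by linarith)
    · exact Or.inr (by linarith)
  · obtain ⟨q, q'⟩ := W.cn x hx k
    rw [if_pos q'.le]; exact ⟨by linarith, by linarith⟩
  · rw [W.el x x1 x2, if_pos p0.le, sub_zero]
  · rw [W.ef x x1 x2, if_pos le_rfl, sub_self]

/-- `B` has the least start, `A` the largest start before `1 / 2`, `g` serves the later labels -/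
theorem two (W : Win P H Γ a E c ξ η φ Xf Xl) (AB : A ≠ B) (aA : a ∈ H A) (Ac : A ≠ c)
    (aB : a ∈ H B) (Bc : B ≠ c) (A1 : η A < 1 / 2)
    (A2 : ∀ z, a ∈ H z → z ≠ c → η z < 1 / 2 → η z ≤ η A) (B1 : η B < φ)
    (B2 : ∀ z, a ∈ H z → z ≠ c → η B ≤ η z) (ag : a ∈ H g) (eg : e ∈ H g) (eQ : e ∈ P.erase a)
    (hm : Mt Γ (Om A B) ((P.erase a).erase e) t) (alt : Alt0 H a E A B e t)
    (hc : c ≠ g → ξ (t c) = φ)
    (hl : ∀ z, a ∈ H z → z ≠ c → z ≠ g → 1 / 2 < η z → φ < η A ∧ g ≠ c ∧ η z ≤ η g ∧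
      (∀ y ∈ Om A B, a ∈ H y → y ≠ c → η y < φ → ξ (t y) ≤ φ) ∧
      (η g < ξ (t z) ∨ ξ (t z) + 1 / 2 < η z → e ∈ H z)) : Goal H a E := by
  have hC := W.ctx
  have p1 := W.half
  have B0 := (W.eta B aB Bc).1
  have om : ∀ {z}, Src H a A B g z → z ∈ Om A B := fun s => mOm.2 ⟨s.2.1, s.2.2.1⟩
  have tm : ∀ {z}, Src H a A B g z → t z ∈ Γ z := fun s => hm.mem _ (om s)
  have tQ : ∀ {z}, Src H a A B g z → t z ∈ P.erase a := fun s => hC.inQ (tm s)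
  have t1 : ∀ {z}, Src H a A B g z → ξ (t z) < 1 := fun s => (W.xi _ (tQ s)).2
  refine fin hC AB aA aB ag eg eQ hm alt
    (fun z => z ≠ c ∧ (η z < 1 / 2 ∧ η B + 1 / 2 < ξ (t z) ∨
      1 / 2 < η z ∧ η z < ξ (t z) ∧ ξ (t z) < η g))
    (fun z => z = c ∨ η z < 1 / 2 ∧ ξ (t z) < η B + 1 / 2) (fun _ => False)
    (fun z => z ≠ c ∧ 1 / 2 < η z ∧ (η g < ξ (t z) ∨ ξ (t z) + 1 / 2 < η z))
    (fun z s => ⟨?_, ?_, ?_, False.elim, ?_⟩) ?_ ?_ (fun _ _ _ _ q => q.elim) ?_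
  · by_cases k : z = c
    · exact Or.inr (Or.inl (Or.inl k))
    rcases (W.eta z s.1 k).2.2.2.lt_or_gt with h | h
    · rcases (W.gen aB Bc (tQ s)).2.lt_or_gt with q | q
      exacts [Or.inr (Or.inl (Or.inr ⟨h, q⟩)), Or.inl ⟨k, Or.inl ⟨h, q⟩⟩]
    · rcases W.yes z s.1 k _ (tm s) with q | q
      · rcases (W.gen ag (hl z s.1 k s.2.2.2 h).2.1 (tQ s)).1.lt_or_gt with j | j
        exacts [Or.inl ⟨k, Or.inr ⟨h, q.1, j⟩⟩, Or.inr (Or.inr (Or.inr ⟨k, h, Or.inl j⟩))]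
      · exact Or.inr (Or.inr (Or.inr ⟨k, h, Or.inr q⟩))
  · rintro ⟨k, ⟨h, q⟩ | ⟨h, q, j⟩⟩
    · exact hC.real (W.m1 aA Ac (tQ s) (by linarith)
        (by linarith [(W.y1 s.1 k (tm s) h).2, A2 z s.1 k h]))
    · obtain ⟨l1, l2, -⟩ := hl z s.1 k s.2.2.2 h
      exact hC.real (W.m1 aA Ac (tQ s) (by linarith) (by linarith [(W.eta g ag l2).2.1]))
  · intro q
    by_cases k : z = c
    · have := hc (k ▸ s.2.2.2)
      rw [← k] at this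
      exact hC.real (W.m1 aB Bc (tQ s) (by linarith) (by linarith))
    · obtain ⟨h, q⟩ := q.resolve_left k
      exact hC.real (W.m1 aB Bc (tQ s) (by linarith [(W.y1 s.1 k (tm s) h).1, B2 z s.1 k]) q)
  · rintro ⟨k, h, q⟩
    obtain ⟨-, l2, l3, -, l5⟩ := hl z s.1 k s.2.2.2 h
    refine ⟨hC.real ?_, l5 q⟩
    rcases q with q | q
    exacts [W.m1 ag l2 (tQ s) q (by linarith [t1 s]), W.m2 ag l2 (tQ s) (by linarith)]
  · have mix : ∀ u v, Src H a A B g u → Src H a A B g v → u ≠ c → v ≠ c → η u < 1 / 2 →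
        η B + 1 / 2 < ξ (t u) → 1 / 2 < η v → η v < ξ (t v) → ξ (t v) < η g → t v ∈ H u := by
      intro u v su sv uc vc h1 h2 h3 h4 h5
      obtain ⟨-, l2, -, l4, -⟩ := hl v sv.1 vc sv.2.2.2 h3
      have : φ < η u := (W.eta u su.1 uc).2.2.1.lt_or_gt.resolve_left fun k => by
        linarith [l4 u (om su) su.1 uc k]
      exact hC.real (W.m1 su.1 uc (tQ sv) (by linarith) (by linarith [(W.eta g ag l2).2.1]))
    rintro u v su sv ⟨uc, ⟨h1, h2⟩ | ⟨h1, h2, h3⟩⟩ ⟨vc, ⟨k1, k2⟩ | ⟨k1, k2, k3⟩⟩ -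
    · rcases le_total (ξ (t u)) (ξ (t v)) with j | j
      · exact Or.inl (hC.real (W.m1 sv.1 vc (tQ su) (by linarith)
          (by linarith [(W.y1 sv.1 vc (tm sv) k1).2])))
      · exact Or.inr (hC.real (W.m1 su.1 uc (tQ sv) (by linarith)
          (by linarith [(W.y1 su.1 uc (tm su) h1).2])))
    · exact Or.inr (mix u v su sv uc vc h1 h2 k1 k2 k3)
    · exact Or.inl (mix v u sv su vc uc k1 k2 h1 h2 h3)
    · rcases le_total (ξ (t u)) (ξ (t v)) with j | j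
      · exact Or.inr (hC.real (W.m1 su.1 uc (tQ sv) (by linarith) (by linarith [t1 sv])))
      · exact Or.inl (hC.real (W.m1 sv.1 vc (tQ su) (by linarith) (by linarith [t1 su])))
  · have mix : ∀ v, Src H a A B g c → Src H a A B g v → v ≠ c → η v < 1 / 2 →
        t c ∈ H v ∨ t v ∈ H c := fun v sc sv vc h => by
      by_cases k : t v ∈ Γ c
      · exact Or.inr (hC.real k)
      · have := hc sc.2.2.2
        exact Or.inl (hC.real (W.m1 sv.1 vc (tQ sc) (by linarith [(W.cn _ (tQ sv) k).2,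
          (W.y1 sv.1 vc (tm sv) h).1]) (by linarith [(W.eta v sv.1 vc).1])))
    intro u v su sv h k uv
    by_cases uc : u = c
    · have vc : v ≠ c := fun j => uv (uc.trans j.symm)
      exact uc ▸ mix v (uc ▸ su) sv vc (k.resolve_left vc).1
    by_cases vc : v = c
    · exact vc ▸ (mix u (vc ▸ sv) su uc (h.resolve_left uc).1).symm
    obtain ⟨h1, h2⟩ := h.resolve_left uc
    obtain ⟨k1, k2⟩ := k.resolve_left vc
    rcases le_total (ξ (t u)) (ξ (t v)) with j | j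
    · exact Or.inr (hC.real (W.m1 su.1 uc (tQ sv) (by linarith [(W.y1 su.1 uc (tm su) h1).1])
        (by linarith [B2 u su.1 uc])))
    · exact Or.inl (hC.real (W.m1 sv.1 vc (tQ su) (by linarith [(W.y1 sv.1 vc (tm sv) k1).1])
        (by linarith [B2 v sv.1 vc])))
  · rintro u v su sv ⟨uc, h1, h2 | h2⟩ ⟨vc, k1, k2⟩ -
    · exact Or.inl (hC.real (W.m1 sv.1 vc (tQ su)
        (by linarith [(hl v sv.1 vc sv.2.2.2 k1).2.2.1]) (by linarith [t1 su])))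
    rcases k2 with k2 | k2
    · exact Or.inr (hC.real (W.m1 su.1 uc (tQ sv)
        (by linarith [(hl u su.1 uc su.2.2.2 h1).2.2.1]) (by linarith [t1 sv])))
    rcases le_total (ξ (t u)) (ξ (t v)) with j | j
    · exact Or.inl (hC.real (W.m2 sv.1 vc (tQ su) (by linarith)))
    · exact Or.inr (hC.real (W.m2 su.1 uc (tQ sv) (by linarith)))

end Win

end Pool.Agent.MP_3b4e7c_co.Gen4
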