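import Pool.Agent.MP_3b4e7c_co.Gen4.Wide

/-! The cases of the closing theorem with one wide label. -/

namespace Pool.Agent.MP_3b4e7c_co.Gen4

open Finset Function Gen Up Int

variable {X : Type} [DecidableEq X] {n : ℕ} {P E : Finset X} {H Γ : Fin n → Finset X} {a e : X}
  {c A B g : Fin n} {t : Fin n → X} {ξ : X → ℝ} {η : Fin n → ℝ} {φ : ℝ} {Xf Xl M : Finset X}

theorem exmax (p : Fin n → Prop) (f : Fin n → ℝ) (h : ∃ z, p z) :
    ∃ z, p z ∧ ∀ y, p y → f y ≤ f z := by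
  classical
  obtain ⟨z, hz, k⟩ := exists_max_image (univ.filter p) f (h.imp fun z hz => by simpa using hz)
  exact ⟨z, (mem_filter.1 hz).2, fun y hy => k y (by simpa using hy)⟩

theorem exmin (p : Fin n → Prop) (f : Fin n → ℝ) (h : ∃ z, p z) :
    ∃ z, p z ∧ ∀ y, p y → f z ≤ f y :=
  (exmax p (fun z => - f z) h).imp fun _ k => ⟨k.1, fun y hy => neg_le_neg_iff.1 (k.2 y hy)⟩

/-- a tight set that faces `A` and `B` and holds `e` is matched with its other labels -/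
theorem Ti.both {Q Z : Finset X} (h : Ti Γ Q Z) (AB : A ≠ B) (hA : A ∈ Nb Γ Z) (hB : B ∈ Nb Γ Z)
    (he : e ∈ Z) (hm : Mt Γ (Om A B) (Q.erase e) t) : ∀ y ∈ Om A B, y ∈ Nb Γ Z → t y ∈ Z :=
  fun y y1 y2 => mem_of_mem_erase (hm.cnt (Z := Z.erase e) (I := ((Nb Γ Z).erase A).erase B)
    (erase_subset_erase _ h.sub) (fun w w1 w2 => mem_erase.2 ⟨(mOm.1 w1).2, mem_erase.2
      ⟨(mOm.1 w1).1, nb_of (mem_of_mem_erase w2) (hm.mem w w1)⟩⟩)
    (by rw [card_erase_of_mem (mem_erase.2 ⟨AB.symm, hB⟩), card_erase_of_mem hA, h.card,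
      card_erase_of_mem he]; rfl) y (mem_erase.2 ⟨(mOm.1 y1).2, mem_erase.2 ⟨(mOm.1 y1).1, y2⟩⟩)).2

namespace Win

/-- no label starts after `1 / 2` -/
theorem noL (W : Win P H Γ a E c ξ η φ Xf Xl) (h : ∀ z, a ∈ H z → z ≠ c → η z < 1 / 2) :
    Goal H a E := by
  have hC := W.ctx
  have ex : ∃ z, a ∈ H z ∧ z ≠ c := by
    obtain ⟨x, hx⟩ := hC.neQ
    obtain ⟨u, v, uv, k1, k2⟩ := hC.base.dh.pair hC.mem (mem_of_mem_erase hx) (mem_erase.1 hx).1.symm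
    by_cases k : u = c
    exacts [⟨v, k2.1, fun j => uv (k.trans j.symm)⟩, ⟨u, k1.1, k⟩]
  obtain ⟨B, ⟨aB, Bc⟩, B2⟩ := exmin _ η ex
  by_cases k0 : η B < φ ∧ ∃ z, (a ∈ H z ∧ z ≠ c) ∧ z ≠ B
  · obtain ⟨A, ⟨⟨aA, Ac⟩, AB⟩, A3⟩ := exmax _ η k0.2
    have A2 : ∀ z, a ∈ H z ∧ z ≠ c → η z ≤ η A := fun z hz => by
      by_cases j : z = B
      exacts [j ▸ B2 A ⟨aA, Ac⟩, A3 z ⟨hz, j⟩]
    have k : η B < φ ∧ A ≠ B := ⟨k0.1, AB⟩
    obtain ⟨M, hM⟩ := least W.sur hC.card hC.neQ k.2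
    have fin' := fun g x r ag xg xQ hr alt hc => W.two (g := g) (e := x) (t := r) k.2 aA Ac aB Bc
      (h A aA Ac) (fun z z1 z2 _ => A2 z ⟨z1, z2⟩) k.1 (fun z z1 z2 => B2 z ⟨z1, z2⟩) ag xg xQ hr
      alt hc fun z z1 z2 _ q => absurd (h z z1 z2) q.not_gt
    by_cases q : ∃ x ∈ M, x ∈ Γ c
    · obtain ⟨x, x1, x2⟩ := q
      obtain ⟨t, ht⟩ := pairM hC W.sur k.2 hM x1
      exact flow hC W.full aA aB W.ac (hC.real x2) (hM.ti.sub x1) ht (fun _ _ => True)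
        (fun _ _ _ _ _ => trivial) fun x r xQ xg hr _ alt =>
          fin' c x r W.ac xg xQ hr alt fun j => absurd rfl j
    · obtain ⟨x, x1, x2⟩ := mNb.1 hM.r
      obtain ⟨t, ht⟩ := pairM hC W.sur k.2 hM x1
      refine flow hC W.full aA aB aB (hC.real x2) (hM.ti.sub x1) ht (fun y x => y = c → ξ x = φ)
        (fun r hr y y1 _ yc => ?_) fun x r xQ xg hr pr alt => fin' B x r aB xg xQ hr alt fun _ =>
          pr c (mOm.2 ⟨Ac.symm, Bc.symm⟩) W.ac rfl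
      subst yc
      have := (hM.ti.union W.sur W.tf hM.r (W.nf aB Bc k.1)).both k.2
        (Nb_mono subset_union_left hM.l) (Nb_mono subset_union_left hM.r) (mem_union_left _ x1) hr
        y y1 (Nb_mono subset_union_right W.cf)
      exact W.ef _ ((mem_union.1 this).resolve_left fun j => q ⟨_, j, hr.mem y y1⟩) (hr.mem y y1)
  · obtain ⟨A, ⟨aA, Ac⟩, A2⟩ := exmax _ η ex
    have big : ∀ z, Src H a A c c z → φ < η z := fun z s =>
      (W.eta z s.1 s.2.2.1).2.2.1.lt_or_gt.resolve_left fun i =>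
        k0 ⟨(B2 z ⟨s.1, s.2.2.1⟩).trans_lt i, by
          by_cases j : z = B
          exacts [⟨A, ⟨aA, Ac⟩, fun w => s.2.1 (j.trans w.symm)⟩, ⟨z, ⟨s.1, s.2.2.1⟩, j⟩]⟩
    obtain ⟨M, hM⟩ := least W.sur hC.card hC.neQ Ac
    obtain ⟨x, x1, x2⟩ := mNb.1 hM.r
    obtain ⟨t, ht⟩ := pairM hC W.sur Ac hM x1
    refine flow hC W.full aA W.ac W.ac (hC.real x2) (hM.ti.sub x1) ht (fun _ _ => True)
      (fun _ _ _ _ _ => trivial) fun x r xQ xg hr _ alt => ?_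
    have tm : ∀ {z}, Src H a A c c z → r z ∈ Γ z := fun s => hr.mem _ (mOm.2 ⟨s.2.1, s.2.2.1⟩)
    have ty : ∀ {z}, Src H a A c c z → η z < ξ (r z) ∧ ξ (r z) < η z + 1 / 2 := fun s =>
      W.y1 s.1 s.2.2.1 (tm s) (h _ s.1 s.2.2.1)
    refine fin hC Ac aA W.ac W.ac xg xQ hr alt (fun z => 1 / 2 < ξ (r z))
      (fun z => ξ (r z) ≤ 1 / 2) (fun _ => False) (fun _ => False)
      (fun z s => ⟨(lt_or_ge _ _).imp_right Or.inl, fun q => hC.real (W.m1 aA Ac (hC.inQ (tm s))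
        (by linarith [h A aA Ac]) (by linarith [(ty s).2, A2 z ⟨s.1, s.2.2.1⟩])),
        fun _ => hC.real (by_contra fun j => by
          linarith [(W.cn _ (hC.inQ (tm s)) j).2, big z s, (ty s).1]), False.elim, False.elim⟩)
      (fun u v su sv q j _ => ?_) (fun u v su sv q j _ => ?_) (fun _ _ _ _ q => q.elim)
      fun _ _ _ _ q => q.elim
    · rcases le_total (ξ (r u)) (ξ (r v)) with i | i
      · exact Or.inl (hC.real (W.m1 sv.1 sv.2.2.1 (hC.inQ (tm su))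
          (by linarith [h v sv.1 sv.2.2.1]) (by linarith [(ty sv).2])))
      · exact Or.inr (hC.real (W.m1 su.1 su.2.2.1 (hC.inQ (tm sv))
          (by linarith [h u su.1 su.2.2.1]) (by linarith [(ty su).2])))
    · rcases le_total (ξ (r u)) (ξ (r v)) with i | i
      · exact Or.inr (hC.real (W.m1 su.1 su.2.2.1 (hC.inQ (tm sv)) (by linarith [(ty su).1])
          (by linarith [(W.eta u su.1 su.2.2.1).1])))
      · exact Or.inl (hC.real (W.m1 sv.1 sv.2.2.1 (hC.inQ (tm su)) (by linarith [(ty sv).1])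
          (by linarith [(W.eta v sv.1 sv.2.2.1).1])))

/-- no label starts between `φ` and `1 / 2` -/
theorem noV (W : Win P H Γ a E c ξ η φ Xf Xl) (hf : ∃ z, (a ∈ H z ∧ z ≠ c) ∧ η z < φ)
    (hl : ∃ z, (a ∈ H z ∧ z ≠ c) ∧ 1 / 2 < η z)
    (h : ∀ z, a ∈ H z → z ≠ c → η z < φ ∨ 1 / 2 < η z) : Goal H a E := by
  have hC := W.ctx
  have p1 := W.half
  obtain ⟨A, ⟨⟨aA, Ac⟩, A1⟩, A2⟩ := exmin _ η hf
  obtain ⟨B, ⟨⟨aB, Bc⟩, B1⟩, B2⟩ := exmax _ η hl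
  have AB : A ≠ B := fun k => by rw [k] at A1; linarith
  obtain ⟨M, hM⟩ := least W.sur hC.card hC.neQ AB
  have fA := W.nf aA Ac A1
  have lB := W.nl aB Bc B1
  obtain ⟨x, x1, x2⟩ := mNb.1 (hM.mid W.sur W.tf W.tl W.sep.1 W.cf W.cl fA lB Ac Bc).2.2.1
  obtain ⟨x3, x4⟩ := mem_inter.1 x1
  obtain ⟨t, ht⟩ := pairM hC W.sur AB hM x3
  refine flow hC W.full aA aB W.ac (hC.real x2) (hM.ti.sub x3) ht (fun y x => y ≠ c → ξ x ≤ φ)
    (fun r hr y y1 ay yc => ?_) fun x r xQ xg hr pr alt => ?_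
  · have := (W.tf.union W.sur W.tl W.cf W.cl).both AB (Nb_mono subset_union_left fA)
      (Nb_mono subset_union_right lB) (mem_union_left _ x4) hr y y1 ((h y ay yc).elim
        (fun k => Nb_mono subset_union_left (W.nf ay yc k))
        fun k => Nb_mono subset_union_right (W.nl ay yc k))
    exact (mem_union.1 this).elim W.pf fun k => (W.pl k).le
  have om : ∀ {z}, Src H a A B c z → z ∈ Om A B := fun s => mOm.2 ⟨s.2.1, s.2.2.1⟩
  have tQ : ∀ {z}, Src H a A B c z → r z ∈ P.erase a := fun s => hC.inQ (hr.mem _ (om s))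
  have t0 : ∀ {z}, Src H a A B c z → ξ (r z) ≤ φ := fun s => pr _ (om s) s.1 s.2.2.2
  have t1 : ∀ {z}, Src H a A B c z → η z < φ → η z < ξ (r z) := fun s k =>
    (W.y1 s.1 s.2.2.2 (hr.mem _ (om s)) (by linarith)).1
  have t2 : ∀ {z}, Src H a A B c z → 1 / 2 < η z → ξ (r z) + 1 / 2 < η z := fun s k =>
    (W.yes _ s.1 s.2.2.2 _ (hr.mem _ (om s))).resolve_left fun j => by linarith [j.1, t0 s]
  refine fin hC AB aA aB W.ac xg xQ hr alt (fun z => η z < φ) (fun z => 1 / 2 < η z)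
    (fun _ => False) (fun _ => False)
    (fun z s => ⟨(h z s.1 s.2.2.2).imp_right Or.inl, fun q => hC.real (W.m1 aA Ac (tQ s)
      (by linarith [t1 s q, A2 z ⟨⟨s.1, s.2.2.2⟩, q⟩]) (by linarith [t0 s, (W.eta A aA Ac).1])),
      fun q => hC.real (W.m2 aB Bc (tQ s) (by linarith [t2 s q, B2 z ⟨⟨s.1, s.2.2.2⟩, q⟩])),
      False.elim, False.elim⟩)
    (fun u v su sv q j _ => ?_) (fun u v su sv q j _ => ?_) (fun _ _ _ _ q => q.elim)
    fun _ _ _ _ q => q.elim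
  · rcases le_total (ξ (r u)) (ξ (r v)) with i | i
    · exact Or.inr (hC.real (W.m1 su.1 su.2.2.2 (tQ sv) (by linarith [t1 su q])
        (by linarith [t0 sv, (W.eta u su.1 su.2.2.2).1])))
    · exact Or.inl (hC.real (W.m1 sv.1 sv.2.2.2 (tQ su) (by linarith [t1 sv j])
        (by linarith [t0 su, (W.eta v sv.1 sv.2.2.2).1])))
  · rcases le_total (ξ (r u)) (ξ (r v)) with i | i
    · exact Or.inl (hC.real (W.m2 sv.1 sv.2.2.2 (tQ su) (by linarith [t2 sv j])))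
    · exact Or.inr (hC.real (W.m2 su.1 su.2.2.2 (tQ sv) (by linarith [t2 su q])))

/-- all three kinds of labels occur: the state closes, or there is a third arm -/
theorem side (W : Win P H Γ a E c ξ η φ Xf Xl) (hf : ∃ z, (a ∈ H z ∧ z ≠ c) ∧ η z < φ)
    (hl : ∃ z, (a ∈ H z ∧ z ≠ c) ∧ 1 / 2 < η z)
    (hv : ∃ z, (a ∈ H z ∧ z ≠ c) ∧ φ < η z ∧ η z < 1 / 2) :
    Goal H a E ∨ ∃ Z, Ti Γ (P.erase a) Z ∧ c ∈ Nb Γ Z ∧ Disjoint Z Xl ∧
      (∀ y ∈ Nb Γ Z, y ∈ Nb Γ Xl → y = c) ∧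
      ∀ v, a ∈ H v → v ≠ c → φ < η v → η v < 1 / 2 → v ∈ Nb Γ Z := by
  have hC := W.ctx
  have p1 := W.half
  obtain ⟨B, ⟨⟨aB, Bc⟩, B1⟩, B2⟩ := exmin _ η hf
  obtain ⟨g, ⟨⟨ag, gc⟩, g1⟩, g2⟩ := exmax _ η hl
  obtain ⟨A, ⟨⟨aA, Ac⟩, A0, A1⟩, A2⟩ := exmax _ η hv
  have AB : A ≠ B := fun k => by rw [k] at A0; linarith
  obtain ⟨M, hM⟩ := least W.sur hC.card hC.neQ AB
  have fB := W.nf aB Bc B1
  by_cases q : ∃ x ∈ M, x ∈ Xl ∧ x ∈ Γ c
  swap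
  · have tZ := hM.ti.union W.sur W.tf hM.r fB
    have cZ : c ∈ Nb Γ (M ∪ Xf) := Nb_mono subset_union_right W.cf
    obtain ⟨d1, d2⟩ := tZ.sep W.sur W.tl cZ W.cl fun x x1 x2 x3 => (mem_union.1 x1).elim
      (fun k => q ⟨x, k, x2, x3⟩) fun k => disjoint_left.1 W.sep.1 k x2
    refine Or.inr ⟨_, tZ, cZ, d1, d2, fun v av vc v1 v2 => ?_⟩
    obtain ⟨x, x1, x2⟩ := mNb.1 hM.l
    have x3 := W.no g ag gc x (hM.ti.sub x1) fun k =>
      gc (d2 g (nb_of (mem_union_left _ x1) k) (W.nl ag gc g1))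
    have x4 := (W.xi x (hM.ti.sub x1)).2
    refine nb_of (mem_union_left _ x1) (W.m1 av vc (hM.ti.sub x1)
      (by linarith [(W.y1 aA Ac x2 A1).1, A2 v ⟨⟨av, vc⟩, v1, v2⟩]) ?_)
    rcases x3 with k | k <;> linarith [k, (W.eta g ag gc).2.1]
  obtain ⟨e, e1, e2, e3⟩ := q
  have eQ := hM.ti.sub e1
  have cO : c ∈ Om A B := mOm.2 ⟨Ac.symm, Bc.symm⟩
  have F : ∀ r, Mt Γ (Om A B) ((P.erase a).erase e) r → ∀ y ∈ Om A B, y ∈ Nb Γ Xf → r y ∈ Xf :=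
    fun r hr y y1 y2 => (hr.cnt (Z := Xf) (I := (Nb Γ Xf).erase B)
      (subset_erase.2 ⟨W.tf.sub, disjoint_right.1 W.sep.1 e2⟩)
      (fun w w1 w2 => mem_erase.2 ⟨(mOm.1 w1).2, nb_of w2 (hr.mem w w1)⟩)
      (by rw [card_erase_of_mem fB, W.tf.card]; rfl) y (mem_erase.2 ⟨(mOm.1 y1).2, y2⟩)).2
  have fin' : ∀ x r, x ∈ H g → x ∈ P.erase a → Mt Γ (Om A B) ((P.erase a).erase x) r →
      Alt0 H a E A B x r → (∀ y ∈ Om A B, a ∈ H y → y ∈ Nb Γ Xf → r y ∈ Xf) →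
      (∀ z ∈ Om A B, a ∈ H z → z ≠ c → z ≠ g → 1 / 2 < η z →
        η g < ξ (r z) ∨ ξ (r z) + 1 / 2 < η z → x ∈ H z) → Goal H a E :=
    fun x r xg xQ hr alt k1 k2 => W.two AB aA Ac aB Bc A1 (fun z z1 z2 z3 => by
        rcases (W.eta z z1 z2).2.2.1.lt_or_gt with j | j
        exacts [by linarith, A2 z ⟨⟨z1, z2⟩, j, z3⟩]) B1 (fun z z1 z2 => by
        by_cases j : η z < φ
        exacts [B2 z ⟨⟨z1, z2⟩, j⟩, by linarith]) ag xg xQ hr alt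
      (fun _ => W.ef _ (k1 c cO W.ac W.cf) (hr.mem c cO)) fun z z1 z2 z3 z4 =>
        ⟨A0, gc, g2 z ⟨⟨z1, z2⟩, z4⟩, fun y y1 y2 y3 y4 => W.pf (k1 y y1 y2 (W.nf y2 y3 y4)),
          k2 z (mOm.2 ⟨fun j => by rw [j] at z4; linarith, fun j => by rw [j] at z4; linarith⟩)
            z1 z2 z3 z4⟩
  have eD : ∀ z, a ∈ H z → z ≠ c → 1 / 2 < η z → e ∈ H z := fun z z1 z2 z3 =>
    hC.real (W.m2 z1 z2 eQ (by linarith [W.el e e2 e3]))
  obtain ⟨t, ht⟩ := pairM hC W.sur AB hM e1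
  left
  rcases reach2 hC W.full aA aB eQ ht with ⟨r, r1, r2⟩ | k
  · exact fin' e r (eD g ag gc g1) eQ r1 r2 (fun y y1 _ => F r r1 y y1)
      fun z _ z1 z2 _ z4 _ => eD z z1 z2 z4
  by_cases ex : ∃ z, z ∈ Om A B ∧ a ∈ H z ∧ z ≠ c ∧ 1 / 2 < η z ∧
    (η g < ξ (t z) ∨ ξ (t z) + 1 / 2 < η z)
  swap
  · obtain ⟨h, h1, h2⟩ := W.full g ag
    obtain ⟨r, r1, r2⟩ := k h h1
    exact fin' h r (hC.real h2) (hC.hs h1) r1 (Or.inl ⟨h, h1, Or.inl rfl⟩)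
      (fun y y1 y2 y3 => (r2 y y1 y2).symm ▸ F t ht y y1 y3)
      fun z z0 z1 z2 _ z4 z5 => absurd ⟨z, z0, z1, z2, z4, r2 z z0 z1 ▸ z5⟩ ex
  obtain ⟨y, ⟨y0, y1, y2, y3, y4⟩, low⟩ :=
    exmin _ (fun z => if 1 / 2 < ξ (t z) then ξ (t z) - 1 else ξ (t z)) ex
  obtain ⟨h, h1, h2⟩ := W.full y y1
  obtain ⟨r, r1, r2⟩ := k h h1
  have yQ := hC.inQ (ht.mem y y0)
  have m := (r1.del y0).add (notMem_erase y _) (fun j => notMem_erase h _ (mem_of_mem_erase j)) h2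
  rw [insert_erase y0, r2 y y0 y1, erase_right_comm, insert_erase (mem_erase.2
    ⟨fun j => (mem_erase.1 (r1.into y y0)).1 ((r2 y y0 y1).trans j.symm), hC.hs h1⟩)] at m
  have yy := (W.eta y y1 y2).2.1
  have hit : ∀ z, a ∈ H z → z ≠ c → 1 / 2 < η z → (ξ (t y) + 1 / 2 < η y → ξ (t y) + 1 / 2 < η z) →
      t y ∈ H z := fun z z1 z2 z3 j => hC.real (y4.elim (fun i => W.m1 z1 z2 yQ
        (by linarith [g2 z ⟨⟨z1, z2⟩, z3⟩]) (by linarith [(W.xi _ yQ).2]))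
        fun i => W.m2 z1 z2 yQ (j i))
  refine fin' (t y) _ (hit g ag gc g1 fun j => by linarith [g2 y ⟨⟨y1, y2⟩, y3⟩]) yQ m
    (Or.inl ⟨h, h1, Or.inr ⟨y, y0, y1, update_self ..⟩⟩) (fun w w1 w2 w3 => ?_)
    fun z z0 z1 z2 _ z4 z5 => ?_
  · rw [update_of_ne fun j : w = y => y2 (W.sep.2 y (j ▸ w3) (W.nl y1 y2 y3)), r2 w w1 w2]
    exact F t ht w w1 w3
  · by_cases j : z = y
    · rw [j]; exact hC.real (ht.mem y y0)
    rw [update_of_ne j, r2 z z0 z1] at z5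
    refine hit z z1 z2 z4 fun i => ?_
    have := low z ⟨z0, z1, z2, z4, z5⟩
    have z6 := W.xi _ (hC.inQ (ht.mem z z0))
    have z7 := (W.eta z z1 z2).2.1
    have y6 := (W.xi _ yQ).1
    rw [if_neg (by linarith)] at this
    rcases z5 with z5 | z5
    · rw [if_pos (by linarith)] at this; linarith [z6.2]
    · rw [if_neg (by linarith)] at this; linarith

theorem goal (W : Win P H Γ a E c ξ η φ Xf Xl) : Goal H a E := by
  have p1 := W.half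
  by_cases hl : ∃ z, (a ∈ H z ∧ z ≠ c) ∧ 1 / 2 < η z
  swap
  · exact W.noL fun z z1 z2 =>
      (W.eta z z1 z2).2.2.2.lt_or_gt.resolve_right fun k => hl ⟨z, ⟨z1, z2⟩, k⟩
  by_cases hf : ∃ z, (a ∈ H z ∧ z ≠ c) ∧ η z < φ
  swap
  · exact W.mirror.noL fun z z1 z2 => by
      have := (W.eta z z1 z2).2.2.1.lt_or_gt.resolve_left fun k => hf ⟨z, ⟨z1, z2⟩, k⟩
      linarith
  by_cases hv : ∃ z, (a ∈ H z ∧ z ≠ c) ∧ φ < η z ∧ η z < 1 / 2
  swap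
  · exact W.noV hf hl fun z z1 z2 =>
      (W.typ z1 z2).imp_right fun k => k.resolve_left fun j => hv ⟨z, ⟨z1, z2⟩, j⟩
  rcases W.side hf hl hv with k | ⟨Z1, a1, a2, a3, a4, a5⟩
  · exact k
  rcases W.mirror.side (hl.imp fun z k => ⟨k.1, by linarith [k.2]⟩)
    (hf.imp fun z k => ⟨k.1, by linarith [k.2]⟩)
    (hv.imp fun z k => ⟨k.1, by linarith [k.2.2], by linarith [k.2.1]⟩) with
    k | ⟨Z2, b1, b2, b3, b4, b5⟩
  · exact k
  obtain ⟨A, ⟨aA, Ac⟩, A1⟩ := hf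
  obtain ⟨B, ⟨aB, Bc⟩, B1⟩ := hl
  obtain ⟨g, ⟨ag, gc⟩, g1, g2⟩ := hv
  have b6 : ∀ v, a ∈ H v → v ≠ c → φ < η v → η v < 1 / 2 → v ∈ Nb Γ Z2 := fun v v1 v2 v3 v4 =>
    b5 v v1 v2 (by linarith) (by linarith)
  obtain ⟨tZ, -, nZ⟩ := a1.inter W.sur b1
    (a1.meet W.sur b1 gc (a5 g ag gc g1 g2) (b6 g ag gc g1 g2) a2 b2)
  have gZ := nZ g (a5 g ag gc g1 g2) (b6 g ag gc g1 g2)
  have nf : ∀ z, a ∈ H z → z ≠ c → η z < φ → ∀ x, x ∈ Xl ∨ x ∈ Z1 ∩ Z2 → x ∉ Γ z :=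
    fun z z1 z2 z3 x hx k => z2 (hx.elim (fun j => W.sep.2 z (W.nf z1 z2 z3) (nb_of j k))
      fun j => b4 z (nb_of (mem_inter.1 j).2 k) (W.nf z1 z2 z3))
  have nl : ∀ z, a ∈ H z → z ≠ c → 1 / 2 < η z → ∀ x, x ∈ Xf ∨ x ∈ Z1 ∩ Z2 → x ∉ Γ z :=
    fun z z1 z2 z3 x hx k => z2 (hx.elim (fun j => W.sep.2 z (nb_of j k) (W.nl z1 z2 z3))
      fun j => a4 z (nb_of (mem_inter.1 j).1 k) (W.nl z1 z2 z3))
  have gap : ∀ z w, a ∈ H z → z ≠ c → η z < φ → a ∈ H w → w ≠ c → 1 / 2 < η w →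
      η z + 1 / 2 < η w := fun z w z1 z2 z3 w1 w2 w3 => by
    obtain ⟨x, x1, x2⟩ := mNb.1 gZ
    have := (W.y1 ag gc x2 g2).1
    have := (W.xi x (tZ.sub x1)).2
    rcases W.no z z1 z2 x (tZ.sub x1) (nf z z1 z2 z3 x (Or.inr x1)) with k | k <;>
      rcases W.no w w1 w2 x (tZ.sub x1) (nl w w1 w2 w3 x (Or.inr x1)) with j | j <;>
      linarith [k, j]
  have nv : ∀ z, a ∈ H z → z ≠ c → φ < η z → η z < 1 / 2 → ∀ x, x ∈ Xf ∨ x ∈ Xl → x ∉ Γ z :=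
    fun z z1 z2 z3 z4 x hx k => by
      linarith [(W.y1 z1 z2 k z4).1, hx.elim W.pf fun j => (W.pl j).le]
  refine spider W.ctx W.full W.sur W.tf W.tl tZ W.cf W.cl (nZ c a2 b2) W.sep.1
    (b3.symm.mono_right inter_subset_right) (a3.symm.mono_right inter_subset_left)
    (fun z z1 z2 => ?_) aA Ac (W.nf aA Ac A1) aB Bc (W.nl aB Bc B1) ag gc gZ
  have z0 := W.eta z z1 z2
  rcases W.typ z1 z2 with k | ⟨k, k'⟩ | k
  · refine ⟨Or.inl (W.nf z1 z2 k), fun _ x hx => ?_,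
      fun j => (mNb.1 j).elim fun x i => absurd i.2 (nf z z1 z2 k x (Or.inl i.1)),
      fun j => (mNb.1 j).elim fun x i => absurd i.2 (nf z z1 z2 k x (Or.inr i.1))⟩
    have := gap z B z1 z2 k aB Bc B1
    have := W.pf hx
    refine W.m1 z1 z2 (W.tf.sub hx) ?_ (by linarith [z0.1])
    rcases W.no B aB Bc x (W.tf.sub hx) (nl B aB Bc B1 x (Or.inl hx)) with j | j <;> linarith [j]
  · refine ⟨Or.inr (Or.inr (nZ z (a5 z z1 z2 k k') (b6 z z1 z2 k k'))),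
      fun j => (mNb.1 j).elim fun x i => absurd i.2 (nv z z1 z2 k k' x (Or.inl i.1)),
      fun j => (mNb.1 j).elim fun x i => absurd i.2 (nv z z1 z2 k k' x (Or.inr i.1)),
      fun _ x hx => ?_⟩
    have := gap A B aA Ac A1 aB Bc B1
    have := (W.xi x (tZ.sub hx)).2
    have := (W.eta A aA Ac).1
    have := (W.eta B aB Bc).2.1
    rcases W.no A aA Ac x (tZ.sub hx) (nf A aA Ac A1 x (Or.inr hx)) with i | i <;>
      rcases W.no B aB Bc x (tZ.sub hx) (nl B aB Bc B1 x (Or.inr hx)) with j | j <;>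
      exact W.m1 z1 z2 (tZ.sub hx) (by linarith [i, j]) (by linarith [i, j])
  · refine ⟨Or.inr (Or.inl (W.nl z1 z2 k)),
      fun j => (mNb.1 j).elim fun x i => absurd i.2 (nl z z1 z2 k x (Or.inl i.1)),
      fun _ x hx => ?_,
      fun j => (mNb.1 j).elim fun x i => absurd i.2 (nl z z1 z2 k x (Or.inr i.1))⟩
    have := gap A z aA Ac A1 z1 z2 k
    have := W.pl hx
    have := (W.eta A aA Ac).1
    refine W.m2 z1 z2 (W.tl.sub hx) ?_
    rcases W.no A aA Ac x (W.tl.sub hx) (nf A aA Ac A1 x (Or.inl hx)) with j | j <;> linarith [j]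

end Win

/-- the closing theorem follows from the narrow case -/
theorem closing_of_narrow (hn : NarrowS) : ClosingS := by
  intro X _ n P H G a E ang lo len Bad hB hC
  obtain ⟨Γ, θ, h1, h2, h3, h4⟩ := shrink hB hC
  by_cases w : ∃ c, a ∈ H c ∧ ∃ u φ Xf Xl, Wd (P.erase a) Γ ang c u φ Xf Xl
  swap
  · have nw : ∀ y, a ∈ H y → Nw (P.erase a) Γ ang y (θ y) := fun y hy =>
      (h4 y hy).2.resolve_right fun q => w ⟨y, hy, q⟩
    exact hn X n P H Γ a E ang θ hB ⟨hC.mem, h1, fun y hy => (nw y hy).1,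
      fun y hy x hx => two_ne ((nw y hy).2 x hx).1 ((nw y hy).2 x hx).2, h2, h3, hC.hs,
      fun y hy => (h4 y hy).1⟩
  obtain ⟨c, ac, u, φ, Xf, Xl, hW⟩ := w
  have nw : ∀ y, a ∈ H y → y ≠ c → Nw (P.erase a) Γ ang y (θ y) := fun y hy k =>
    (h4 y hy).2.resolve_right fun ⟨_, _, _, _, q⟩ => k (q.uniq h3 hW)
  have hX : Ctx P H Γ a E := ⟨hB, hC.mem, h1, fun y hy => (h2 y hy).1, hC.hs,
    (h4 c ac).1.imp fun _ k => k.1⟩
  have p0 := hW.pos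
  have p1 := hW.half
  have yes : ∀ z, a ∈ H z → z ≠ c → ∀ x ∈ Γ z, fract (θ z - u) < fract (ang x - u) ∧
      fract (ang x - u) < fract (θ z - u) + 1 / 2 ∨ fract (ang x - u) + 1 / 2 < fract (θ z - u) :=
    fun z z1 z2 x hx => by
      obtain ⟨k1, k2⟩ := ((nw z z1 z2).1 x (hX.inQ hx)).1 hx
      rcases cut (ang x) (θ z) u with q | q
      exacts [Or.inl ⟨by linarith [q.2], by linarith [q.2]⟩, Or.inr (by linarith [q.2])]
  have no : ∀ z, a ∈ H z → z ≠ c → ∀ x ∈ P.erase a, x ∉ Γ z →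
      fract (ang x - u) < fract (θ z - u) ∧ fract (θ z - u) < fract (ang x - u) + 1 / 2 ∨
        fract (θ z - u) + 1 / 2 < fract (ang x - u) := fun z z1 z2 x hx k => by
    obtain ⟨g1, g2⟩ := (nw z z1 z2).2 x hx
    have : 1 / 2 < fract (ang x - θ z) := g2.lt_or_gt.resolve_left fun j =>
      k (((nw z z1 z2).1 x hx).2 ⟨(fract_nonneg _).lt_of_ne' g1, j⟩)
    rcases cut (ang x) (θ z) u with q | q
    exacts [Or.inr (by linarith [q.2]), Or.inl ⟨q.1, by linarith [q.2]⟩]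
  refine Win.goal (c := c) (ξ := fun x => fract (ang x - u)) (η := fun z => fract (θ z - u))
    (φ := φ) (Xf := Xf) (Xl := Xl) ⟨hX, fun z hz => (h4 z hz).1, h3, ac, p0, p1,
      fun x _ => ⟨fract_nonneg _, fract_lt_one _⟩, fun z z1 z2 => ?_, yes, no, fun x hx => ?_,
      fun x hx k => (hW.arc x hx).1 k, hW.tf, hW.tl, hW.cf, hW.cl, hW.ef, hW.el⟩
  · obtain ⟨f, f1, f2⟩ := mNb.1 hW.cf
    obtain ⟨l, l1, l2⟩ := mNb.1 hW.cl
    have f3 := hW.ef f f1 f2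
    have l3 := hW.el l l1 l2
    have e0 := fract_nonneg (θ z - u)
    have e1 := fract_lt_one (θ z - u)
    by_cases kl : l ∈ Γ z
    · have kf : f ∉ Γ z := fun k => z2 ((hW.sep h3).2 z (nb_of f1 k) (nb_of l1 kl))
      rcases yes z z1 z2 l kl with q | q <;> rcases no z z1 z2 f (hW.tf.sub f1) kf with j | j <;>
        exact ⟨by linarith [q, j], by linarith [q, j], fun k => by linarith [q, j],
          fun k => by linarith [q, j]⟩
    · rcases no z z1 z2 l (hW.tl.sub l1) kl with q | q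
      swap
      · linarith
      refine ⟨by linarith [q.1], by linarith [q.2], fun k => ?_, fun k => by linarith [q.2]⟩
      by_cases kf : f ∈ Γ z
      · rcases yes z z1 z2 f kf with j | j <;> linarith [j]
      · rcases no z z1 z2 f (hW.tf.sub f1) kf with j | j <;> linarith [j]
  · by_contra k
    rw [not_or, not_le] at k
    exact (hW.arc x (hX.inQ hx)).2 ⟨(fract_nonneg _).lt_of_ne' k.1, k.2⟩ hx

end Pool.Agent.MP_3b4e7c_co.Gen4
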